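import Mathlib

/-!
# PSQ module HIT: a random hitting set, all scales at once

`R j` finite nonempty sets, `K j` samples from `R j`.  For `N ∈ S` a finite set `A N` with
`∑_{j < B N} K_j |A N ∩ R_j| / |R_j| ≥ 2 log N`.  Then one can choose `M_j ⊆ R_j`, `|M_j| ≤ K_j`
such that every `A N`, `N ∈ S`, meets some `M_j`.

Proof.  (1) Finite version: for `T`, let `X = ∀ j : Fin B, (Fin (K j) → R j)` (finite product,
`B = max_{N ≤ T} B N`).  The number of `ω ∈ X` with `ω j i ∉ A N` for all `j, i` is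
`∏_j (|R_j| - |A N ∩ R_j|)^{K_j} ≤ |X| exp(- ∑_j K_j |A N ∩ R_j| / |R_j|) ≤ |X| / N²`,
and `∑_{2 ≤ N ≤ T} 1/N² < 1`, so some `ω` is good for all `N ∈ S`, `N ≤ T`.
(2) Compactness: in the compact space `∀ j : ℕ, (Fin (K j) → R j)` (discrete finite factors) the
sets `F_T = {ω : good for all N ∈ S, N ≤ T}` are closed (finite intersections of finite unions of
preimages of points under coordinate maps), nonempty by (1) and decreasing; so
`⋂ F_T ≠ ∅` (`IsCompact.nonempty_iInter_of_sequence_nonempty_isCompact_isClosed`).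
Take `M_j = image of ω j`.
-/

set_option autoImplicit false

namespace Pool.Agent.PSQ

open Finset

lemma sum_inv_sq_lt (T : ℕ) (P : Finset ℕ) (hP : P ⊆ Finset.Icc 2 T) :
    ∑ N ∈ P, 1 / ((N : ℝ) ^ 2) < 1 := by
  have h1 : ∀ T : ℕ, 1 ≤ T → ∑ N ∈ Finset.Icc 2 T, 1 / ((N : ℝ) ^ 2) ≤ 1 - 1 / (T : ℝ) := by
    intro T hT
    induction T, hT using Nat.le_induction with
    | base => simp
    | succ n hn ih =>
      rw [Finset.sum_Icc_succ_top (by omega)]
      have hn0 : (0 : ℝ) < n := by exact_mod_cast hn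
      have h2 : 1 / (((n + 1 : ℕ) : ℝ) ^ 2) ≤ 1 / (n : ℝ) - 1 / ((n + 1 : ℕ) : ℝ) := by
        push_cast
        rw [div_sub_div _ _ hn0.ne' (by positivity), div_le_div_iff₀ (by positivity) (by positivity)]
        nlinarith
      linarith
  rcases Nat.eq_zero_or_pos T with rfl | hT
  · have : P = ∅ := by
      apply Finset.subset_empty.1
      intro x hx
      have := Finset.mem_Icc.1 (hP hx)
      omega
    rw [this]; simp
  · calc ∑ N ∈ P, 1 / ((N : ℝ) ^ 2) ≤ ∑ N ∈ Finset.Icc 2 T, 1 / ((N : ℝ) ^ 2) :=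
          Finset.sum_le_sum_of_subset_of_nonneg hP fun _ _ _ => by positivity
      _ ≤ 1 - 1 / (T : ℝ) := h1 T hT
      _ < 1 := by
          have : (0 : ℝ) < 1 / (T : ℝ) := by positivity
          linarith

/-- finite version -/
lemma hitting_fin (R : ℕ → Finset ℕ) (hR : ∀ j, (R j).Nonempty) (K : ℕ → ℕ) (P : Finset ℕ)
    (T : ℕ) (hP : P ⊆ Finset.Icc 2 T) (A : ℕ → Finset ℕ) (B : ℕ → ℕ)
    (hw : ∀ N ∈ P, 2 * Real.log N ≤
      ∑ j ∈ range (B N), (K j : ℝ) * (((A N) ∩ (R j)).card : ℝ) / ((R j).card : ℝ)) :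
    ∃ ω : ∀ j : ℕ, Fin (K j) → R j, ∀ N ∈ P, ∃ j < B N, ∃ i, (ω j i : ℕ) ∈ A N := by
  classical
  set D : ℕ := P.sup B with hD
  have hBD : ∀ N ∈ P, B N ≤ D := fun N hN => Finset.le_sup (f := B) hN
  let I := Σ j : Fin D, Fin (K j)
  let Ω : Finset (I → ℕ) := Fintype.piFinset (fun i : I => R i.1)
  let bad : ℕ → Finset (I → ℕ) := fun N =>
    Fintype.piFinset (fun i : I => if (i.1 : ℕ) < B N then R i.1 \ A N else R i.1)
  have hΩ : (0 : ℝ) < (Ω.card : ℝ) := by
    rw [Fintype.card_piFinset]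
    push_cast
    apply Finset.prod_pos
    intro i _
    exact_mod_cast Finset.card_pos.2 (hR i.1)
  have hbad : ∀ N ∈ P, ((bad N).card : ℝ) ≤ (Ω.card : ℝ) * (1 / (N : ℝ) ^ 2) := by
    intro N hN
    have hN2 : 2 ≤ N := (Finset.mem_Icc.1 (hP hN)).1
    have hN0 : (0 : ℝ) < N := by exact_mod_cast (by omega : 0 < N)
    rw [Fintype.card_piFinset, Fintype.card_piFinset]
    push_cast
    have h1 : ∀ i : I, (((if (i.1 : ℕ) < B N then R i.1 \ A N else R i.1).card : ℕ) : ℝ) ≤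
        ((R i.1).card : ℝ) * Real.exp (-(if (i.1 : ℕ) < B N then
          (((A N) ∩ (R i.1)).card : ℝ) / ((R i.1).card : ℝ) else 0)) := by
      intro i
      have hc : (0 : ℝ) < ((R i.1).card : ℝ) := by exact_mod_cast Finset.card_pos.2 (hR i.1)
      split_ifs with h
      · have h2 : ((R i.1 \ A N).card : ℝ) = (R i.1).card - ((A N) ∩ (R i.1)).card := by
          have := Finset.card_sdiff_add_card_inter (R i.1) (A N)
          rw [Finset.inter_comm] at this
          have h3 : ((R i.1 \ A N).card : ℝ) + ((A N ∩ R i.1).card : ℝ) = (R i.1).card := by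
            exact_mod_cast this
          linarith
        rw [h2]
        have h3 := Real.add_one_le_exp (-((((A N) ∩ (R i.1)).card : ℝ) / ((R i.1).card : ℝ)))
        have h4 : ((R i.1).card : ℝ) - ((A N) ∩ (R i.1)).card =
            ((R i.1).card : ℝ) * (-((((A N) ∩ (R i.1)).card : ℝ) / ((R i.1).card : ℝ)) + 1) := by
          field_simp
          ring
        rw [h4]
        exact mul_le_mul_of_nonneg_left h3 hc.le
      · simp
    have h2 : ∏ i : I, (((if (i.1 : ℕ) < B N then R i.1 \ A N else R i.1).card : ℕ) : ℝ) ≤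
        ∏ i : I, (((R i.1).card : ℝ) * Real.exp (-(if (i.1 : ℕ) < B N then
          (((A N) ∩ (R i.1)).card : ℝ) / ((R i.1).card : ℝ) else 0))) :=
      Finset.prod_le_prod (fun i _ => by positivity) fun i _ => h1 i
    refine h2.trans ?_
    rw [Finset.prod_mul_distrib]
    apply mul_le_mul_of_nonneg_left _ (by positivity)
    rw [← Real.exp_sum]
    have h3 : ∑ i : I, -(if (i.1 : ℕ) < B N then
          (((A N) ∩ (R i.1)).card : ℝ) / ((R i.1).card : ℝ) else 0) =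
        -∑ j ∈ range (B N), (K j : ℝ) * (((A N) ∩ (R j)).card : ℝ) / ((R j).card : ℝ) := by
      rw [Finset.sum_neg_distrib, Fintype.sum_sigma]
      congr 1
      simp only [Finset.sum_const, Finset.card_univ, Fintype.card_fin, nsmul_eq_mul]
      rw [Fin.sum_univ_eq_sum_range (fun j => (K j : ℝ) * (if j < B N then
          (((A N) ∩ (R j)).card : ℝ) / ((R j).card : ℝ) else 0)) D]
      rw [← Finset.sum_subset (Finset.range_subset_range.2 (hBD N hN))]
      · apply Finset.sum_congr rfl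
        intro j hj
        rw [if_pos (Finset.mem_range.1 hj)]
        ring
      · intro j _ hj
        rw [if_neg (by simpa using hj), mul_zero]
    rw [h3]
    calc Real.exp (-∑ j ∈ range (B N), (K j : ℝ) * (((A N) ∩ (R j)).card : ℝ) / ((R j).card : ℝ))
        ≤ Real.exp (-(2 * Real.log N)) := Real.exp_le_exp.2 (neg_le_neg (hw N hN))
      _ = 1 / (N : ℝ) ^ 2 := by
          rw [Real.exp_neg, mul_comm, Real.exp_mul, Real.exp_log hN0, one_div]
          norm_num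
  -- some ω is not bad
  have hex : ∃ ω ∈ Ω, ∀ N ∈ P, ω ∉ bad N := by
    by_contra hcon
    push Not at hcon
    have hsub : Ω ⊆ P.biUnion bad := by
      intro ω hω
      obtain ⟨N, hN, hNb⟩ := hcon ω hω
      exact Finset.mem_biUnion.2 ⟨N, hN, hNb⟩
    have h1 : (Ω.card : ℝ) ≤ ∑ N ∈ P, ((bad N).card : ℝ) := by
      exact_mod_cast (Finset.card_le_card hsub).trans Finset.card_biUnion_le
    have h2 : ∑ N ∈ P, ((bad N).card : ℝ) ≤ (Ω.card : ℝ) * ∑ N ∈ P, 1 / (N : ℝ) ^ 2 := by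
      rw [Finset.mul_sum]
      exact Finset.sum_le_sum hbad
    have h3 := sum_inv_sq_lt T P hP
    nlinarith
  obtain ⟨ω, hω, hgood⟩ := hex
  have hmem : ∀ i : I, ω i ∈ R i.1 := fun i => Fintype.mem_piFinset.1 hω i
  let W : ∀ j : ℕ, Fin (K j) → R j := fun j i =>
    if h : j < D then ⟨ω ⟨⟨j, h⟩, i⟩, hmem ⟨⟨j, h⟩, i⟩⟩ else ⟨(R j).min' (hR j), (R j).min'_mem (hR j)⟩
  have hW : ∀ i : I, (W i.1 i.2 : ℕ) = ω i := by
    intro i
    have h : (i.1 : ℕ) < D := i.1.2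
    show ((if h : (i.1 : ℕ) < D then (⟨ω ⟨⟨i.1, h⟩, i.2⟩, hmem ⟨⟨i.1, h⟩, i.2⟩⟩ : R i.1) else _ : R i.1) : ℕ) = _
    rw [dif_pos h]
  refine ⟨W, ?_⟩
  intro N hN
  have h1 := hgood N hN
  rw [Fintype.mem_piFinset] at h1
  push Not at h1
  obtain ⟨i, hi⟩ := h1
  by_cases hlt : (i.1 : ℕ) < B N
  · rw [if_pos hlt, Finset.mem_sdiff] at hi
    push Not at hi
    refine ⟨i.1, hlt, i.2, ?_⟩
    rw [hW i]
    exact hi (hmem i)
  · rw [if_neg hlt] at hi
    exact absurd (hmem i) hi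

theorem hitting (R : ℕ → Finset ℕ) (hR : ∀ j, (R j).Nonempty) (K : ℕ → ℕ) (S : Set ℕ)
    (hS : ∀ N ∈ S, 2 ≤ N) (A : ℕ → Finset ℕ) (B : ℕ → ℕ)
    (hw : ∀ N ∈ S, 2 * Real.log N ≤
      ∑ j ∈ range (B N), (K j : ℝ) * (((A N) ∩ (R j)).card : ℝ) / ((R j).card : ℝ)) :
    ∃ M : ℕ → Finset ℕ, (∀ j, M j ⊆ R j ∧ (M j).card ≤ K j) ∧
      ∀ N ∈ S, ∃ j, (A N ∩ M j).Nonempty := by
  classical
  let F : ℕ → Set (∀ j : ℕ, Fin (K j) → R j) := fun T =>
    {ω | ∀ N ∈ S, N ≤ T → ∃ j < B N, ∃ i, (ω j i : ℕ) ∈ A N}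
  have hne : ∀ T, (F T).Nonempty := by
    intro T
    obtain ⟨ω, hω⟩ := hitting_fin R hR K ((Finset.Icc 2 T).filter (fun N => N ∈ S)) T
      (Finset.filter_subset _ _) A B (fun N hN => hw N (Finset.mem_filter.1 hN).2)
    refine ⟨ω, fun N hN hNT => hω N ?_⟩
    rw [Finset.mem_filter, Finset.mem_Icc]
    exact ⟨⟨hS N hN, hNT⟩, hN⟩
  have hcl1 : ∀ N, IsClosed {ω : ∀ j : ℕ, Fin (K j) → R j | ∃ j < B N, ∃ i, (ω j i : ℕ) ∈ A N} := by
    intro N
    have : {ω : ∀ j : ℕ, Fin (K j) → R j | ∃ j < B N, ∃ i, (ω j i : ℕ) ∈ A N} =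
        ⋃ j ∈ Finset.range (B N), ⋃ i : Fin (K j), {ω | (ω j i : ℕ) ∈ A N} := by
      ext ω; simp
    rw [this]
    apply isClosed_biUnion_finset
    intro j _
    apply isClosed_iUnion_of_finite
    intro i
    have hcont : Continuous (fun ω : (∀ j : ℕ, Fin (K j) → R j) => ω j i) :=
      (continuous_apply i).comp (continuous_apply j)
    exact (isClosed_discrete {m : R j | (m : ℕ) ∈ A N}).preimage hcont
  have hcl : ∀ T, IsClosed (F T) := by
    intro T
    have : F T = ⋂ N : ℕ, ⋂ (_ : N ∈ S), ⋂ (_ : N ≤ T),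
        {ω : ∀ j : ℕ, Fin (K j) → R j | ∃ j < B N, ∃ i, (ω j i : ℕ) ∈ A N} := by
      ext ω; simp [F]
    rw [this]
    exact isClosed_iInter fun N => isClosed_iInter fun _ => isClosed_iInter fun _ => hcl1 N
  obtain ⟨ω, hω⟩ := IsCompact.nonempty_iInter_of_sequence_nonempty_isCompact_isClosed F
    (fun T ω hω N hN hNT => hω N hN (hNT.trans (Nat.le_succ T))) hne (hcl 0).isCompact hcl
  rw [Set.mem_iInter] at hω
  refine ⟨fun j => Finset.univ.image (fun i => (ω j i : ℕ)), fun j => ⟨?_, ?_⟩, ?_⟩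
  · intro m hm
    rw [Finset.mem_image] at hm
    obtain ⟨i, _, rfl⟩ := hm
    exact (ω j i).2
  · exact Finset.card_image_le.trans (by simp)
  · intro N hN
    obtain ⟨j, _, i, hi⟩ := hω N N hN le_rfl
    exact ⟨j, (ω j i : ℕ), Finset.mem_inter.2 ⟨hi, Finset.mem_image.2 ⟨i, Finset.mem_univ _, rfl⟩⟩⟩

end Pool.Agent.PSQ
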