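import Pool.Agent.PSQ.Def
import Pool.Agent.Helper35.Primes
import Pool.Agent.Helper76.OB.MER

/-!
# PSQ module MER: Mertens type bounds

`Helper35.mertens_upper/lower`: `log n - 3 ≤ ∑_{p ≤ n} log p / p ≤ log n + 2`; the product
`∏ (1 - 1/p)⁻¹ ≤ C log y` is `Helper76.OB.mertens_product`.
-/

set_option autoImplicit false

namespace Pool.Agent.PSQ

open Finset Real

private lemma PP_eq (y : ℕ) : PP y = Pool.Agent.Helper35.prm 0 y := by
  ext p
  rw [mem_PP, Pool.Agent.Helper35.mem_prm]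
  constructor
  · rintro ⟨h1, h2⟩
    exact ⟨⟨h2.pos, h1⟩, h2⟩
  · rintro ⟨⟨_, h1⟩, h2⟩
    exact ⟨h1, h2⟩

private lemma PP_eq' (y : ℕ) : PP y = Pool.Agent.Helper76.OB.PR 1 y := by
  ext p
  rw [mem_PP, Pool.Agent.Helper76.OB.mem_PR]
  constructor
  · rintro ⟨h1, h2⟩
    exact ⟨⟨h2.one_lt, h1⟩, h2⟩
  · rintro ⟨⟨_, h1⟩, h2⟩
    exact ⟨h1, h2⟩

theorem sum_log_div_le (y : ℕ) (hy : 1 ≤ y) : ∑ p ∈ PP y, log p / p ≤ log y + 2 := by
  rw [PP_eq]
  exact Pool.Agent.Helper35.mertens_upper y hy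

theorem sum_log_div_ge (y : ℕ) (hy : 1 ≤ y) : log y - 3 ≤ ∑ p ∈ PP y, log p / p := by
  rw [PP_eq]
  exact Pool.Agent.Helper35.mertens_lower y hy

theorem sum_log_le (y : ℕ) : ∑ p ∈ PP y, log p ≤ log 4 * y := by
  rw [PP_eq]
  exact Pool.Agent.Helper35.theta_prm y

private lemma factor_bounds {z p : ℕ} (hp : p ∈ PP z) :
    0 < 1 - 1 / (p : ℝ) ∧ 1 - 1 / (p : ℝ) ≤ 1 := by
  have h := (mem_PP.1 hp).2
  have hp1 : (1 : ℝ) < p := by exact_mod_cast h.one_lt
  have h1 : 1 / (p : ℝ) < 1 := by rw [div_lt_one (by linarith)]; exact hp1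
  have h2 : 0 < 1 / (p : ℝ) := by positivity
  constructor <;> linarith

theorem V_pos (z : ℕ) : 0 < V z := by
  unfold V
  exact Finset.prod_pos fun p hp => (factor_bounds hp).1

theorem V_le_one (z : ℕ) : V z ≤ 1 := by
  unfold V
  exact Finset.prod_le_one (fun p hp => (factor_bounds hp).1.le) fun p hp => (factor_bounds hp).2

private lemma V_inv_le : ∃ C : ℝ, 0 < C ∧ ∀ z : ℕ, 2 ≤ z → (V z)⁻¹ ≤ C * log z := by
  obtain ⟨C, hC, h⟩ := Pool.Agent.Helper76.OB.mertens_product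
  refine ⟨C, hC, fun z hz => ?_⟩
  have := h z hz
  rw [← PP_eq', Finset.prod_inv_distrib] at this
  exact this

theorem sum_inv_le : ∃ C : ℝ, 0 ≤ C ∧ ∀ z : ℕ, 3 ≤ z → ∑ p ∈ PP z, 1 / (p : ℝ) ≤ log (log z) + C := by
  obtain ⟨C, hC, h⟩ := V_inv_le
  refine ⟨max (log C) 0, le_max_right _ _, fun z hz => ?_⟩
  have hl : 0 < log (z : ℝ) := log_pos (by exact_mod_cast (by omega : 1 < z))
  have h1 := h z (by omega)
  have h2 : log ((V z)⁻¹) ≤ log (C * log z) := log_le_log (inv_pos.2 (V_pos z)) h1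
  rw [log_mul hC.ne' hl.ne', log_inv] at h2
  have h3 : ∑ p ∈ PP z, 1 / (p : ℝ) ≤ - log (V z) := by
    unfold V
    rw [Real.log_prod (fun p hp => (factor_bounds hp).1.ne'), ← Finset.sum_neg_distrib]
    apply Finset.sum_le_sum
    intro p hp
    have := Real.log_le_sub_one_of_pos (factor_bounds hp).1
    linarith
  have h4 := le_max_left (log C) 0
  linarith

theorem V_ge : ∃ c : ℝ, 0 < c ∧ c ≤ 1 ∧ ∀ z : ℕ, 3 ≤ z → c / log z ≤ V z := by
  obtain ⟨C, hC, h⟩ := V_inv_le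
  refine ⟨min (1 / C) 1, lt_min (by positivity) one_pos, min_le_right _ _, fun z hz => ?_⟩
  have hl : 0 < log (z : ℝ) := log_pos (by exact_mod_cast (by omega : 1 < z))
  have h1 := h z (by omega)
  have hV := V_pos z
  have h2 : 1 / (C * log z) ≤ V z := by
    rw [div_le_iff₀ (by positivity)]
    calc (1 : ℝ) = V z * (V z)⁻¹ := (mul_inv_cancel₀ hV.ne').symm
      _ ≤ V z * (C * log z) := mul_le_mul_of_nonneg_left h1 hV.le
  refine le_trans ?_ h2
  rw [← div_div]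
  exact div_le_div_of_nonneg_right (min_le_left _ _) hl.le

/-- number of primes up to `y` -/
theorem card_PP_le : ∃ C : ℝ, 0 < C ∧ ∀ y : ℕ, 2 ≤ y → ((PP y).card : ℝ) ≤ C * y / log y := by
  refine ⟨2 + 2 * log 4, by positivity, fun y hy => ?_⟩
  have hy0 : (0 : ℝ) < y := by exact_mod_cast (by omega : 0 < y)
  have hl : 0 < log (y : ℝ) := log_pos (by exact_mod_cast (by omega : 1 < y))
  rw [le_div_iff₀ hl]
  have h1 : ((PP y).card : ℝ) * log y = ∑ p ∈ PP y, log y := by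
    rw [Finset.sum_const, nsmul_eq_mul]
  rw [h1, ← Finset.sum_filter_add_sum_filter_not (PP y) (fun p => p ≤ Nat.sqrt y)]
  have h2 : ∑ p ∈ (PP y).filter (fun p => p ≤ Nat.sqrt y), log (y : ℝ) ≤ 2 * y := by
    rw [Finset.sum_const, nsmul_eq_mul]
    have hc : ((PP y).filter (fun p => p ≤ Nat.sqrt y)).card ≤ Nat.sqrt y := by
      have : (PP y).filter (fun p => p ≤ Nat.sqrt y) ⊆ Finset.Ioc 0 (Nat.sqrt y) := by
        intro p hp
        rw [Finset.mem_filter, mem_PP] at hp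
        rw [Finset.mem_Ioc]
        exact ⟨hp.1.2.pos, hp.2⟩
      simpa using Finset.card_le_card this
    have hc' : (((PP y).filter (fun p => p ≤ Nat.sqrt y)).card : ℝ) ≤ √(y : ℝ) := by
      refine le_trans (by exact_mod_cast hc) Real.nat_sqrt_le_real_sqrt
    have hs : 0 < √(y : ℝ) := Real.sqrt_pos.2 hy0
    have hlog : log (y : ℝ) ≤ 2 * √(y : ℝ) := by
      have h3 : log (√(y : ℝ)) ≤ √(y : ℝ) - 1 := Real.log_le_sub_one_of_pos hs
      rw [Real.log_sqrt hy0.le] at h3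
      linarith
    calc (((PP y).filter (fun p => p ≤ Nat.sqrt y)).card : ℝ) * log y
        ≤ √(y : ℝ) * (2 * √(y : ℝ)) := mul_le_mul hc' hlog hl.le hs.le
      _ = 2 * (√(y : ℝ) * √(y : ℝ)) := by ring
      _ = 2 * y := by rw [Real.mul_self_sqrt hy0.le]
  have h3 : ∑ p ∈ (PP y).filter (fun p => ¬ p ≤ Nat.sqrt y), log (y : ℝ) ≤ 2 * (log 4 * y) := by
    calc ∑ p ∈ (PP y).filter (fun p => ¬ p ≤ Nat.sqrt y), log (y : ℝ)
        ≤ ∑ p ∈ (PP y).filter (fun p => ¬ p ≤ Nat.sqrt y), 2 * log p := by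
          apply Finset.sum_le_sum
          intro p hp
          rw [Finset.mem_filter, mem_PP, not_le] at hp
          have h4 : y < p * p := Nat.sqrt_lt.1 hp.2
          have hp0 : (0 : ℝ) < p := by exact_mod_cast hp.1.2.pos
          have h5 : (y : ℝ) ≤ p * p := by exact_mod_cast h4.le
          have h6 := Real.log_le_log hy0 h5
          rw [Real.log_mul hp0.ne' hp0.ne'] at h6
          linarith
      _ ≤ ∑ p ∈ PP y, 2 * log p := by
          apply Finset.sum_le_sum_of_subset_of_nonneg (Finset.filter_subset _ _)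
          intro p _ _
          have := Real.log_natCast_nonneg p
          linarith
      _ = 2 * ∑ p ∈ PP y, log p := by rw [Finset.mul_sum]
      _ ≤ 2 * (log 4 * y) := mul_le_mul_of_nonneg_left (sum_log_le y) (by norm_num)
  linarith

end Pool.Agent.PSQ
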