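import Pool.Agent.PSQ.Sel

/-!
# PSQ module RJ: the sets of rough numbers in dyadic blocks

`RR A j = {m ∈ [2^j, 2^(j+1)) : zeta A j - rough}`, `zeta A j = ⌊exp (j / (4 A log (j+2)))⌋`.

* `RR_nonempty`: `j = 0`: `1`; `j ≥ 1`: a prime `2^j < p < 2^(j+1)` (Bertrand,
  `Nat.exists_prime_lt_and_le_two_mul`; `p ≠ 2^(j+1)`), and `zeta A j ≤ exp (j/2) < 2^j < p`
  (for `A ≥ 1`, `j ≥ 1`: `4 log (j+2) ≥ 4 log 3 > 2`, `e^(1/2) < 2`).
* `card_RR_le`: `rough_short` with `a = 2^j - 1`, `L = 2^j`, `R = zeta A j ≥ 1`: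
  `2 · 2^j / log (zeta + 1) + zeta^4`, `log (zeta + 1) ≥ j / (4 A log (j+2))`,
  `zeta^4 ≤ exp (j / (A log (j+2))) ≤ 2^(j/2)` (`A ≥ 100`).  For `j = 0` trivial.
* `omega_le`: every prime factor of `m ∈ RR A j` is `≥ zeta + 1 ≥ exp (u)`, `u = j/(4A log(j+2))`,
  so `exp (u Ω(m)) ≤ m < 2^(j+1)`, `Ω(m) ≤ (j+1) log 2 / u ≤ C log (j+2)`; for `j = 0`, `m = 1`,
  `Ω = 0`.
-/

set_option autoImplicit false

namespace Pool.Agent.PSQ

open Finset Real

/-- the exponent -/
private noncomputable def uu (A : ℝ) (j : ℕ) : ℝ := j / (4 * A * Real.log (j + 2))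

private lemma log_two_half : (1 / 2 : ℝ) < Real.log 2 := by
  have := Real.log_two_gt_d9
  linarith

private lemma log_add_two_half (j : ℕ) : (1 / 2 : ℝ) < Real.log ((j : ℝ) + 2) := by
  refine log_two_half.trans_le (Real.log_le_log (by norm_num) ?_)
  have : (0 : ℝ) ≤ j := Nat.cast_nonneg j
  linarith

private lemma uu_nonneg {A : ℝ} (hA : 100 ≤ A) (j : ℕ) : 0 ≤ uu A j := by
  have := log_add_two_half j
  unfold uu
  positivity

private lemma uu_le {A : ℝ} (hA : 100 ≤ A) (j : ℕ) : uu A j ≤ j / 200 := by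
  have h := log_add_two_half j
  unfold uu
  refine div_le_div_of_nonneg_left (Nat.cast_nonneg j) (by norm_num) ?_
  nlinarith

private lemma exp_uu_lt {A : ℝ} (j : ℕ) : Real.exp (uu A j) < (zeta A j : ℝ) + 1 := by
  unfold zeta uu
  exact Nat.lt_floor_add_one _

private lemma zeta_le {A : ℝ} (j : ℕ) : (zeta A j : ℝ) ≤ Real.exp (uu A j) := by
  unfold zeta uu
  exact Nat.floor_le (Real.exp_pos _).le

private lemma one_le_zeta {A : ℝ} (hA : 100 ≤ A) (j : ℕ) : 1 ≤ zeta A j := by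
  unfold zeta
  rw [Nat.one_le_floor_iff]
  exact Real.one_le_exp (uu_nonneg hA j)

private lemma uu_le_log {A : ℝ} (hA : 100 ≤ A) (j : ℕ) : uu A j ≤ Real.log ((zeta A j : ℝ) + 1) := by
  rw [Real.le_log_iff_exp_le (by positivity)]
  exact (exp_uu_lt j).le

/-- inverting the exponent -/
private lemma inv_uu {A : ℝ} (hA : 100 ≤ A) {j : ℕ} (hj : 1 ≤ j) :
    0 < uu A j ∧ 1 / uu A j = 4 * A * Real.log (j + 2) / j := by
  have h := log_add_two_half j
  have hj0 : (0 : ℝ) < j := by exact_mod_cast hj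
  refine ⟨?_, ?_⟩
  · unfold uu
    positivity
  · unfold uu
    rw [one_div_div]

private lemma mem_RR {A : ℝ} {j m : ℕ} :
    m ∈ RR A j ↔ (2 ^ j ≤ m ∧ m < 2 ^ (j + 1)) ∧ Rough (zeta A j) m := by
  unfold RR
  rw [mem_filter, mem_Ico]

theorem RR_nonempty (A : ℝ) (hA : 100 ≤ A) (j : ℕ) : (RR A j).Nonempty := by
  rcases Nat.eq_zero_or_pos j with rfl | hj
  · refine ⟨1, mem_RR.2 ⟨by norm_num, ?_⟩⟩
    intro p hp hp1
    exact absurd hp1 (by rw [Nat.dvd_one]; exact hp.one_lt.ne')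
  · obtain ⟨p, hp, hp1, hp2⟩ := Nat.exists_prime_lt_and_le_two_mul (2 ^ j) (by positivity)
    have hp3 : p ≤ 2 ^ (j + 1) := by rw [pow_succ]; linarith
    have hne : p ≠ 2 ^ (j + 1) := by
      rintro rfl
      exact (Nat.Prime.not_prime_pow (by omega : 2 ≤ j + 1)) hp
    refine ⟨p, mem_RR.2 ⟨⟨hp1.le, lt_of_le_of_ne hp3 hne⟩, ?_⟩⟩
    intro q hq hqp
    rw [(Nat.prime_dvd_prime_iff_eq hq hp).1 hqp]
    have h1 : (zeta A j : ℝ) < 2 ^ j := by
      calc (zeta A j : ℝ) ≤ Real.exp (uu A j) := zeta_le j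
        _ ≤ Real.exp (j / 200) := Real.exp_le_exp.2 (uu_le hA j)
        _ < Real.exp (j * Real.log 2) := by
            apply Real.exp_lt_exp.2
            have hj0 : (0 : ℝ) < j := by exact_mod_cast hj
            have := log_two_half
            nlinarith
        _ = 2 ^ j := by
            rw [mul_comm, Real.exp_mul, Real.exp_log (by norm_num), Real.rpow_natCast]
    have h2 : zeta A j < 2 ^ j := by exact_mod_cast h1
    exact h2.trans hp1

theorem card_RR_le (A : ℝ) (hA : 100 ≤ A) : ∃ C : ℝ, 0 < C ∧ ∀ j : ℕ,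
    ((RR A j).card : ℝ) ≤ C * 2 ^ j * log (j + 2) / (j + 1) := by
  refine ⟨16 * A + 4, by linarith, fun j => ?_⟩
  have hl := log_add_two_half j
  rcases Nat.eq_zero_or_pos j with rfl | hj
  · have h1 : (RR A 0).card ≤ 1 := by
      unfold RR
      refine (Finset.card_filter_le _ _).trans ?_
      simp
    have h1' : ((RR A 0).card : ℝ) ≤ 1 := by exact_mod_cast h1
    refine h1'.trans ?_
    simp only [Nat.cast_zero, pow_zero, mul_one, zero_add, div_one]
    simp only [Nat.cast_zero, zero_add] at hl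
    nlinarith
  · have hj0 : (0 : ℝ) < j := by exact_mod_cast hj
    have hj1 : (1 : ℝ) ≤ j := by exact_mod_cast hj
    have h2j : (0 : ℝ) < 2 ^ j := by positivity
    have hsub : RR A j = (Finset.Ioc (2 ^ j - 1) (2 ^ j - 1 + 2 ^ j)).filter
        (fun n => Rough (zeta A j) n) := by
      ext m
      have h2 : 1 ≤ 2 ^ j := Nat.one_le_two_pow
      rw [mem_RR, mem_filter, mem_Ioc, pow_succ]
      constructor
      · rintro ⟨⟨h3, h4⟩, h5⟩
        exact ⟨⟨by omega, by omega⟩, h5⟩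
      · rintro ⟨⟨h3, h4⟩, h5⟩
        exact ⟨⟨by omega, by omega⟩, h5⟩
    have h1 := rough_short (2 ^ j - 1) (2 ^ j) (zeta A j) (one_le_zeta hA j)
    rw [← hsub] at h1
    refine h1.trans ?_
    push_cast
    obtain ⟨hu, hu1⟩ := inv_uu hA hj
    have h3 : 2 * 2 ^ j / Real.log ((zeta A j : ℝ) + 1) ≤
        16 * A * 2 ^ j * Real.log (j + 2) / (j + 1) := by
      calc 2 * 2 ^ j / Real.log ((zeta A j : ℝ) + 1) ≤ 2 * 2 ^ j / uu A j :=
            div_le_div_of_nonneg_left (by positivity) hu (uu_le_log hA j)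
        _ = 2 * 2 ^ j * (1 / uu A j) := by ring
        _ = (8 * A * 2 ^ j * Real.log (j + 2)) / j := by rw [hu1]; ring
        _ ≤ _ := by
            rw [div_le_div_iff₀ hj0 (by linarith)]
            have : 0 ≤ 8 * A * 2 ^ j * Real.log (j + 2) := by positivity
            nlinarith
    have h4 : (zeta A j : ℝ) ^ 4 ≤ 4 * 2 ^ j * Real.log (j + 2) / (j + 1) := by
      rw [le_div_iff₀ (by linarith)]
      have h5 : (zeta A j : ℝ) ^ 4 ≤ Real.exp (j / 50) := by
        calc (zeta A j : ℝ) ^ 4 ≤ Real.exp (uu A j) ^ 4 :=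
              pow_le_pow_left₀ (Nat.cast_nonneg _) (zeta_le j) 4
          _ = Real.exp (4 * uu A j) := by rw [← Real.exp_nat_mul]; norm_num
          _ ≤ _ := Real.exp_le_exp.2 (by have := uu_le hA j; linarith)
      have h6 : (j : ℝ) + 1 ≤ 2 * Real.exp (j / 2) := by
        have := Real.add_one_le_exp ((j : ℝ) / 2)
        linarith
      have h7 : Real.exp (j / 50) * Real.exp (j / 2) ≤ 2 ^ j := by
        rw [← Real.exp_add]
        calc Real.exp ((j : ℝ) / 50 + j / 2) ≤ Real.exp (j * Real.log 2) := by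
              apply Real.exp_le_exp.2
              have := Real.log_two_gt_d9
              nlinarith
          _ = 2 ^ j := by
              rw [mul_comm, Real.exp_mul, Real.exp_log (by norm_num), Real.rpow_natCast]
      calc (zeta A j : ℝ) ^ 4 * (j + 1) ≤ Real.exp (j / 50) * (2 * Real.exp (j / 2)) :=
            mul_le_mul h5 h6 (by linarith) (Real.exp_pos _).le
        _ = 2 * (Real.exp (j / 50) * Real.exp (j / 2)) := by ring
        _ ≤ 2 * 2 ^ j := by linarith
        _ ≤ 4 * 2 ^ j * Real.log (j + 2) := by nlinarith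
    calc 2 * 2 ^ j / Real.log ((zeta A j : ℝ) + 1) + (zeta A j : ℝ) ^ 4
        ≤ 16 * A * 2 ^ j * Real.log (j + 2) / (j + 1) + 4 * 2 ^ j * Real.log (j + 2) / (j + 1) :=
          add_le_add h3 h4
      _ = _ := by ring

theorem omega_le (A : ℝ) (hA : 100 ≤ A) : ∃ C : ℝ, 0 < C ∧ ∀ j : ℕ, ∀ m ∈ RR A j,
    (ArithmeticFunction.cardFactors m : ℝ) ≤ C * log (j + 2) := by
  refine ⟨8 * A, by linarith, fun j m hm => ?_⟩
  have hl := log_add_two_half j
  obtain ⟨⟨hm1, hm2⟩, hr⟩ := mem_RR.1 hm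
  rcases Nat.eq_zero_or_pos j with rfl | hj
  · have : m = 1 := by
      simp at hm1 hm2
      omega
    subst this
    rw [ArithmeticFunction.cardFactors_one]
    simp only [Nat.cast_zero, zero_add] at hl ⊢
    positivity
  · have hj0 : (0 : ℝ) < j := by exact_mod_cast hj
    have hj1 : (1 : ℝ) ≤ j := by exact_mod_cast hj
    obtain ⟨hu, hu1⟩ := inv_uu hA hj
    have hm0 : m ≠ 0 := by
      have : 0 < 2 ^ j := by positivity
      omega
    have h1 : (zeta A j + 1) ^ (ArithmeticFunction.cardFactors m) ≤ m := by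
      have h2 : (zeta A j + 1) ^ m.primeFactorsList.length ≤ m.primeFactorsList.prod := by
        apply List.pow_card_le_prod
        intro p hp
        exact hr p (Nat.prime_of_mem_primeFactorsList hp) (Nat.dvd_of_mem_primeFactorsList hp)
      rw [Nat.prod_primeFactorsList hm0] at h2
      rwa [ArithmeticFunction.cardFactors_apply]
    have h3 : ((zeta A j : ℝ) + 1) ^ (ArithmeticFunction.cardFactors m) ≤ 2 ^ (j + 1) := by
      have : (zeta A j + 1) ^ (ArithmeticFunction.cardFactors m) ≤ 2 ^ (j + 1) := h1.trans hm2.le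
      exact_mod_cast this
    have h4 : (ArithmeticFunction.cardFactors m : ℝ) * Real.log ((zeta A j : ℝ) + 1) ≤
        (j + 1) * Real.log 2 := by
      have h5 := Real.log_le_log (by positivity) h3
      rw [Real.log_pow, Real.log_pow] at h5
      push_cast at h5
      exact h5
    have h6 : (ArithmeticFunction.cardFactors m : ℝ) * uu A j ≤ (j + 1) * Real.log 2 :=
      (mul_le_mul_of_nonneg_left (uu_le_log hA j) (Nat.cast_nonneg _)).trans h4
    have hlog2 : Real.log 2 ≤ 1 := by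
      have := Real.log_two_lt_d9
      linarith
    calc (ArithmeticFunction.cardFactors m : ℝ)
        = (ArithmeticFunction.cardFactors m : ℝ) * uu A j * (1 / uu A j) := by
          field_simp
      _ ≤ (j + 1) * Real.log 2 * (1 / uu A j) :=
          mul_le_mul_of_nonneg_right h6 (by positivity)
      _ = (j + 1) * Real.log 2 * (4 * A * Real.log (j + 2)) / j := by rw [hu1]; ring
      _ ≤ 8 * A * Real.log (j + 2) := by
          rw [div_le_iff₀ hj0]
          have h7 : 0 ≤ 4 * A * Real.log (j + 2) := by positivity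
          have h8 : ((j : ℝ) + 1) * Real.log 2 ≤ 2 * j := by nlinarith
          nlinarith

/-- a prime `p ≤ y` dividing an element of `RR A j` forces `j` to be small -/
theorem j_le_of_dvd (A : ℝ) (hA : 100 ≤ A) : ∃ C : ℝ, 0 < C ∧ ∀ j : ℕ, ∀ m ∈ RR A j,
    ∀ p : ℕ, p.Prime → p ∣ m → (j : ℝ) ≤ C * log p ^ (12 / 11 : ℝ) := by
  refine ⟨(144 * A) ^ (12 / 11 : ℝ), by positivity, fun j m hm p hp hpm => ?_⟩
  obtain ⟨⟨hm1, hm2⟩, hr⟩ := mem_RR.1 hm
  have hlp : 0 ≤ Real.log p := Real.log_nonneg (by exact_mod_cast hp.one_lt.le)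
  rcases Nat.eq_zero_or_pos j with rfl | hj
  · rw [Nat.cast_zero]
    positivity
  have hl := log_add_two_half j
  have hj0 : (0 : ℝ) < j := by exact_mod_cast hj
  have hj1 : (1 : ℝ) ≤ j := by exact_mod_cast hj
  have h1 : zeta A j < p := hr p hp hpm
  have h2 : uu A j ≤ Real.log p := by
    refine (uu_le_log hA j).trans (Real.log_le_log (by positivity) ?_)
    exact_mod_cast h1
  have h3 : Real.log ((j : ℝ) + 2) ≤ 36 * (j : ℝ) ^ (1 / 12 : ℝ) := by
    have h4 := Real.log_le_rpow_div (x := (j : ℝ) + 2) (ε := 1 / 12) (by linarith) (by norm_num)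
    have h5 : ((j : ℝ) + 2) ^ (1 / 12 : ℝ) ≤ 3 * (j : ℝ) ^ (1 / 12 : ℝ) := by
      calc ((j : ℝ) + 2) ^ (1 / 12 : ℝ) ≤ (3 * (j : ℝ)) ^ (1 / 12 : ℝ) :=
            Real.rpow_le_rpow (by linarith) (by linarith) (by norm_num)
        _ = 3 ^ (1 / 12 : ℝ) * (j : ℝ) ^ (1 / 12 : ℝ) := Real.mul_rpow (by norm_num) hj0.le
        _ ≤ 3 * (j : ℝ) ^ (1 / 12 : ℝ) := by
            refine mul_le_mul_of_nonneg_right ?_ (by positivity)
            calc (3 : ℝ) ^ (1 / 12 : ℝ) ≤ 3 ^ (1 : ℝ) :=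
                  Real.rpow_le_rpow_of_exponent_le (by norm_num) (by norm_num)
              _ = 3 := Real.rpow_one 3
    calc Real.log ((j : ℝ) + 2) ≤ ((j : ℝ) + 2) ^ (1 / 12 : ℝ) / (1 / 12) := h4
      _ = 12 * ((j : ℝ) + 2) ^ (1 / 12 : ℝ) := by ring
      _ ≤ 12 * (3 * (j : ℝ) ^ (1 / 12 : ℝ)) := by linarith
      _ = _ := by ring
  have h6 : (j : ℝ) ^ (11 / 12 : ℝ) ≤ 144 * A * Real.log p := by
    have h7 : (j : ℝ) ≤ Real.log p * (4 * A * Real.log (j + 2)) := by
      have h8 := h2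
      unfold uu at h8
      rwa [div_le_iff₀ (by positivity)] at h8
    have h9 : (j : ℝ) ≤ (144 * A * Real.log p) * (j : ℝ) ^ (1 / 12 : ℝ) := by
      calc (j : ℝ) ≤ Real.log p * (4 * A * Real.log (j + 2)) := h7
        _ ≤ Real.log p * (4 * A * (36 * (j : ℝ) ^ (1 / 12 : ℝ))) := by gcongr
        _ = _ := by ring
    have h10 : (j : ℝ) ^ (11 / 12 : ℝ) * (j : ℝ) ^ (1 / 12 : ℝ) = j := by
      rw [← Real.rpow_add hj0]
      norm_num
    have h11 : (0 : ℝ) < (j : ℝ) ^ (1 / 12 : ℝ) := by positivity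
    refine le_of_mul_le_mul_right ?_ h11
    rw [h10]
    exact h9
  calc (j : ℝ) = ((j : ℝ) ^ (11 / 12 : ℝ)) ^ (12 / 11 : ℝ) := by
        rw [← Real.rpow_mul hj0.le]
        norm_num
    _ ≤ (144 * A * Real.log p) ^ (12 / 11 : ℝ) :=
        Real.rpow_le_rpow (by positivity) h6 (by norm_num)
    _ = _ := Real.mul_rpow (by positivity) hlp

end Pool.Agent.PSQ
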