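import Pool.Agent.PSQ.Def
import Pool.Agent.Helper4.ST.Selberg

/-!
# PSQ module SEL: Selberg's upper bound for rough numbers in short intervals

`Selberg.wt R n = (∑_{e ∣ n, e ≤ R} λ_e)² ≥ 0` equals `1` when `n` has no prime factor `≤ R`
(then `e = 1` is the only divisor `≤ R`; compare `Selberg.wt_prime`).
`∑_{a < n ≤ a + L} wt R n = ∑_{d,e ≤ R} λ_d λ_e #{n : lcm(d,e) ∣ n}
  ≤ L ∑ λ_d λ_e / lcm(d,e) + ∑ |λ_d λ_e| ≤ L / L_R + R⁴` (`Selberg.form_eq`,
`Selberg.abs_sum_lam`, compare `Selberg.sum_wt_le`), and `L_R ≥ log (R+1) / 2` (`Selberg.L_ge`).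

`cnt_le_short`: `n ∈ J N`, `p ∣ n`: `n = p b` with `N / p < b ≤ (N + √N) / p`, and the number of
such integers `b` is `(N + √N)/p - N/p ≤ √N/p + 1`.
-/

set_option autoImplicit false

namespace Pool.Agent.PSQ

open Finset Real


/-- the weight is `1` at rough numbers -/
private lemma wt_rough {R n : ℕ} (hR : 1 ≤ R) (h : Rough R n) :
    Helper4.ST.Selberg.wt R n = 1 := by
  unfold Helper4.ST.Selberg.wt
  have h1 : (Icc 1 R).filter (fun e => e ∣ n) = {1} := by
    ext e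
    simp only [Finset.mem_filter, Finset.mem_Icc, Finset.mem_singleton]
    constructor
    · rintro ⟨⟨h1, h2⟩, h3⟩
      by_contra hne
      have h4 := Nat.minFac_prime hne
      have h5 := h _ h4 ((Nat.minFac_dvd e).trans h3)
      have h6 := Nat.minFac_le (show 0 < e by omega)
      omega
    · rintro rfl
      exact ⟨⟨le_rfl, hR⟩, one_dvd _⟩
  rw [h1, Finset.sum_singleton, Helper4.ST.Selberg.lam_one hR]
  norm_num

/-- multiples in an interval -/
private lemma card_dvd (a L l : ℕ) :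
    ((Finset.Ioc a (a + L)).filter (fun n => l ∣ n)).card = (a + L) / l - a / l := by
  have h1 := Nat.Ioc_filter_dvd_card_eq_div (a + L) l
  have h2 := Nat.Ioc_filter_dvd_card_eq_div a l
  have h3 : Finset.Ioc 0 (a + L) = Finset.Ioc 0 a ∪ Finset.Ioc a (a + L) :=
    (Finset.Ioc_union_Ioc_eq_Ioc (Nat.zero_le a) (Nat.le_add_right a L)).symm
  have h4 : Disjoint ((Finset.Ioc 0 a).filter (fun n => l ∣ n))
      ((Finset.Ioc a (a + L)).filter (fun n => l ∣ n)) := by
    rw [Finset.disjoint_left]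
    intro x hx hx'
    rw [Finset.mem_filter, Finset.mem_Ioc] at hx hx'
    omega
  rw [h3, Finset.filter_union, Finset.card_union_of_disjoint h4, h2] at h1
  omega

private lemma div_diff {a L l : ℕ} (hl : 0 < l) :
    |((((a + L) / l - a / l : ℕ) : ℝ)) - (L : ℝ) / l| ≤ 1 := by
  have hl' : (0 : ℝ) < l := by exact_mod_cast hl
  have hle : a / l ≤ (a + L) / l := Nat.div_le_div_right (Nat.le_add_right a L)
  rw [Nat.cast_sub hle]
  have h1 : (((a + L) / l : ℕ) : ℝ) ≤ ((a : ℝ) + L) / l := by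
    have := @Nat.cast_div_le ℝ _ _ _ (a + L) l
    push_cast at this
    exact this
  have h2 : ((a : ℝ) + L) / l < (((a + L) / l : ℕ) : ℝ) + 1 := by
    rw [div_lt_iff₀ hl']
    have h6 := Nat.lt_div_mul_add hl (a := a + L)
    have h7 : ((a : ℝ) + L) < ((a + L) / l : ℕ) * (l : ℝ) + l := by exact_mod_cast h6
    linarith
  have h3 : ((a / l : ℕ) : ℝ) ≤ (a : ℝ) / l := Nat.cast_div_le
  have h4 : (a : ℝ) / l < ((a / l : ℕ) : ℝ) + 1 := by
    rw [div_lt_iff₀ hl']
    have h6 := Nat.lt_div_mul_add hl (a := a)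
    have h7 : (a : ℝ) < (a / l : ℕ) * (l : ℝ) + l := by exact_mod_cast h6
    linarith
  have h5 : ((a : ℝ) + L) / l = (a : ℝ) / l + (L : ℝ) / l := by ring
  rw [abs_le]
  constructor <;> linarith

open Helper4.ST.Selberg in
theorem rough_short (a L R : ℕ) (hR : 1 ≤ R) :
    (((Finset.Ioc a (a + L)).filter (fun n => Rough R n)).card : ℝ) ≤
      2 * L / log (R + 1) + (R : ℝ) ^ 4 := by
  set Len : ℝ := (L : ℝ) with hLen
  -- the weights
  have h0 : (((Finset.Ioc a (a + L)).filter (fun n => Rough R n)).card : ℝ) ≤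
      ∑ n ∈ Finset.Ioc a (a + L), wt R n := by
    rw [Finset.card_filter, Nat.cast_sum]
    refine Finset.sum_le_sum fun n _ => ?_
    split_ifs with h
    · rw [wt_rough hR h]
      simp
    · simpa using wt_nonneg R n
  have h1 : ∑ n ∈ Finset.Ioc a (a + L), wt R n = ∑ x ∈ Icc 1 R, ∑ y ∈ Icc 1 R,
      lam R x * lam R y * (((a + L) / Nat.lcm x y - a / Nat.lcm x y : ℕ) : ℝ) := by
    rw [Finset.sum_congr rfl fun n _ => wt_expand R n, Finset.sum_comm]
    refine Finset.sum_congr rfl fun x hx => ?_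
    rw [Finset.sum_comm]
    refine Finset.sum_congr rfl fun y hy => ?_
    rw [← Finset.sum_filter, Finset.sum_const, nsmul_eq_mul, mul_comm, card_dvd]
  have h2 : ∀ x ∈ Icc 1 R, ∀ y ∈ Icc 1 R,
      lam R x * lam R y * (((a + L) / Nat.lcm x y - a / Nat.lcm x y : ℕ) : ℝ) ≤
      Len * (lam R x * lam R y / (Nat.lcm x y : ℝ)) + |lam R x * lam R y| := by
    intro x hx y hy
    have hl : 0 < Nat.lcm x y := Nat.lcm_pos (Finset.mem_Icc.1 hx).1 (Finset.mem_Icc.1 hy).1
    have h3 := div_diff (a := a) (L := L) hl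
    have h4 : lam R x * lam R y * ((((a + L) / Nat.lcm x y - a / Nat.lcm x y : ℕ) : ℝ) -
        Len / (Nat.lcm x y : ℝ)) ≤ |lam R x * lam R y| := by
      refine (le_abs_self _).trans ?_
      rw [abs_mul]
      calc |lam R x * lam R y| * |(((a + L) / Nat.lcm x y - a / Nat.lcm x y : ℕ) : ℝ) -
            Len / (Nat.lcm x y : ℝ)| ≤ |lam R x * lam R y| * 1 := by gcongr
        _ = _ := mul_one _
    have h5 : Len * (lam R x * lam R y / (Nat.lcm x y : ℝ)) =
        lam R x * lam R y * (Len / (Nat.lcm x y : ℝ)) := by ring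
    rw [h5]
    linarith
  have h3 : ∑ n ∈ Finset.Ioc a (a + L), wt R n ≤
      Len * (Helper4.ST.Selberg.L R)⁻¹ + (R : ℝ) ^ 4 := by
    rw [h1]
    calc _ ≤ ∑ x ∈ Icc 1 R, ∑ y ∈ Icc 1 R, (Len * (lam R x * lam R y / (Nat.lcm x y : ℝ)) +
          |lam R x * lam R y|) :=
          Finset.sum_le_sum fun x hx => Finset.sum_le_sum fun y hy => h2 x hx y hy
      _ = Len * (∑ x ∈ Icc 1 R, ∑ y ∈ Icc 1 R, lam R x * lam R y / (Nat.lcm x y : ℝ)) +
          ∑ x ∈ Icc 1 R, ∑ y ∈ Icc 1 R, |lam R x * lam R y| := by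
          simp only [Finset.sum_add_distrib, Finset.mul_sum]
      _ ≤ _ := by
          rw [form_eq hR]
          gcongr
          exact abs_sum_lam hR
  have hR' : (1 : ℝ) ≤ R := by exact_mod_cast hR
  have hlog : 0 < Real.log ((R : ℝ) + 1) := Real.log_pos (by linarith)
  have hL := L_ge R
  have hLpos := L_pos hR
  have h4 : Len * (Helper4.ST.Selberg.L R)⁻¹ ≤ 2 * Len / log (R + 1) := by
    rw [← div_eq_mul_inv, div_le_div_iff₀ hLpos hlog]
    have hLen0 : 0 ≤ Len := Nat.cast_nonneg _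
    nlinarith
  linarith

/-- the cofactors of the multiples of `p` in `J N` -/
private lemma cnt_aux (N z p R : ℕ) (hRz : R ≤ z) (hp : 1 ≤ p) :
    cnt N z p ≤ ((Finset.Ioc (N / p) (N / p + ((N + Nat.sqrt N) / p - N / p))).filter
      (fun n => Rough R n)).card := by
  unfold cnt
  refine Finset.card_le_card_of_injOn (fun n => n / p) ?_ ?_
  · intro n hn
    rw [Finset.mem_coe, Finset.mem_filter] at hn
    obtain ⟨hn1, ⟨b, rfl⟩, hn3⟩ := hn
    rw [J, Finset.mem_Ioo] at hn1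
    rw [Finset.mem_coe, Finset.mem_filter, Finset.mem_Ioc]
    have e : p * b / p = b := Nat.mul_div_cancel_left b (by omega)
    simp only [e]
    have hle : N / p ≤ (N + Nat.sqrt N) / p := Nat.div_le_div_right (Nat.le_add_right _ _)
    refine ⟨⟨?_, ?_⟩, ?_⟩
    · rw [Nat.div_lt_iff_lt_mul (by omega)]
      rw [mul_comm b p]
      exact hn1.1
    · rw [Nat.add_sub_cancel' hle, Nat.le_div_iff_mul_le (by omega), mul_comm b p]
      exact hn1.2.le
    · intro q hq hqb
      exact lt_of_le_of_lt hRz (hn3 q hq (hqb.trans (dvd_mul_left b p)))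
  · intro n hn m hm h
    rw [Finset.mem_coe, Finset.mem_filter] at hn hm
    obtain ⟨-, ⟨b, rfl⟩, -⟩ := hn
    obtain ⟨-, ⟨c, rfl⟩, -⟩ := hm
    simp only [Nat.mul_div_cancel_left _ (show 0 < p by omega)] at h
    rw [h]

private lemma len_le (N p : ℕ) (hp : 1 ≤ p) :
    (((N + Nat.sqrt N) / p - N / p : ℕ) : ℝ) ≤ (Nat.sqrt N : ℝ) / p + 1 := by
  have := (abs_le.1 (div_diff (a := N) (L := Nat.sqrt N) (l := p) (by omega))).2
  linarith

theorem cnt_le_short (N z p R : ℕ) (hR : 1 ≤ R) (hRz : R ≤ z) (hp : 1 ≤ p) :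
    (cnt N z p : ℝ) ≤ 2 * ((Nat.sqrt N : ℝ) / p + 1) / log (R + 1) + (R : ℝ) ^ 4 := by
  have h1 : (cnt N z p : ℝ) ≤ (((Finset.Ioc (N / p)
      (N / p + ((N + Nat.sqrt N) / p - N / p))).filter (fun n => Rough R n)).card : ℝ) := by
    exact_mod_cast cnt_aux N z p R hRz hp
  have h2 := rough_short (N / p) ((N + Nat.sqrt N) / p - N / p) R hR
  have h3 := len_le N p hp
  have hR' : (1 : ℝ) ≤ R := by exact_mod_cast hR
  have hlog : 0 < Real.log ((R : ℝ) + 1) := Real.log_pos (by linarith)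
  have h4 : 2 * (((N + Nat.sqrt N) / p - N / p : ℕ) : ℝ) / log (R + 1) ≤
      2 * ((Nat.sqrt N : ℝ) / p + 1) / log (R + 1) :=
    div_le_div_of_nonneg_right (by linarith) hlog.le
  linarith

/-- trivial bound -/
theorem cnt_le_triv (N z p : ℕ) (hp : 1 ≤ p) : (cnt N z p : ℝ) ≤ (Nat.sqrt N : ℝ) / p + 1 := by
  have h1 := cnt_aux N z p 0 (Nat.zero_le z) hp
  have h2 := (h1.trans (Finset.card_filter_le _ _))
  rw [Nat.card_Ioc, Nat.add_sub_cancel_left] at h2
  have h3 := len_le N p hp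
  have h4 : (cnt N z p : ℝ) ≤ (((N + Nat.sqrt N) / p - N / p : ℕ) : ℝ) := by exact_mod_cast h2
  linarith

end Pool.Agent.PSQ
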