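import Pool.Agent.PSQ.Def
import Pool.Agent.Helper27.IS.Brun

/-!
# PSQ module BRU: Brun's pure sieve in the interval `J N`

Bonferroni (`Helper27.IS.bonf` with `x p = 1` if `p ∣ n`, else `0`): for `r` even
`1[n rough] ≤ ∑_{j ≤ r} (-1)^j #{D ⊆ PP z : |D| = j, ∏ D ∣ n}`, for `r` odd `≥`.
Sum over `n ∈ J N`, `c ∣ n`: `#{n ∈ J N : c ∏ D ∣ n} = √N / (c ∏ D) + O(2)` (here `c` is coprime to
`∏ D` because `c` is `z`-rough), the number of `D` with `|D| ≤ r` is at most `(1 + π(z))^r ≤ (z+1)^r`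
and `∑_{j ≤ r} (-1)^j esy_j(1/p) ≤ V z + esy_{r+1}(1/p)` (again `bonf`), `esy_k ≤ S^k / k!`.
-/

set_option autoImplicit false

namespace Pool.Agent.PSQ

open Finset Real

open Pool.Agent.Helper27.IS (esy alt esy_insert esy_nonneg bonf esy_zero esy_empty_succ)

/-- multiples of `d` in `J N` -/
theorem mult_J (N d : ℕ) (hd : 1 ≤ d) :
    |(((J N).filter (fun n => d ∣ n)).card : ℝ) - (Nat.sqrt N : ℝ) / d| ≤ 2 := by
  have hd0 : (0 : ℝ) < d := by exact_mod_cast hd
  have hd1 : (1 : ℝ) / d ≤ 1 := by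
    rw [div_le_one hd0]; exact_mod_cast hd
  have hd2 : (0 : ℝ) ≤ 1 / d := by positivity
  rcases Nat.eq_zero_or_pos (Nat.sqrt N) with hs | hs
  · have : J N = ∅ := by
      unfold J; rw [hs]; simp
    rw [this, hs]; simp
  · obtain ⟨s, hs'⟩ : ∃ s, Nat.sqrt N = s + 1 := ⟨Nat.sqrt N - 1, by omega⟩
    have h1 : (J N).filter (fun n => d ∣ n) =
        ((Ioc 0 (N + s)).filter (fun n => d ∣ n)) \ ((Ioc 0 N).filter (fun n => d ∣ n)) := by
      ext n
      unfold J
      rw [hs']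
      simp only [mem_filter, mem_Ioo, mem_sdiff, mem_Ioc]
      constructor
      · rintro ⟨⟨h2, h3⟩, h4⟩
        refine ⟨⟨⟨by omega, by omega⟩, h4⟩, ?_⟩
        rintro ⟨⟨_, h5⟩, _⟩
        omega
      · rintro ⟨⟨⟨h2, h3⟩, h4⟩, h5⟩
        refine ⟨⟨?_, by omega⟩, h4⟩
        by_contra h6
        exact h5 ⟨⟨h2, by omega⟩, h4⟩
    have h2 : ((J N).filter (fun n => d ∣ n)).card = (N + s) / d - N / d := by
      rw [h1, card_sdiff_of_subset, Nat.Ioc_filter_dvd_card_eq_div, Nat.Ioc_filter_dvd_card_eq_div]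
      intro n hn
      simp only [mem_filter, mem_Ioc] at hn ⊢
      omega
    have h3 : N / d ≤ (N + s) / d := Nat.div_le_div_right (by omega)
    rw [h2, Nat.cast_sub h3, hs']
    have a1 : ((N / d : ℕ) : ℝ) ≤ (N : ℝ) / d := Nat.cast_div_le
    have a2 : (N : ℝ) / d < ((N / d : ℕ) : ℝ) + 1 := by
      have := Nat.lt_floor_add_one ((N : ℝ) / d)
      rwa [Nat.floor_div_eq_div] at this
    have a3 : (((N + s) / d : ℕ) : ℝ) ≤ ((N + s : ℕ) : ℝ) / d := Nat.cast_div_le
    have a4 : ((N + s : ℕ) : ℝ) / d < (((N + s) / d : ℕ) : ℝ) + 1 := by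
      have := Nat.lt_floor_add_one (((N + s : ℕ) : ℝ) / d)
      rwa [Nat.floor_div_eq_div] at this
    push_cast at a3 a4 ⊢
    have a5 : ((N : ℝ) + s) / d = (N : ℝ) / d + s / d := by ring
    have a6 : ((s : ℝ) + 1) / d = s / d + 1 / d := by ring
    rw [a5] at a3 a4
    rw [a6, abs_le]
    constructor <;> linarith

lemma pow_bern (S x : ℝ) (hS : 0 ≤ S) (hx : 0 ≤ x) (k : ℕ) :
    S ^ (k + 1) + (k + 1) * x * S ^ k ≤ (S + x) ^ (k + 1) := by
  induction k with
  | zero => simp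
  | succ k ih =>
    have h1 : (S + x) * (S ^ (k + 1) + (k + 1) * x * S ^ k) ≤ (S + x) * (S + x) ^ (k + 1) :=
      mul_le_mul_of_nonneg_left ih (by linarith)
    have h2 : 0 ≤ (k + 1 : ℝ) * x ^ 2 * S ^ k := by positivity
    have h3 : (S + x) ^ (k + 1 + 1) = (S + x) * (S + x) ^ (k + 1) := by ring
    rw [h3]
    refine le_trans ?_ h1
    push_cast
    have h4 : (S + x) * (S ^ (k + 1) + (k + 1) * x * S ^ k) =
        S ^ (k + 1 + 1) + ((k : ℝ) + 1 + 1) * x * S ^ (k + 1) + (k + 1 : ℝ) * x ^ 2 * S ^ k := by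
      ring
    rw [h4]
    linarith

lemma esy_fact (x : ℕ → ℝ) (P : Finset ℕ) : (∀ p ∈ P, 0 ≤ x p) → ∀ k : ℕ,
    esy P x k ≤ (∑ p ∈ P, x p) ^ k / k.factorial := by
  classical
  induction P using Finset.induction_on with
  | empty =>
    intro _ k
    cases k with
    | zero => rw [esy_zero]; simp
    | succ k => rw [esy_empty_succ]; simp
  | insert q P hq ih =>
    intro hx k
    have hxP : ∀ p ∈ P, 0 ≤ x p := fun p hp => hx p (mem_insert_of_mem hp)
    have hxq : 0 ≤ x q := hx q (mem_insert_self _ _)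
    cases k with
    | zero => rw [esy_zero]; simp
    | succ k =>
      rw [esy_insert P x q hq, sum_insert hq]
      have h1 := ih hxP (k + 1)
      have h2 := ih hxP k
      have hS : 0 ≤ ∑ p ∈ P, x p := sum_nonneg hxP
      have h3 := pow_bern (∑ p ∈ P, x p) (x q) hS hxq k
      have hf : (0 : ℝ) < (k + 1).factorial := by exact_mod_cast Nat.factorial_pos _
      have hf0 : (0 : ℝ) < k.factorial := by exact_mod_cast Nat.factorial_pos _
      calc esy P x (k + 1) + x q * esy P x k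
          ≤ (∑ p ∈ P, x p) ^ (k + 1) / (k + 1).factorial +
            x q * ((∑ p ∈ P, x p) ^ k / k.factorial) :=
            add_le_add h1 (mul_le_mul_of_nonneg_left h2 hxq)
        _ = ((∑ p ∈ P, x p) ^ (k + 1) + (k + 1) * x q * (∑ p ∈ P, x p) ^ k) /
            (k + 1).factorial := by
            rw [Nat.factorial_succ]
            push_cast
            field_simp
        _ ≤ (x q + ∑ p ∈ P, x p) ^ (k + 1) / (k + 1).factorial := by
            apply div_le_div_of_nonneg_right _ hf.le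
            rw [add_comm (x q)]
            exact h3

lemma sum_choose_le (n : ℕ) (r : ℕ) :
    ∑ j ∈ range (r + 1), n.choose j ≤ (n + 1) ^ r := by
  induction r with
  | zero => simp
  | succ r ih =>
    rw [sum_range_succ]
    have h1 : n.choose (r + 1) ≤ n ^ (r + 1) := Nat.choose_le_pow n (r + 1)
    have h2 : n ^ (r + 1) ≤ n * (n + 1) ^ r := by
      rw [pow_succ, mul_comm]
      exact Nat.mul_le_mul_left _ (Nat.pow_le_pow_left (by omega) r)
    calc _ ≤ (n + 1) ^ r + n * (n + 1) ^ r := by omega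
      _ = (n + 1) ^ (r + 1) := by ring

lemma card_PP_le_self (z : ℕ) : (PP z).card ≤ z := by
  have : PP z ⊆ Ioc 0 z := by
    intro p hp
    rw [mem_PP] at hp
    rw [mem_Ioc]
    exact ⟨hp.2.pos, hp.1⟩
  calc (PP z).card ≤ (Ioc 0 z).card := card_le_card this
    _ = z := by simp

/-- the truncated inclusion exclusion sum -/
lemma core (N z c r : ℕ) (hc : 1 ≤ c) (hcz : Rough z c) :
    |∑ n ∈ (J N).filter (fun n => c ∣ n), alt (PP z) (fun p => if p ∣ n then (1 : ℝ) else 0) r -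
      (Nat.sqrt N : ℝ) / c * alt (PP z) (fun p => 1 / (p : ℝ)) r| ≤
      2 * ((z : ℝ) + 1) ^ r := by
  classical
  have hD : ∀ D ∈ (PP z).powerset, |∑ n ∈ (J N).filter (fun n => c ∣ n),
      ∏ p ∈ D, (if p ∣ n then (1 : ℝ) else 0) -
      (Nat.sqrt N : ℝ) / c * ∏ p ∈ D, (1 / (p : ℝ))| ≤ 2 := by
    intro D hD
    rw [mem_powerset] at hD
    have hp : ∀ p ∈ D, p.Prime := fun p hp => (mem_PP.1 (hD hp)).2
    have hcop : Nat.Coprime c (∏ p ∈ D, p) := by
      apply Nat.Coprime.prod_right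
      intro p hpD
      rw [Nat.coprime_comm, (hp p hpD).coprime_iff_not_dvd]
      intro h
      have := hcz p (hp p hpD) h
      have := (mem_PP.1 (hD hpD)).1
      omega
    have hprod1 : 1 ≤ ∏ p ∈ D, p := by
      apply Nat.one_le_iff_ne_zero.2
      rw [prod_ne_zero_iff]
      intro p hpD
      exact (hp p hpD).ne_zero
    have h1 : ∑ n ∈ (J N).filter (fun n => c ∣ n), ∏ p ∈ D, (if p ∣ n then (1 : ℝ) else 0) =
        (((J N).filter (fun n => c * ∏ p ∈ D, p ∣ n)).card : ℝ) := by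
      have h2 : ∀ n, ∏ p ∈ D, (if p ∣ n then (1 : ℝ) else 0) =
          if (∏ p ∈ D, p) ∣ n then (1 : ℝ) else 0 := by
        intro n
        by_cases h : ∀ p ∈ D, p ∣ n
        · rw [if_pos (Finset.prod_primes_dvd n (fun p hpD => (hp p hpD).prime) h)]
          apply prod_eq_one
          intro p hpD
          rw [if_pos (h p hpD)]
        · rw [if_neg]
          · push Not at h
            obtain ⟨p, hpD, hpn⟩ := h
            apply prod_eq_zero hpD
            rw [if_neg hpn]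
          · intro h3
            apply h
            intro p hpD
            exact (dvd_prod_of_mem _ hpD).trans h3
      simp only [h2]
      rw [← sum_filter, sum_const, nsmul_eq_mul, mul_one, filter_filter]
      congr 2
      ext n
      simp only [mem_filter]
      constructor
      · rintro ⟨h3, h4, h5⟩
        exact ⟨h3, hcop.mul_dvd_of_dvd_of_dvd h4 h5⟩
      · rintro ⟨h3, h4⟩
        exact ⟨h3, (dvd_mul_right _ _).trans h4, (dvd_mul_left _ _).trans h4⟩
    rw [h1]
    have h3 := mult_J N (c * ∏ p ∈ D, p) (by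
      have := Nat.mul_le_mul hc hprod1
      simpa using this)
    have h4 : (Nat.sqrt N : ℝ) / ((c * ∏ p ∈ D, p : ℕ) : ℝ) =
        (Nat.sqrt N : ℝ) / c * ∏ p ∈ D, (1 / (p : ℝ)) := by
      push_cast
      rw [prod_div_distrib]
      simp only [prod_const_one]
      rw [div_mul_div_comm, mul_one]
    rw [h4] at h3
    exact h3
  have h1 : ∑ n ∈ (J N).filter (fun n => c ∣ n),
      alt (PP z) (fun p => if p ∣ n then (1 : ℝ) else 0) r =
      ∑ j ∈ range (r + 1), (-1 : ℝ) ^ j * ∑ D ∈ (PP z).powersetCard j,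
        ∑ n ∈ (J N).filter (fun n => c ∣ n), ∏ p ∈ D, (if p ∣ n then (1 : ℝ) else 0) := by
    unfold alt esy
    rw [sum_comm]
    apply sum_congr rfl
    intro j _
    rw [← mul_sum, sum_comm]
  have h2 : (Nat.sqrt N : ℝ) / c * alt (PP z) (fun p => 1 / (p : ℝ)) r =
      ∑ j ∈ range (r + 1), (-1 : ℝ) ^ j * ∑ D ∈ (PP z).powersetCard j,
        ((Nat.sqrt N : ℝ) / c * ∏ p ∈ D, (1 / (p : ℝ))) := by
    unfold alt esy
    rw [mul_sum]
    apply sum_congr rfl
    intro j _
    rw [← mul_sum]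
    ring
  rw [h1, h2, ← sum_sub_distrib]
  calc |∑ j ∈ range (r + 1), ((-1 : ℝ) ^ j * ∑ D ∈ (PP z).powersetCard j,
        ∑ n ∈ (J N).filter (fun n => c ∣ n), ∏ p ∈ D, (if p ∣ n then (1 : ℝ) else 0) -
        (-1 : ℝ) ^ j * ∑ D ∈ (PP z).powersetCard j,
          ((Nat.sqrt N : ℝ) / c * ∏ p ∈ D, (1 / (p : ℝ))))|
      ≤ ∑ j ∈ range (r + 1), 2 * ((PP z).card.choose j : ℝ) := by
        refine (abs_sum_le_sum_abs _ _).trans (sum_le_sum ?_)
        intro j _
        rw [← mul_sub, abs_mul, abs_pow, abs_neg, abs_one, one_pow, one_mul, ← sum_sub_distrib]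
        refine (abs_sum_le_sum_abs _ _).trans ?_
        calc _ ≤ ∑ D ∈ (PP z).powersetCard j, (2 : ℝ) := by
              apply sum_le_sum
              intro D hD'
              exact hD D (mem_powerset.2 (mem_powersetCard.1 hD').1)
          _ = 2 * ((PP z).card.choose j : ℝ) := by
              rw [sum_const, card_powersetCard, nsmul_eq_mul]; ring
    _ = 2 * ((∑ j ∈ range (r + 1), (PP z).card.choose j : ℕ) : ℝ) := by
        rw [← mul_sum]; push_cast; rfl
    _ ≤ 2 * ((z : ℝ) + 1) ^ r := by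
        apply mul_le_mul_of_nonneg_left _ (by norm_num)
        have h3 := sum_choose_le (PP z).card r
        have h4 : ((PP z).card + 1) ^ r ≤ (z + 1) ^ r :=
          Nat.pow_le_pow_left (by have := card_PP_le_self z; omega) r
        have h5 := h3.trans h4
        exact_mod_cast h5

lemma rough_prod (z n : ℕ) : ∏ p ∈ PP z, (1 - (if p ∣ n then (1 : ℝ) else 0)) =
    if Rough z n then (1 : ℝ) else 0 := by
  by_cases h : Rough z n
  · rw [if_pos h]
    apply prod_eq_one
    intro p hp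
    rw [mem_PP] at hp
    rw [if_neg]
    · norm_num
    · intro h1
      have := h p hp.2 h1
      omega
  · rw [if_neg h]
    unfold Rough at h
    push Not at h
    obtain ⟨p, hp, hpn, hpz⟩ := h
    apply prod_eq_zero (mem_PP.2 ⟨hpz, hp⟩)
    rw [if_pos hpn]; norm_num

lemma cnt_eq (N z c : ℕ) : (cnt N z c : ℝ) =
    ∑ n ∈ (J N).filter (fun n => c ∣ n), (if Rough z n then (1 : ℝ) else 0) := by
  unfold cnt
  rw [← filter_filter, card_filter]
  push_cast
  rfl

lemma inv_bounds (z : ℕ) : ∀ p ∈ PP z, 0 ≤ 1 / (p : ℝ) ∧ 1 / (p : ℝ) ≤ 1 := by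
  intro p hp
  rw [mem_PP] at hp
  have : (1 : ℝ) ≤ p := by exact_mod_cast hp.2.one_le
  refine ⟨by positivity, ?_⟩
  rw [div_le_one (by linarith)]
  exact this

theorem brun_upper (N z c m : ℕ) (hc : 1 ≤ c) (hcz : Rough z c) :
    (cnt N z c : ℝ) ≤ (Nat.sqrt N : ℝ) / c *
      (V z + SS z ^ (2 * m + 1) / (2 * m + 1).factorial) + 2 * ((z : ℝ) + 1) ^ (2 * m) := by
  have h1 : (cnt N z c : ℝ) ≤ ∑ n ∈ (J N).filter (fun n => c ∣ n),
      alt (PP z) (fun p => if p ∣ n then (1 : ℝ) else 0) (2 * m) := by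
    rw [cnt_eq]
    apply sum_le_sum
    intro n _
    have hb := (bonf (PP z) (fun p => if p ∣ n then (1 : ℝ) else 0)
      (fun p _ => by split_ifs <;> norm_num) (2 * m)).1
    rw [pow_mul, neg_one_sq, one_pow, one_mul, rough_prod] at hb
    linarith
  have h2 := core N z c (2 * m) hc hcz
  have h3 := (bonf (PP z) (fun p => 1 / (p : ℝ)) (inv_bounds z) (2 * m)).2
  rw [pow_mul, neg_one_sq, one_pow, one_mul] at h3
  have h4 := esy_fact (fun p => 1 / (p : ℝ)) (PP z) (fun p hp => (inv_bounds z p hp).1) (2 * m + 1)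
  have h5 : alt (PP z) (fun p => 1 / (p : ℝ)) (2 * m) ≤
      V z + SS z ^ (2 * m + 1) / (2 * m + 1).factorial := by
    unfold V SS
    linarith
  have h6 : (0 : ℝ) ≤ (Nat.sqrt N : ℝ) / c := by positivity
  have h7 := mul_le_mul_of_nonneg_left h5 h6
  rw [abs_le] at h2
  linarith [h2.2]

theorem brun_lower (N z m : ℕ) :
    (Nat.sqrt N : ℝ) * (V z - SS z ^ (2 * m + 2) / (2 * m + 2).factorial) -
      2 * ((z : ℝ) + 1) ^ (2 * m + 1) ≤ (cnt N z 1 : ℝ) := by
  have h1 : ∑ n ∈ (J N).filter (fun n => 1 ∣ n),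
      alt (PP z) (fun p => if p ∣ n then (1 : ℝ) else 0) (2 * m + 1) ≤ (cnt N z 1 : ℝ) := by
    rw [cnt_eq]
    apply sum_le_sum
    intro n _
    have hb := (bonf (PP z) (fun p => if p ∣ n then (1 : ℝ) else 0)
      (fun p _ => by split_ifs <;> norm_num) (2 * m + 1)).1
    rw [pow_succ, pow_mul, neg_one_sq, one_pow, one_mul, rough_prod] at hb
    linarith
  have h2 := core N z 1 (2 * m + 1) le_rfl (by
    intro p hp h
    exact absurd (Nat.dvd_one.1 h) hp.one_lt.ne')
  have h3 := (bonf (PP z) (fun p => 1 / (p : ℝ)) (inv_bounds z) (2 * m + 1)).2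
  rw [pow_succ, pow_mul, neg_one_sq, one_pow, one_mul] at h3
  have h4 := esy_fact (fun p => 1 / (p : ℝ)) (PP z) (fun p hp => (inv_bounds z p hp).1) (2 * m + 2)
  have h5 : V z - SS z ^ (2 * m + 2) / (2 * m + 2).factorial ≤
      alt (PP z) (fun p => 1 / (p : ℝ)) (2 * m + 1) := by
    unfold V SS
    linarith
  have h6 : (0 : ℝ) ≤ (Nat.sqrt N : ℝ) := by positivity
  have h7 := mul_le_mul_of_nonneg_left h5 h6
  rw [Nat.cast_one, div_one, abs_le] at h2
  linarith [h2.1]

end Pool.Agent.PSQ
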