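import Pool.Agent.PSQ.RJ

/-!
# PSQ module CNT: counting the elements of `M` and of `E`

`M j ⊆ RR A j`, `|M j| ≤ KK j = (j+1)(⌊√(j+1)⌋ + 1) ≤ 2 (j+1)^(3/2)`.

* `countM`: `m ∈ M j`, `m ≤ y` gives `2^j ≤ y`, `j ≤ log y / log 2`; at most
  `∑_{j ≤ J} KK j ≤ 2 (J+1)^(5/2) ≤ C (log y)^3` elements (`y ≥ 2`).
* `countE`: a prime `p ≤ y` dividing `m ∈ M j` gives `j ≤ C (log y)^(12/11)` (`j_le_of_dvd`), and
  `m` has at most `C log (j+2)` prime factors (`omega_le`), so the number of `p` is at most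
  `C' (J+1)^(5/2) log (J+2) ≤ C'' (J+1)^(11/4)`, `J = C (log y)^(12/11)`, `≤ C''' (log y)^3`.
-/

set_option autoImplicit false

namespace Pool.Agent.PSQ

open Finset Real

private lemma KK_mono {i j : ℕ} (h : i ≤ j) : KK i ≤ KK j := by
  unfold KK
  exact Nat.mul_le_mul (by omega) (Nat.add_le_add_right (Nat.sqrt_le_sqrt (by omega)) 1)

private lemma KK_le (j : ℕ) : (KK j : ℝ) ≤ ((j : ℝ) + 2) * (2 * √((j : ℝ) + 2)) := by
  unfold KK
  push_cast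
  have h1 : (Nat.sqrt (j + 1) : ℝ) ≤ √((j : ℝ) + 2) := by
    refine Real.nat_sqrt_le_real_sqrt.trans (Real.sqrt_le_sqrt ?_)
    push_cast
    linarith
  have h2 : (1 : ℝ) ≤ √((j : ℝ) + 2) := by
    rw [Real.one_le_sqrt]
    have : (0 : ℝ) ≤ j := Nat.cast_nonneg _
    linarith
  have : (0 : ℝ) ≤ j := Nat.cast_nonneg _
  apply mul_le_mul (by linarith) (by linarith) (by positivity) (by positivity)

theorem countM (A : ℝ) (hA : 100 ≤ A) : ∃ C : ℝ, 0 < C ∧ ∀ M : ℕ → Finset ℕ,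
    (∀ j, M j ⊆ RR A j ∧ (M j).card ≤ KK j) → ∀ y : ℝ, 2 ≤ y →
    {m : ℕ | (∃ j, m ∈ M j) ∧ (m : ℝ) ≤ y}.Finite ∧
    ({m : ℕ | (∃ j, m ∈ M j) ∧ (m : ℝ) ≤ y}.ncard : ℝ) ≤ C * log y ^ 3 := by
  classical
  have hl2 : 0 < log 2 := Real.log_pos (by norm_num)
  refine ⟨54 / log 2 ^ 3, by positivity, fun M hM y hy => ?_⟩
  have hly : log 2 ≤ log y := Real.log_le_log (by norm_num) hy
  set J : ℕ := ⌊log y / log 2⌋₊ with hJ
  have hJle : (J : ℝ) ≤ log y / log 2 := Nat.floor_le (div_nonneg (hl2.le.trans hly) hl2.le)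
  have hsub : {m : ℕ | (∃ j, m ∈ M j) ∧ (m : ℝ) ≤ y} ⊆ ((range (J + 1)).biUnion M : Finset ℕ) := by
    rintro m ⟨⟨j, hj⟩, hmy⟩
    rw [Finset.mem_coe, Finset.mem_biUnion]
    refine ⟨j, ?_, hj⟩
    rw [Finset.mem_range, Nat.lt_succ_iff]
    apply Nat.le_floor
    have h1 := (hM j).1 hj
    rw [RR, Finset.mem_filter, Finset.mem_Ico] at h1
    rw [le_div_iff₀ hl2, ← Real.log_pow]
    apply Real.log_le_log (by positivity)
    refine le_trans ?_ hmy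
    exact_mod_cast h1.1.1
  have hfin : (((range (J + 1)).biUnion M : Finset ℕ) : Set ℕ).Finite := Finset.finite_toSet _
  refine ⟨hfin.subset hsub, ?_⟩
  have h1 := Set.ncard_le_ncard hsub hfin
  rw [Set.ncard_coe_finset] at h1
  have h2 : ((range (J + 1)).biUnion M).card ≤ (J + 1) * KK J := by
    refine Finset.card_biUnion_le.trans ?_
    refine (Finset.sum_le_card_nsmul _ _ (KK J) fun j hj => ?_).trans ?_
    · exact (hM j).2.trans (KK_mono (Nat.lt_succ_iff.1 (Finset.mem_range.1 hj)))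
    · simp
  have h3 : (({m : ℕ | (∃ j, m ∈ M j) ∧ (m : ℝ) ≤ y}.ncard : ℕ) : ℝ) ≤ ((J : ℝ) + 1) * (KK J : ℝ) := by
    exact_mod_cast h1.trans h2
  refine h3.trans ?_
  have h4 := KK_le J
  have hJ0 : (0 : ℝ) ≤ J := Nat.cast_nonneg _
  have h5 : √((J : ℝ) + 2) ≤ (J : ℝ) + 2 := by
    rw [Real.sqrt_le_left (by linarith)]
    nlinarith
  have h6 : (J : ℝ) + 2 ≤ 3 * (log y / log 2) := by
    have : 1 ≤ log y / log 2 := by rw [le_div_iff₀ hl2]; linarith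
    linarith
  have h7 : ((J : ℝ) + 1) * (KK J : ℝ) ≤ 2 * ((J : ℝ) + 2) ^ 3 := by
    calc ((J : ℝ) + 1) * (KK J : ℝ) ≤ ((J : ℝ) + 2) * (((J : ℝ) + 2) * (2 * ((J : ℝ) + 2))) := by
          apply mul_le_mul (by linarith) _ (Nat.cast_nonneg _) (by linarith)
          refine h4.trans (mul_le_mul_of_nonneg_left (by linarith) (by linarith))
      _ = 2 * ((J : ℝ) + 2) ^ 3 := by ring
  refine h7.trans ?_
  have h8 : ((J : ℝ) + 2) ^ 3 ≤ (3 * (log y / log 2)) ^ 3 :=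
    pow_le_pow_left₀ (by linarith) h6 3
  calc 2 * ((J : ℝ) + 2) ^ 3 ≤ 2 * (3 * (log y / log 2)) ^ 3 := by linarith
    _ = 54 / log 2 ^ 3 * log y ^ 3 := by rw [mul_pow, div_pow]; ring

theorem countE (A : ℝ) (hA : 100 ≤ A) : ∃ C : ℝ, 0 < C ∧ ∀ M : ℕ → Finset ℕ,
    (∀ j, M j ⊆ RR A j ∧ (M j).card ≤ KK j) → ∀ y : ℝ, 2 ≤ y →
    {p : ℕ | (p.Prime ∧ ∃ j, ∃ m ∈ M j, p ∣ m) ∧ (p : ℝ) ≤ y}.Finite ∧
    ({p : ℕ | (p.Prime ∧ ∃ j, ∃ m ∈ M j, p ∣ m) ∧ (p : ℝ) ≤ y}.ncard : ℝ) ≤ C * log y ^ 3 := by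
  classical
  have hl2 : 0 < log 2 := Real.log_pos (by norm_num)
  obtain ⟨C1, hC1, h1⟩ := j_le_of_dvd A hA
  obtain ⟨C2, hC2, h2⟩ := omega_le A hA
  set K : ℝ := C1 + 2 / log 2 ^ (12 / 11 : ℝ) with hK
  have hKpos : 0 < K := by positivity
  refine ⟨8 * C2 * K ^ (11 / 4 : ℝ), by positivity, fun M hM y hy => ?_⟩
  have hly : log 2 ≤ log y := Real.log_le_log (by norm_num) hy
  have hly0 : 0 < log y := hl2.trans_le hly
  set J : ℕ := ⌊C1 * log y ^ (12 / 11 : ℝ)⌋₊ with hJ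
  have hJle : (J : ℝ) ≤ C1 * log y ^ (12 / 11 : ℝ) := Nat.floor_le (by positivity)
  have hJ0 : (0 : ℝ) ≤ J := Nat.cast_nonneg _
  have hsub : {p : ℕ | (p.Prime ∧ ∃ j, ∃ m ∈ M j, p ∣ m) ∧ (p : ℝ) ≤ y} ⊆
      ((range (J + 1)).biUnion (fun j => (M j).biUnion Nat.primeFactors) : Finset ℕ) := by
    rintro p ⟨⟨hp, j, m, hm, hd⟩, hpy⟩
    have hmR := (hM j).1 hm
    rw [Finset.mem_coe, Finset.mem_biUnion]
    refine ⟨j, ?_, ?_⟩
    · rw [Finset.mem_range, Nat.lt_succ_iff]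
      apply Nat.le_floor
      refine (h1 j m hmR p hp hd).trans ?_
      apply mul_le_mul_of_nonneg_left _ hC1.le
      have hp2 : (2 : ℝ) ≤ p := by exact_mod_cast hp.two_le
      apply Real.rpow_le_rpow (Real.log_nonneg (by linarith)) (Real.log_le_log (by linarith) hpy)
      norm_num
    · rw [Finset.mem_biUnion]
      refine ⟨m, hm, ?_⟩
      rw [RR, Finset.mem_filter, Finset.mem_Ico] at hmR
      have : 0 < 2 ^ j := by positivity
      exact Nat.mem_primeFactors.2 ⟨hp, hd, by omega⟩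
  have hfin : (((range (J + 1)).biUnion (fun j => (M j).biUnion Nat.primeFactors) : Finset ℕ) :
    Set ℕ).Finite := Finset.finite_toSet _
  refine ⟨hfin.subset hsub, ?_⟩
  have h3 := Set.ncard_le_ncard hsub hfin
  rw [Set.ncard_coe_finset] at h3
  set T : ℝ := (J : ℝ) + 2 with hT
  have hT2 : 2 ≤ T := by rw [hT]; linarith
  have hlT : 0 ≤ log T := Real.log_nonneg (by linarith)
  have hm : ∀ j ∈ range (J + 1), ∀ m ∈ M j, (m.primeFactors.card : ℝ) ≤ C2 * log T := by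
    intro j hj m hmj
    have hmR := (hM j).1 hmj
    have h4 := h2 j m hmR
    have h5 : m.primeFactors.card ≤ ArithmeticFunction.cardFactors m := by
      rw [ArithmeticFunction.cardFactors_apply]
      exact List.toFinset_card_le _
    have h5' : (m.primeFactors.card : ℝ) ≤ (ArithmeticFunction.cardFactors m : ℝ) := by
      exact_mod_cast h5
    refine h5'.trans (h4.trans (mul_le_mul_of_nonneg_left ?_ hC2.le))
    apply Real.log_le_log (by positivity)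
    rw [hT]
    have : (j : ℝ) ≤ J := by exact_mod_cast Nat.lt_succ_iff.1 (Finset.mem_range.1 hj)
    linarith
  have hj : ∀ j ∈ range (J + 1), (((M j).biUnion Nat.primeFactors).card : ℝ) ≤
      (KK J : ℝ) * (C2 * log T) := by
    intro j hj
    have h6 : (((M j).biUnion Nat.primeFactors).card : ℝ) ≤
        ∑ m ∈ M j, (m.primeFactors.card : ℝ) := by
      exact_mod_cast Finset.card_biUnion_le
    refine h6.trans ((Finset.sum_le_card_nsmul _ _ _ (hm j hj)).trans ?_)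
    rw [nsmul_eq_mul]
    apply mul_le_mul_of_nonneg_right _ (by positivity)
    exact_mod_cast (hM j).2.trans (KK_mono (Nat.lt_succ_iff.1 (Finset.mem_range.1 hj)))
  have h7 : (({p : ℕ | (p.Prime ∧ ∃ j, ∃ m ∈ M j, p ∣ m) ∧ (p : ℝ) ≤ y}.ncard : ℕ) : ℝ) ≤
      ((J : ℝ) + 1) * ((KK J : ℝ) * (C2 * log T)) := by
    have h8 : (({p : ℕ | (p.Prime ∧ ∃ j, ∃ m ∈ M j, p ∣ m) ∧ (p : ℝ) ≤ y}.ncard : ℕ) : ℝ) ≤
        ∑ j ∈ range (J + 1), (((M j).biUnion Nat.primeFactors).card : ℝ) := by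
      exact_mod_cast h3.trans Finset.card_biUnion_le
    refine h8.trans ((Finset.sum_le_card_nsmul _ _ _ hj).trans ?_)
    rw [nsmul_eq_mul, Finset.card_range]
    push_cast
    exact le_rfl
  refine h7.trans ?_
  have hT0 : (0 : ℝ) < T := by linarith
  have h9 : (KK J : ℝ) ≤ T * (2 * √T) := KK_le J
  have h10 : log T ≤ T ^ (1 / 4 : ℝ) / (1 / 4) := Real.log_le_rpow_div hT0.le (by norm_num)
  have h11 : ((J : ℝ) + 1) * ((KK J : ℝ) * (C2 * log T)) ≤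
      T * ((T * (2 * √T)) * (C2 * (T ^ (1 / 4 : ℝ) / (1 / 4)))) := by
    apply mul_le_mul (by rw [hT]; linarith) _ (by positivity) hT0.le
    apply mul_le_mul h9 _ (by positivity) (by positivity)
    exact mul_le_mul_of_nonneg_left h10 hC2.le
  have h12 : T * ((T * (2 * √T)) * (C2 * (T ^ (1 / 4 : ℝ) / (1 / 4)))) =
      8 * C2 * T ^ (11 / 4 : ℝ) := by
    have e1 : T ^ (11 / 4 : ℝ) = T * T * √T * T ^ (1 / 4 : ℝ) := by
      rw [Real.sqrt_eq_rpow]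
      nth_rewrite 2 [← Real.rpow_one T]
      nth_rewrite 3 [← Real.rpow_one T]
      rw [← Real.rpow_add hT0, ← Real.rpow_add hT0, ← Real.rpow_add hT0]
      norm_num
    rw [e1]
    ring
  rw [h12] at h11
  refine h11.trans ?_
  have h13 : T ≤ K * log y ^ (12 / 11 : ℝ) := by
    rw [hK, add_mul, hT]
    have h14 : log 2 ^ (12 / 11 : ℝ) ≤ log y ^ (12 / 11 : ℝ) :=
      Real.rpow_le_rpow hl2.le hly (by norm_num)
    have h15 : (2 : ℝ) ≤ 2 / log 2 ^ (12 / 11 : ℝ) * log y ^ (12 / 11 : ℝ) := by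
      rw [div_mul_eq_mul_div, le_div_iff₀ (by positivity)]
      linarith
    linarith
  have h16 : T ^ (11 / 4 : ℝ) ≤ K ^ (11 / 4 : ℝ) * log y ^ 3 := by
    calc T ^ (11 / 4 : ℝ) ≤ (K * log y ^ (12 / 11 : ℝ)) ^ (11 / 4 : ℝ) :=
          Real.rpow_le_rpow hT0.le h13 (by norm_num)
      _ = K ^ (11 / 4 : ℝ) * log y ^ 3 := by
          rw [Real.mul_rpow hKpos.le (by positivity), ← Real.rpow_mul hly0.le]
          norm_num
  calc 8 * C2 * T ^ (11 / 4 : ℝ) ≤ 8 * C2 * (K ^ (11 / 4 : ℝ) * log y ^ 3) :=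
        mul_le_mul_of_nonneg_left h16 (by positivity)
    _ = 8 * C2 * K ^ (11 / 4 : ℝ) * log y ^ 3 := by ring

end Pool.Agent.PSQ
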