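import Mathlib

/-!
# PSQ: definitions

Products `m q` of a prime `q` and a number `m` from a very thin set in intervals `(x, x + √x)`.
-/

set_option autoImplicit false

namespace Pool.Agent.PSQ

open Finset

/-- `n` has no prime factor `≤ z` -/
def Rough (z n : ℕ) : Prop := ∀ p : ℕ, p.Prime → p ∣ n → z < p

noncomputable instance (z : ℕ) : DecidablePred (Rough z) := fun _ => Classical.propDecidable _

/-- the integers strictly between `N` and `N + √N` (floor of the square root) -/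
def J (N : ℕ) : Finset ℕ := Finset.Ioo N (N + Nat.sqrt N)

/-- the primes up to `z` -/
def PP (z : ℕ) : Finset ℕ := (Finset.range (z + 1)).filter Nat.Prime

lemma mem_PP {z p : ℕ} : p ∈ PP z ↔ p ≤ z ∧ p.Prime := by
  simp [PP]

/-- the density of the integers without prime factors `≤ z` -/
noncomputable def V (z : ℕ) : ℝ := ∏ p ∈ PP z, (1 - 1 / (p : ℝ))

/-- `S z = ∑_{p ≤ z} 1/p` -/
noncomputable def SS (z : ℕ) : ℝ := ∑ p ∈ PP z, 1 / (p : ℝ)

/-- the number of multiples of `c` in `J N` without prime factors `≤ z` -/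
noncomputable def cnt (N z c : ℕ) : ℕ := ((J N).filter (fun n => c ∣ n ∧ Rough z n)).card

open scoped Classical in
/-- the rough numbers in `J N` with a prime factor `≥ √N + 2` -/
noncomputable def GG (N z : ℕ) : Finset ℕ :=
  (J N).filter (fun n => Rough z n ∧ ∃ q : ℕ, q.Prime ∧ Nat.sqrt N + 2 ≤ q ∧ q ∣ n)

open scoped Classical in
/-- the available factors `m` for `N`: `m > 1` is `z`-rough and `m q ∈ J N` for a prime
`q ≥ √N + 2` -/
noncomputable def AA (N z : ℕ) : Finset ℕ :=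
  (Finset.range (Nat.sqrt N + 2)).filter (fun m => 1 < m ∧ Rough z m ∧
    ∃ q : ℕ, q.Prime ∧ Nat.sqrt N + 2 ≤ q ∧ m * q ∈ J N)

lemma mem_GG {N z n : ℕ} : n ∈ GG N z ↔ n ∈ J N ∧ Rough z n ∧
    ∃ q : ℕ, q.Prime ∧ Nat.sqrt N + 2 ≤ q ∧ q ∣ n := by
  simp [GG]

lemma mem_AA {N z m : ℕ} : m ∈ AA N z ↔ m < Nat.sqrt N + 2 ∧ 1 < m ∧ Rough z m ∧
    ∃ q : ℕ, q.Prime ∧ Nat.sqrt N + 2 ≤ q ∧ m * q ∈ J N := by
  simp [AA]

/-- the level of roughness, `exp (log t / (A loglog t))` -/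
noncomputable def zz (A : ℝ) (t : ℕ) : ℕ :=
  ⌊Real.exp (Real.log t / (A * Real.log (Real.log t)))⌋₊

/-- the number of steps of Brun's sieve, `10 loglog t` -/
noncomputable def mm (t : ℕ) : ℕ := ⌈10 * Real.log (Real.log t)⌉₊

/-- the end of the main range, `t^(1 - 25/A)` -/
noncomputable def YY (A : ℝ) (t : ℕ) : ℕ := ⌊(t : ℝ) ^ (1 - 25 / A)⌋₊

/-- roughness of the numbers used in the dyadic block `[2^j, 2^(j+1))` -/
noncomputable def zeta (A : ℝ) (j : ℕ) : ℕ :=
  ⌊Real.exp (j / (4 * A * Real.log (j + 2)))⌋₊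

/-- the rough numbers of the dyadic block -/
noncomputable def RR (A : ℝ) (j : ℕ) : Finset ℕ :=
  (Finset.Ico (2 ^ j) (2 ^ (j + 1))).filter (Rough (zeta A j))

/-- the number of samples in the dyadic block -/
def KK (j : ℕ) : ℕ := (j + 1) * (Nat.sqrt (j + 1) + 1)

end Pool.Agent.PSQ
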