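import Pool.Agent.PSQ.Wgt
import Pool.Agent.PSQ.Cnt
import Pool.Agent.PSQ.Hit

/-!
# PSQ module FIN: final assembly

`weights_ge` + `hitting` (`S = {N ≥ N0 : no prime in J N}`) give `M j`.  Let
`M = ⋃ M j ∪ {1} ∪ {m ≤ N0 + 1}`, `E = {p : p ∣ m ∈ M j} ∪ {p ≤ N0 + 1}`.
For real `x ≥ 117`, `N = ⌊x⌋`: if `N < N0`: `n = N + 1`, `q = n.minFac`, `m = n / q`.  If `N ≥ N0`
and `J N` contains a prime `q`: `n = q`, `m = 1` (`p² ≤ n`, `p ∣ n`, `p` prime is impossible).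
Otherwise `m ∈ AA N z ∩ M j`, `n = m q ∈ J N`, `q ≥ t + 2`, `q² > n`; a prime `p ∣ n` with
`p² ≤ n` is `≠ q`, so `p ∣ m`.  `Ω(n) = Ω(m) + 1 ≤ C log (j + 2) + 1 ≤ C' loglog n`,
`2^j ≤ m ≤ n`.  Elements of `J N` lie in `(x, x + √x)`.
-/

set_option autoImplicit false

namespace Pool.Agent.PSQ

open Finset Real

private lemma omega_le_self (n : ℕ) (hn : n ≠ 0) : ArithmeticFunction.cardFactors n ≤ n := by
  rw [ArithmeticFunction.cardFactors_apply]
  have h1 : ∀ l : List ℕ, (∀ x ∈ l, 2 ≤ x) → 2 ^ l.length ≤ l.prod := by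
    intro l
    induction l with
    | nil => simp
    | cons a l ih =>
      intro h
      rw [List.length_cons, List.prod_cons, pow_succ, mul_comm]
      exact Nat.mul_le_mul (h a (by simp)) (ih fun x hx => h x (by simp [hx]))
  have h2 := h1 n.primeFactorsList fun x hx => (Nat.prime_of_mem_primeFactorsList hx).two_le
  rw [Nat.prod_primeFactorsList hn] at h2
  exact (Nat.lt_two_pow_self).le.trans h2

private lemma loglog_ge (n : ℕ) (hn : 118 ≤ n) : (4 : ℝ) ≤ log n ∧ 1 ≤ log (log n) := by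
  have h0 : (118 : ℝ) ≤ n := by exact_mod_cast hn
  have h4 : (4 : ℝ) ≤ log n := by
    rw [Real.le_log_iff_exp_le (by linarith)]
    have h1 : Real.exp 4 = Real.exp 1 ^ 4 := by rw [← Real.exp_nat_mul]; norm_num
    rw [h1]
    have h2 := Real.exp_one_lt_d9
    have h3 : Real.exp 1 ^ 4 ≤ 2.7182818286 ^ 4 := by
      apply pow_le_pow_left₀ (Real.exp_pos 1).le h2.le
    have : (2.7182818286 : ℝ) ^ 4 ≤ 118 := by norm_num
    linarith
  refine ⟨h4, ?_⟩
  rw [Real.le_log_iff_exp_le (by linarith)]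
  have := Real.exp_one_lt_d9
  linarith

private lemma mem_J_real {N n : ℕ} {x : ℝ} (hx : 0 ≤ x) (hN : N = ⌊x⌋₊) (hn : n ∈ J N) :
    x < n ∧ (n : ℝ) < x + √x := by
  rw [J, Finset.mem_Ioo] at hn
  have h1 : x < N + 1 := by rw [hN]; exact Nat.lt_floor_add_one x
  have h2 : (N : ℝ) ≤ x := by rw [hN]; exact Nat.floor_le hx
  have h3 : ((N + 1 : ℕ) : ℝ) ≤ n := by exact_mod_cast hn.1
  have h4 : (n : ℝ) < ((N + Nat.sqrt N : ℕ) : ℝ) := by exact_mod_cast hn.2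
  push_cast at h3 h4
  have h5 : (Nat.sqrt N : ℝ) ≤ √x := Real.nat_sqrt_le_real_sqrt.trans (Real.sqrt_le_sqrt h2)
  constructor <;> linarith

private lemma big_q {N n q : ℕ} (hn : n ∈ J N) (hq : Nat.sqrt N + 2 ≤ q) : n < q ^ 2 := by
  rw [J, Finset.mem_Ioo] at hn
  have h1 : N < (Nat.sqrt N + 1) * (Nat.sqrt N + 1) := Nat.lt_succ_sqrt N
  have h2 : (Nat.sqrt N + 2) ^ 2 ≤ q ^ 2 := Nat.pow_le_pow_left hq 2
  nlinarith

private lemma count_aux {P : ℕ → Prop} {C y : ℝ} {B : ℕ} (hy : 2 ≤ y) (Q : ℕ → Prop)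
    (hQ : ∀ m, Q m → P m ∨ m ≤ B)
    (h1 : {m : ℕ | P m ∧ (m : ℝ) ≤ y}.Finite)
    (h2 : ({m : ℕ | P m ∧ (m : ℝ) ≤ y}.ncard : ℝ) ≤ C * log y ^ 3) :
    {m : ℕ | Q m ∧ (m : ℝ) ≤ y}.Finite ∧
    ({m : ℕ | Q m ∧ (m : ℝ) ≤ y}.ncard : ℝ) ≤ (C + (B + 1) / log 2 ^ 3) * log y ^ 3 := by
  have hsub : {m : ℕ | Q m ∧ (m : ℝ) ≤ y} ⊆ {m : ℕ | P m ∧ (m : ℝ) ≤ y} ∪ Set.Iic B := by
    rintro m ⟨hm, hmy⟩
    rcases hQ m hm with h | h
    · exact Or.inl ⟨h, hmy⟩
    · exact Or.inr h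
  have hfin : ({m : ℕ | P m ∧ (m : ℝ) ≤ y} ∪ Set.Iic B).Finite := h1.union (Set.finite_Iic B)
  refine ⟨hfin.subset hsub, ?_⟩
  have h3 := Set.ncard_le_ncard hsub hfin
  have h4 := Set.ncard_union_le {m : ℕ | P m ∧ (m : ℝ) ≤ y} (Set.Iic B)
  have h5 : (Set.Iic B).ncard = B + 1 := by
    rw [Set.ncard_eq_toFinset_card']
    simp
  rw [h5] at h4
  have h6 : (({m : ℕ | Q m ∧ (m : ℝ) ≤ y}.ncard : ℕ) : ℝ) ≤
      ({m : ℕ | P m ∧ (m : ℝ) ≤ y}.ncard : ℝ) + (B + 1) := by exact_mod_cast h3.trans h4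
  have hl2 : 0 < log 2 := Real.log_pos (by norm_num)
  have h7 : log 2 ^ 3 ≤ log y ^ 3 :=
    pow_le_pow_left₀ hl2.le (Real.log_le_log (by norm_num) hy) 3
  have h8 : ((B : ℝ) + 1) ≤ (B + 1) / log 2 ^ 3 * log y ^ 3 := by
    rw [div_mul_eq_mul_div, le_div_iff₀ (by positivity)]
    exact mul_le_mul_of_nonneg_left h7 (by positivity)
  rw [add_mul]
  linarith

theorem main : ∃ (E M : Set ℕ) (C : ℝ),
    (∀ p ∈ E, p.Prime) ∧
    (∀ y : ℝ, 2 ≤ y → {p : ℕ | p ∈ E ∧ (p : ℝ) ≤ y}.Finite ∧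
      ({p : ℕ | p ∈ E ∧ (p : ℝ) ≤ y}.ncard : ℝ) ≤ C * log y ^ 3) ∧
    (∀ y : ℝ, 2 ≤ y → {m : ℕ | m ∈ M ∧ (m : ℝ) ≤ y}.Finite ∧
      ({m : ℕ | m ∈ M ∧ (m : ℝ) ≤ y}.ncard : ℝ) ≤ C * log y ^ 3) ∧
    ∀ x : ℝ, 117 ≤ x → ∃ n m q : ℕ, x < n ∧ (n : ℝ) < x + √x ∧
      n = m * q ∧ m ∈ M ∧ q.Prime ∧
      (∀ p : ℕ, p.Prime → p ∣ n → p ^ 2 ≤ n → p ∈ E) ∧
      (ArithmeticFunction.cardFactors n : ℝ) ≤ C * log (log n) := by
  obtain ⟨A, hA, N0, hN0, hw⟩ := weights_ge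
  obtain ⟨C1, hC1, h1⟩ := countM A hA
  obtain ⟨C2, hC2, h2⟩ := countE A hA
  obtain ⟨C3, hC3, h3⟩ := omega_le A hA
  obtain ⟨M, hM, hhit⟩ := hitting (RR A) (RR_nonempty A hA) KK
    {N : ℕ | N0 ≤ N ∧ ∀ q ∈ J N, ¬ q.Prime} (fun N hN => hN0.trans hN.1)
    (fun N => AA N (zz A (Nat.sqrt N))) (fun N => Nat.log 2 (Nat.sqrt N + 1) + 1)
    (fun N hN => hw N hN.1 hN.2)
  have hl2 : 0 < log 2 := Real.log_pos (by norm_num)
  set D : ℝ := ((N0 + 1 : ℕ) + 1) / log 2 ^ 3 with hD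
  have hDpos : 0 < D := by positivity
  set C : ℝ := C1 + C2 + 2 * C3 + D + N0 + 1 with hC
  have hcount : ∀ (c : ℝ) (y : ℝ), 2 ≤ y → c + D ≤ C → (c + D) * log y ^ 3 ≤ C * log y ^ 3 := by
    intro c y hy hc
    have : 0 ≤ log y ^ 3 := pow_nonneg (Real.log_nonneg (by linarith)) 3
    exact mul_le_mul_of_nonneg_right hc this
  have hN0' : (0 : ℝ) ≤ N0 := Nat.cast_nonneg _
  refine ⟨{p | p.Prime ∧ ((∃ j, ∃ m ∈ M j, p ∣ m) ∨ p ≤ N0 + 1)},
    {m | (∃ j, m ∈ M j) ∨ m ≤ N0 + 1}, C, fun p hp => hp.1, ?_, ?_, ?_⟩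
  · intro y hy
    obtain ⟨ha, hb⟩ := h2 M hM y hy
    obtain ⟨hc, hd⟩ := count_aux (B := N0 + 1) hy
      (fun p => p.Prime ∧ ((∃ j, ∃ m ∈ M j, p ∣ m) ∨ p ≤ N0 + 1))
      (fun p hp => by
        rcases hp.2 with h | h
        · exact Or.inl ⟨hp.1, h⟩
        · exact Or.inr h) ha hb
    refine ⟨hc, hd.trans (hcount C2 y hy ?_)⟩
    rw [hC]; linarith
  · intro y hy
    obtain ⟨ha, hb⟩ := h1 M hM y hy
    obtain ⟨hc, hd⟩ := count_aux (B := N0 + 1) hy
      (fun m => (∃ j, m ∈ M j) ∨ m ≤ N0 + 1) (fun m hm => hm) ha hb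
    refine ⟨hc, hd.trans (hcount C1 y hy ?_)⟩
    rw [hC]; linarith
  · intro x hx
    have hx0 : 0 ≤ x := by linarith
    set N := ⌊x⌋₊ with hN
    have hN117 : 117 ≤ N := Nat.le_floor (by exact_mod_cast hx)
    rcases lt_or_ge N N0 with hlt | hge
    · -- small N
      have hn1 : N + 1 ≠ 1 := by omega
      refine ⟨N + 1, (N + 1) / (N + 1).minFac, (N + 1).minFac, ?_, ?_, ?_, ?_,
        Nat.minFac_prime hn1, ?_, ?_⟩
      · push_cast
        rw [hN]
        exact Nat.lt_floor_add_one x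
      · push_cast
        have ha : (N : ℝ) ≤ x := by rw [hN]; exact Nat.floor_le hx0
        have hb : (1 : ℝ) < √x := by
          rw [Real.lt_sqrt (by norm_num)]; linarith
        linarith
      · exact (Nat.div_mul_cancel (Nat.minFac_dvd _)).symm
      · right
        exact (Nat.div_le_self _ _).trans (by omega)
      · intro p hp hd _
        exact ⟨hp, Or.inr ((Nat.le_of_dvd (by omega) hd).trans (by omega))⟩
      · have ha := omega_le_self (N + 1) (by omega)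
        obtain ⟨hb, hc⟩ := loglog_ge (N + 1) (by omega)
        have hd : ((ArithmeticFunction.cardFactors (N + 1) : ℕ) : ℝ) ≤ N0 := by
          exact_mod_cast ha.trans (by omega)
        have he : (N0 : ℝ) ≤ C := by rw [hC]; linarith
        have : 0 ≤ C := le_trans hN0' he
        nlinarith
    · by_cases hpr : ∃ q ∈ J N, q.Prime
      · obtain ⟨q, hq, hqp⟩ := hpr
        obtain ⟨ha, hb⟩ := mem_J_real hx0 hN hq
        refine ⟨q, 1, q, ha, hb, by rw [one_mul], Or.inr (by omega), hqp, ?_, ?_⟩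
        · intro p hp hd hle
          rw [Nat.prime_dvd_prime_iff_eq hp hqp] at hd
          subst hd
          have := hp.two_le
          nlinarith
        · rw [ArithmeticFunction.cardFactors_apply_prime hqp]
          have hq118 : 118 ≤ q := by
            rw [J, Finset.mem_Ioo] at hq
            omega
          obtain ⟨hc, hd⟩ := loglog_ge q hq118
          have he : (1 : ℝ) ≤ C := by rw [hC]; linarith
          push_cast
          nlinarith
      · push Not at hpr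
        obtain ⟨j, m, hm⟩ := hhit N ⟨hge, hpr⟩
        rw [Finset.mem_inter] at hm
        obtain ⟨hmA, hmM⟩ := hm
        rw [mem_AA] at hmA
        obtain ⟨hmt, hm1, hmr, q, hqp, hqt, hqJ⟩ := hmA
        obtain ⟨ha, hb⟩ := mem_J_real hx0 hN hqJ
        refine ⟨m * q, m, q, ha, hb, rfl, Or.inl ⟨j, hmM⟩, hqp, ?_, ?_⟩
        · intro p hp hd hle
          rcases (Nat.Prime.dvd_mul hp).1 hd with h | h
          · exact ⟨hp, Or.inl ⟨j, m, hmM, h⟩⟩
          · rw [Nat.prime_dvd_prime_iff_eq hp hqp] at h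
            subst h
            exact absurd (big_q hqJ hqt) (by omega)
        · have hm0 : m ≠ 0 := by omega
          rw [ArithmeticFunction.cardFactors_mul hm0 hqp.ne_zero,
            ArithmeticFunction.cardFactors_apply_prime hqp]
          have hn118 : 118 ≤ m * q := by
            rw [J, Finset.mem_Ioo] at hqJ
            omega
          obtain ⟨hc, hd⟩ := loglog_ge (m * q) hn118
          have hR := (hM j).1 hmM
          have ho := h3 j m hR
          rw [RR, Finset.mem_filter, Finset.mem_Ico] at hR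
          have h2j : 2 ^ j ≤ m * q := hR.1.1.trans (Nat.le_mul_of_pos_right m hqp.pos)
          have h2j' : (j : ℝ) * log 2 ≤ log ((m * q : ℕ) : ℝ) := by
            rw [← Real.log_pow]
            apply Real.log_le_log (by positivity)
            exact_mod_cast h2j
          have hlg2 := Real.log_two_gt_d9
          have hjle : (j : ℝ) + 2 ≤ log ((m * q : ℕ) : ℝ) ^ 2 := by
            nlinarith
          have hlj : log ((j : ℝ) + 2) ≤ 2 * log (log ((m * q : ℕ) : ℝ)) := by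
            rw [← Nat.cast_two (R := ℝ), ← Real.log_pow]
            apply Real.log_le_log (by positivity)
            simpa using hjle
          push_cast at *
          have hfin : C3 * log ((j : ℝ) + 2) ≤ C3 * (2 * log (log ((m : ℝ) * q))) :=
            mul_le_mul_of_nonneg_left hlj hC3.le
          have hC' : 2 * C3 + 1 ≤ C := by rw [hC]; linarith
          nlinarith

end Pool.Agent.PSQ
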