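import Pool.Agent.PSQ.PSum

/-!
# PSQ module GOOD: many rough numbers in `J N` have a prime factor `≥ t + 2`

`J N ∩ rough` is the union of `GG N z`, of
`Sq = {n : p² ∣ n for a prime z < p ≤ t + 1}` (at most `∑ (t/p² + 2) ≤ t/z + 2 π(t+1)`
`≤ 0.01 V t` elements: `mult_J`, `card_PP_le`, `V_log_ge`, `zz_tendsto`) and of
`Bad = {n rough, squarefree, all prime factors in (z, t+1]}`; for `n ∈ Bad`:
`2 log t ≤ log n = ∑_{p ∣ n} log p`, so
`2 log t |Bad| ≤ ∑_{z < p ≤ t+1} log p cnt N z p ≤ 1.2 V t log t` (`prime_sum`).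
With `rough_count`: `|GG| ≥ (0.98 - 0.01 - 0.6) V t`.
-/

set_option autoImplicit false

namespace Pool.Agent.PSQ

open Finset Real Filter

private lemma log_sqfree {n : ℕ} (hn : Squarefree n) :
    Real.log n = ∑ p ∈ n.primeFactors, Real.log p := by
  conv_lhs => rw [← Nat.prod_primeFactors_of_squarefree hn]
  rw [Nat.cast_prod, Real.log_prod]
  intro p hp
  exact_mod_cast (Nat.prime_of_mem_primeFactors hp).ne_zero

open scoped Classical in
/-- squarefree rough numbers all of whose prime factors are small -/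
private noncomputable def Bad (N z : ℕ) : Finset ℕ :=
  (J N).filter (fun n => Rough z n ∧ Squarefree n ∧
    ∀ q : ℕ, q.Prime → q ∣ n → q ≤ Nat.sqrt N + 1)

private lemma cover (N z : ℕ) : (J N).filter (fun n => 1 ∣ n ∧ Rough z n) ⊆
    (GG N z ∪ ((PP (Nat.sqrt N + 1)).filter (fun p => z < p)).biUnion
      (fun p => (J N).filter (fun n => p ^ 2 ∣ n))) ∪ Bad N z := by
  classical
  intro n hn
  obtain ⟨hnJ, -, hr⟩ := mem_filter.1 hn
  by_cases hq : ∃ q : ℕ, q.Prime ∧ Nat.sqrt N + 2 ≤ q ∧ q ∣ n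
  · exact mem_union_left _ (mem_union_left _ (mem_GG.2 ⟨hnJ, hr, hq⟩))
  · have hsmall : ∀ q : ℕ, q.Prime → q ∣ n → q ≤ Nat.sqrt N + 1 := by
      intro q hqp hqn
      by_contra hcon
      exact hq ⟨q, hqp, by omega, hqn⟩
    by_cases hsq : Squarefree n
    · refine mem_union_right _ ?_
      unfold Bad
      exact mem_filter.2 ⟨hnJ, hr, hsq, hsmall⟩
    · rw [Nat.squarefree_iff_prime_squarefree] at hsq
      push Not at hsq
      obtain ⟨p, hpp, hpn⟩ := hsq
      refine mem_union_left _ (mem_union_right _ (mem_biUnion.2 ⟨p, ?_, ?_⟩))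
      · have hpn' : p ∣ n := dvd_trans (dvd_mul_right p p) hpn
        exact mem_filter.2 ⟨mem_PP.2 ⟨hsmall p hpp hpn', hpp⟩, hr p hpp hpn'⟩
      · exact mem_filter.2 ⟨hnJ, by rw [pow_two]; exact hpn⟩

private lemma sum_inv_sq_le (t z : ℕ) (hz : 1 ≤ z) :
    ∑ p ∈ (PP (t + 1)).filter (fun p => z < p), (1 : ℝ) / (p : ℝ) ^ 2 ≤ 1 / z := by
  by_cases h : z ≤ t + 1
  · have h1 : (PP (t + 1)).filter (fun p => z < p) ⊆ Finset.Ioc z (t + 1) := by
      intro p hp
      obtain ⟨hp1, hp2⟩ := mem_filter.1 hp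
      exact mem_Ioc.2 ⟨hp2, (mem_PP.1 hp1).1⟩
    have h2 := sum_Ioc_inv_sq_le_sub (α := ℝ) (k := z) (n := t + 1) (by omega) h
    calc ∑ p ∈ (PP (t + 1)).filter (fun p => z < p), (1 : ℝ) / (p : ℝ) ^ 2
        ≤ ∑ p ∈ Finset.Ioc z (t + 1), (1 : ℝ) / (p : ℝ) ^ 2 :=
          Finset.sum_le_sum_of_subset_of_nonneg h1 fun p _ _ => by positivity
      _ = ∑ p ∈ Finset.Ioc z (t + 1), ((p : ℝ) ^ 2)⁻¹ := by simp only [one_div]
      _ ≤ (z : ℝ)⁻¹ - ((t + 1 : ℕ) : ℝ)⁻¹ := h2
      _ ≤ 1 / z := by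
          rw [one_div]
          have : (0 : ℝ) ≤ ((t + 1 : ℕ) : ℝ)⁻¹ := by positivity
          linarith
  · have h1 : (PP (t + 1)).filter (fun p => z < p) = ∅ := by
      rw [Finset.filter_eq_empty_iff]
      intro p hp
      have := (mem_PP.1 hp).1
      omega
    rw [h1, Finset.sum_empty]
    positivity

private lemma bad_bound (N z : ℕ) (ht : 1 ≤ Nat.sqrt N) :
    2 * Real.log (Nat.sqrt N) * ((Bad N z).card : ℝ) ≤
      ∑ p ∈ (PP (Nat.sqrt N + 1)).filter (fun p => z < p), Real.log p * (cnt N z p : ℝ) := by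
  classical
  have ht0 : (0 : ℝ) < Nat.sqrt N := by exact_mod_cast ht
  have h1 : ∀ n ∈ Bad N z, 2 * Real.log (Nat.sqrt N) ≤
      ∑ p ∈ (PP (Nat.sqrt N + 1)).filter (fun p => z < p), if p ∣ n then Real.log p else 0 := by
    intro n hn
    unfold Bad at hn
    obtain ⟨hnJ, hr, hsq, hsm⟩ := mem_filter.1 hn
    have hnN : N < n := (mem_Ioo.1 hnJ).1
    have hn0 : n ≠ 0 := by omega
    rw [← Finset.sum_filter]
    have hsub : n.primeFactors =
        ((PP (Nat.sqrt N + 1)).filter (fun p => z < p)).filter (fun p => p ∣ n) := by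
      ext p
      simp only [Nat.mem_primeFactors, mem_filter, mem_PP]
      constructor
      · rintro ⟨h1, h2, -⟩
        exact ⟨⟨⟨hsm p h1 h2, h1⟩, hr p h1 h2⟩, h2⟩
      · rintro ⟨⟨⟨_, h1⟩, _⟩, h2⟩
        exact ⟨h1, h2, hn0⟩
    rw [← hsub, ← log_sqfree hsq]
    have h2 : ((Nat.sqrt N : ℝ)) ^ 2 ≤ n := by
      have h3 := Nat.sqrt_le' N
      have h4 : Nat.sqrt N ^ 2 ≤ n := le_trans h3 hnN.le
      exact_mod_cast h4
    calc 2 * Real.log (Nat.sqrt N) = Real.log ((Nat.sqrt N : ℝ) ^ 2) := by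
          rw [Real.log_pow]; norm_num
      _ ≤ Real.log n := Real.log_le_log (by positivity) h2
  calc 2 * Real.log (Nat.sqrt N) * ((Bad N z).card : ℝ)
      = ∑ n ∈ Bad N z, 2 * Real.log (Nat.sqrt N) := by
        rw [Finset.sum_const, nsmul_eq_mul]; ring
    _ ≤ ∑ n ∈ Bad N z, ∑ p ∈ (PP (Nat.sqrt N + 1)).filter (fun p => z < p),
          (if p ∣ n then Real.log p else 0) := Finset.sum_le_sum h1
    _ = ∑ p ∈ (PP (Nat.sqrt N + 1)).filter (fun p => z < p), ∑ n ∈ Bad N z,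
          (if p ∣ n then Real.log p else 0) := Finset.sum_comm
    _ ≤ _ := by
        refine Finset.sum_le_sum fun p hp => ?_
        rw [← Finset.sum_filter, Finset.sum_const, nsmul_eq_mul, mul_comm]
        have hp1 : p.Prime := (mem_PP.1 (mem_filter.1 hp).1).2
        refine mul_le_mul_of_nonneg_left ?_ (Real.log_nonneg (by exact_mod_cast hp1.one_lt.le))
        unfold cnt
        have hsub : (Bad N z).filter (fun n => p ∣ n) ⊆
            (J N).filter (fun n => p ∣ n ∧ Rough z n) := by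
          intro n hn
          obtain ⟨hn1, hn2⟩ := mem_filter.1 hn
          unfold Bad at hn1
          obtain ⟨hn3, hn4, -⟩ := mem_filter.1 hn1
          exact mem_filter.2 ⟨hn3, hn2, hn4⟩
        exact_mod_cast Finset.card_le_card hsub

private lemma cnt_split (N z : ℕ) (hz : 1 ≤ z) :
    (cnt N z 1 : ℝ) ≤ ((GG N z).card : ℝ) + ((Nat.sqrt N : ℝ) / z +
      2 * ((PP (Nat.sqrt N + 1)).card : ℝ)) + ((Bad N z).card : ℝ) := by
  classical
  have h1 : cnt N z 1 ≤ (GG N z).card + (∑ p ∈ (PP (Nat.sqrt N + 1)).filter (fun p => z < p),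
      ((J N).filter (fun n => p ^ 2 ∣ n)).card) + (Bad N z).card := by
    unfold cnt
    refine (Finset.card_le_card (cover N z)).trans ((Finset.card_union_le _ _).trans ?_)
    refine Nat.add_le_add_right ((Finset.card_union_le _ _).trans ?_) _
    exact Nat.add_le_add_left Finset.card_biUnion_le _
  have h2 : ((∑ p ∈ (PP (Nat.sqrt N + 1)).filter (fun p => z < p),
      ((J N).filter (fun n => p ^ 2 ∣ n)).card : ℕ) : ℝ) ≤
      (Nat.sqrt N : ℝ) / z + 2 * ((PP (Nat.sqrt N + 1)).card : ℝ) := by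
    push_cast
    have h3 : ∀ p ∈ (PP (Nat.sqrt N + 1)).filter (fun p => z < p),
        (((J N).filter (fun n => p ^ 2 ∣ n)).card : ℝ) ≤
        (Nat.sqrt N : ℝ) * (1 / (p : ℝ) ^ 2) + 2 := by
      intro p hp
      have hp1 : p.Prime := (mem_PP.1 (mem_filter.1 hp).1).2
      have h4 := mult_J N (p ^ 2) (Nat.one_le_pow _ _ hp1.pos)
      have h5 := (abs_le.1 h4).2
      push_cast at h5
      rw [mul_one_div]
      linarith
    refine (Finset.sum_le_sum h3).trans ?_
    rw [Finset.sum_add_distrib, ← Finset.mul_sum, Finset.sum_const, nsmul_eq_mul]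
    have h6 := sum_inv_sq_le (Nat.sqrt N) z hz
    have h7 : (Nat.sqrt N : ℝ) * ∑ p ∈ (PP (Nat.sqrt N + 1)).filter (fun p => z < p),
        (1 : ℝ) / (p : ℝ) ^ 2 ≤ (Nat.sqrt N : ℝ) / z := by
      calc _ ≤ (Nat.sqrt N : ℝ) * (1 / z) := mul_le_mul_of_nonneg_left h6 (by positivity)
        _ = _ := by ring
    have h8 : (((PP (Nat.sqrt N + 1)).filter (fun p => z < p)).card : ℝ) ≤
        ((PP (Nat.sqrt N + 1)).card : ℝ) := by
      exact_mod_cast Finset.card_le_card (Finset.filter_subset _ _)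
    linarith
  have h1' : (cnt N z 1 : ℝ) ≤ ((GG N z).card : ℝ) +
      ((∑ p ∈ (PP (Nat.sqrt N + 1)).filter (fun p => z < p),
      ((J N).filter (fun n => p ^ 2 ∣ n)).card : ℕ) : ℝ) + ((Bad N z).card : ℝ) := by
    exact_mod_cast h1
  linarith

theorem good_count : ∃ A0 : ℝ, 100 ≤ A0 ∧ ∀ A : ℝ, A0 ≤ A → ∀ᶠ t : ℕ in atTop,
    ∀ N : ℕ, Nat.sqrt N = t → V (zz A t) * t / 3 ≤ ((GG N (zz A t)).card : ℝ) := by
  obtain ⟨A0, hA0, hp⟩ := prime_sum
  obtain ⟨c, hc, hV⟩ := V_log_ge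
  obtain ⟨C, hC, hcard⟩ := card_PP_le
  refine ⟨A0, hA0, fun A hA => ?_⟩
  have hA1 : (100 : ℝ) ≤ A := hA0.trans hA
  have hApos : 0 < A := by linarith
  have hlim : Tendsto (fun t : ℕ => Real.log (zz A t) / (zz A t : ℝ)) atTop (nhds 0) := by
    have h1 : Tendsto (fun x : ℝ => Real.log x / x) atTop (nhds 0) := by
      simpa using Real.isLittleO_log_id_atTop.tendsto_div_nhds_zero
    exact (h1.comp tendsto_natCast_atTop_atTop).comp (zz_tendsto A hA1)
  have hev1 : ∀ᶠ t : ℕ in atTop, Real.log (zz A t) / (zz A t : ℝ) < 0.005 * c :=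
    hlim.eventually_lt_const (by positivity)
  have hev2 : ∀ᶠ t : ℕ in atTop, 800 * C / (c * A) ≤ Real.log (Real.log t) :=
    (Real.tendsto_log_atTop.comp (Real.tendsto_log_atTop.comp
      tendsto_natCast_atTop_atTop)).eventually_ge_atTop _
  filter_upwards [hp A hA, rough_count A hA1, hV A hA1,
    (zz_tendsto A hA1).eventually_ge_atTop 3, hev1, hev2, eventually_ge_atTop 3] with
    t h1 h2 h3 h4 h5 h6 h7 N hN
  have e1 := h1 N hN
  have e2 := h2 N hN
  have e3 := cnt_split N (zz A t) (by omega)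
  have e4 := bad_bound N (zz A t) (by omega)
  rw [hN] at e3 e4
  have ht : (3 : ℝ) ≤ t := by exact_mod_cast h7
  have hlt : 1 < Real.log t := by
    rw [Real.lt_log_iff_exp_lt (by linarith)]
    have := Real.exp_one_lt_d9
    linarith
  have hVp := V_pos (zz A t)
  have hz : (3 : ℝ) ≤ (zz A t : ℝ) := by exact_mod_cast h4
  have hlz : 0 < Real.log (zz A t) := Real.log_pos (by linarith)
  -- (a)
  have ea : (t : ℝ) / (zz A t) ≤ 0.005 * (V (zz A t) * t) := by
    have h8 : 1 / (zz A t : ℝ) ≤ 0.005 * V (zz A t) := by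
      have h9 : 1 / (zz A t : ℝ) ≤ 0.005 * (c / Real.log (zz A t)) := by
        rw [div_lt_iff₀ (by linarith)] at h5
        rw [← mul_div_assoc, div_le_div_iff₀ (by linarith) hlz]
        linarith
      have h10 := h3.2
      linarith
    calc (t : ℝ) / (zz A t) = t * (1 / (zz A t : ℝ)) := by ring
      _ ≤ t * (0.005 * V (zz A t)) := mul_le_mul_of_nonneg_left h8 (by linarith)
      _ = _ := by ring
  -- (b)
  have eb : 2 * ((PP (t + 1)).card : ℝ) ≤ 0.005 * (V (zz A t) * t) := by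
    have h8 := hcard (t + 1) (by omega)
    have h9 : C * ((t + 1 : ℕ) : ℝ) / Real.log ((t + 1 : ℕ) : ℝ) ≤ C * (2 * t) / Real.log t := by
      push_cast
      refine div_le_div₀ (by positivity) ?_ (by linarith) ?_
      · exact mul_le_mul_of_nonneg_left (by linarith) hC.le
      · exact Real.log_le_log (by linarith) (by linarith)
    have h10 : 800 * C ≤ V (zz A t) * Real.log t := by
      rw [div_le_iff₀ (by positivity)] at h6
      have h11 := h3.1
      nlinarith
    have h12 : C * (2 * t) / Real.log t ≤ 0.0025 * (V (zz A t) * t) := by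
      rw [div_le_iff₀ (by linarith)]
      nlinarith
    linarith
  -- (c)
  have ec : ((Bad N (zz A t)).card : ℝ) ≤ 0.6 * (V (zz A t) * t) := by
    have h8 : 2 * Real.log t * ((Bad N (zz A t)).card : ℝ) ≤ 1.2 * V (zz A t) * t * Real.log t :=
      e4.trans e1
    have h9 : (0 : ℝ) < 2 * Real.log t := by linarith
    refine le_of_mul_le_mul_left ?_ h9
    calc 2 * Real.log t * ((Bad N (zz A t)).card : ℝ) ≤ 1.2 * V (zz A t) * t * Real.log t := h8
      _ = _ := by ring
  have hpos : 0 ≤ V (zz A t) * t := by positivity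
  have e2' : 0.98 * (V (zz A t) * t) ≤ (cnt N (zz A t) 1 : ℝ) := by
    calc _ = 0.98 * V (zz A t) * t := by ring
      _ ≤ _ := e2
  linarith

end Pool.Agent.PSQ
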