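import Pool.Agent.PSQ.Par
import Pool.Agent.PSQ.Bru

/-!
# PSQ module MAINR: primes up to `Y = t^(1 - 25/A)`

`cnt N z p ≤ (t/p) (V + V/100) + t^(24/A)` (`brun_upper` with `m = mm t`, `err_small`, `zpow_le`;
`Rough z p` because `z < p`).  Sum with weights `log p`:
`≤ 1.01 V t (log Y + 2) + t^(24/A) log 4 Y ≤ 1.01 V t (log t + 2) + 1.4 t^(1 - 1/A)
 ≤ 1.02 V t log t` (as `V t log t ≥ c A t loglog t`).
-/

set_option autoImplicit false

namespace Pool.Agent.PSQ

open Finset Real Filter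

lemma ev_log_ge (C : ℝ) : ∀ᶠ t : ℕ in atTop, C ≤ log (t : ℝ) :=
  (Real.tendsto_log_atTop.comp tendsto_natCast_atTop_atTop).eventually_ge_atTop C

lemma ev_loglog_ge (C : ℝ) : ∀ᶠ t : ℕ in atTop, C ≤ log (log (t : ℝ)) :=
  (Real.tendsto_log_atTop.comp
    (Real.tendsto_log_atTop.comp tendsto_natCast_atTop_atTop)).eventually_ge_atTop C

theorem main_range (A : ℝ) (hA : 100 ≤ A) : ∀ᶠ t : ℕ in atTop, ∀ N : ℕ, Nat.sqrt N = t →
    ∑ p ∈ (PP (YY A t)).filter (fun p => zz A t < p), log p * (cnt N (zz A t) p : ℝ) ≤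
      1.02 * V (zz A t) * t * log t := by
  obtain ⟨c, hc, hV⟩ := V_log_ge
  have hA0 : (0 : ℝ) < A := by linarith
  filter_upwards [hV A hA, zpow_le A hA, err_small A hA, YY_bounds A hA, ev_log_ge 404,
    ev_loglog_ge (280 / (c * A)), eventually_ge_atTop 1] with t h1 h2 h3 h4 h5 h6 h7
  intro N hN
  have ht1 : (1 : ℝ) ≤ t := by exact_mod_cast h7
  have ht0 : (0 : ℝ) < t := by linarith
  have hVpos := V_pos (zz A t)
  have hterm : ∀ p ∈ (PP (YY A t)).filter (fun p => zz A t < p),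
      log p * (cnt N (zz A t) p : ℝ) ≤
        1.01 * V (zz A t) * t * (log p / p) + (t : ℝ) ^ (24 / A) * log p := by
    intro p hp
    rw [mem_filter, mem_PP] at hp
    obtain ⟨⟨hpY, hpp⟩, hzp⟩ := hp
    have hp1 : 1 ≤ p := hpp.one_le
    have hp0 : (0 : ℝ) < p := by exact_mod_cast hpp.pos
    have hr : Rough (zz A t) p := by
      intro q hq hqp
      rw [(Nat.prime_dvd_prime_iff_eq hq hpp).1 hqp]
      exact hzp
    have hb := brun_upper N (zz A t) p (mm t) hp1 hr
    rw [hN] at hb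
    have hz : 2 * ((zz A t : ℝ) + 1) ^ (2 * mm t) ≤ (t : ℝ) ^ (24 / A) := by
      refine le_trans ?_ h2
      apply mul_le_mul_of_nonneg_left _ (by norm_num)
      apply pow_le_pow_right₀ _ (by omega)
      have : (0 : ℝ) ≤ zz A t := Nat.cast_nonneg _
      linarith
    have hlog : 0 ≤ log (p : ℝ) := Real.log_natCast_nonneg p
    have hc1 : (cnt N (zz A t) p : ℝ) ≤ (t : ℝ) / p * (1.01 * V (zz A t)) + (t : ℝ) ^ (24 / A) := by
      have h8 : (t : ℝ) / p * (V (zz A t) + SS (zz A t) ^ (2 * mm t + 1) /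
          (2 * mm t + 1).factorial) ≤ (t : ℝ) / p * (1.01 * V (zz A t)) := by
        apply mul_le_mul_of_nonneg_left _ (by positivity)
        linarith [h3.1]
      linarith
    calc log p * (cnt N (zz A t) p : ℝ)
        ≤ log p * ((t : ℝ) / p * (1.01 * V (zz A t)) + (t : ℝ) ^ (24 / A)) :=
          mul_le_mul_of_nonneg_left hc1 hlog
      _ = _ := by ring
  have hsum1 : ∑ p ∈ (PP (YY A t)).filter (fun p => zz A t < p), log (p : ℝ) / p ≤
      log (YY A t) + 2 := by
    refine le_trans ?_ (sum_log_div_le (YY A t) h4.1)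
    apply sum_le_sum_of_subset_of_nonneg (filter_subset _ _)
    intro p _ _
    exact div_nonneg (Real.log_natCast_nonneg p) (Nat.cast_nonneg p)
  have hsum2 : ∑ p ∈ (PP (YY A t)).filter (fun p => zz A t < p), log (p : ℝ) ≤
      log 4 * (YY A t) := by
    refine le_trans ?_ (sum_log_le (YY A t))
    apply sum_le_sum_of_subset_of_nonneg (filter_subset _ _)
    intro p _ _
    exact Real.log_natCast_nonneg p
  have hlogY : log (YY A t : ℝ) ≤ log t := by
    refine h4.2.1.trans ?_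
    have h8 : 0 ≤ 25 / A := by positivity
    nlinarith
  have hlog4 : log 4 ≤ 1.4 := by
    have : log (4 : ℝ) = 2 * log 2 := by
      rw [show (4 : ℝ) = 2 ^ 2 by norm_num, Real.log_pow]; norm_num
    rw [this]
    have := Real.log_two_lt_d9
    linarith
  have hpowpos : (0 : ℝ) < (t : ℝ) ^ (24 / A) := Real.rpow_pos_of_pos ht0 _
  have hpow1 : (t : ℝ) ^ (1 - 1 / A) ≤ t := by
    calc (t : ℝ) ^ (1 - 1 / A) ≤ (t : ℝ) ^ (1 : ℝ) := by
          apply Real.rpow_le_rpow_of_exponent_le ht1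
          have : 0 ≤ 1 / A := by positivity
          linarith
      _ = t := Real.rpow_one _
  calc ∑ p ∈ (PP (YY A t)).filter (fun p => zz A t < p), log p * (cnt N (zz A t) p : ℝ)
      ≤ ∑ p ∈ (PP (YY A t)).filter (fun p => zz A t < p),
        (1.01 * V (zz A t) * t * (log p / p) + (t : ℝ) ^ (24 / A) * log p) := sum_le_sum hterm
    _ = 1.01 * V (zz A t) * t * ∑ p ∈ (PP (YY A t)).filter (fun p => zz A t < p), log (p : ℝ) / p
        + (t : ℝ) ^ (24 / A) * ∑ p ∈ (PP (YY A t)).filter (fun p => zz A t < p), log (p : ℝ) := by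
        rw [sum_add_distrib, ← mul_sum, ← mul_sum]
    _ ≤ 1.01 * V (zz A t) * t * (log t + 2) + (t : ℝ) ^ (24 / A) * (1.4 * YY A t) := by
        apply add_le_add
        · apply mul_le_mul_of_nonneg_left _ (by positivity)
          linarith
        · apply mul_le_mul_of_nonneg_left _ hpowpos.le
          refine hsum2.trans ?_
          exact mul_le_mul_of_nonneg_right hlog4 (Nat.cast_nonneg _)
    _ ≤ 1.01 * V (zz A t) * t * (log t + 2) + 1.4 * t := by
        have := h4.2.2.2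
        nlinarith
    _ ≤ 1.02 * V (zz A t) * t * log t := by
        have h8 : c * A * log (log t) ≤ V (zz A t) * log t := h1.1
        have h9 : 280 ≤ c * A * log (log t) := by
          have : 280 / (c * A) * (c * A) = 280 := by field_simp
          have h10 : 280 / (c * A) * (c * A) ≤ log (log t) * (c * A) :=
            mul_le_mul_of_nonneg_right h6 (by positivity)
          linarith
        have h11 : 280 ≤ V (zz A t) * log t := h9.trans h8
        have h12 : 404 * (V (zz A t) * t) ≤ log t * (V (zz A t) * t) :=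
          mul_le_mul_of_nonneg_right h5 (by positivity)
        have h13 : 280 * (t : ℝ) ≤ V (zz A t) * log t * t :=
          mul_le_mul_of_nonneg_right h11 ht0.le
        nlinarith

/-- the number of rough numbers in `J N` -/
theorem rough_count (A : ℝ) (hA : 100 ≤ A) : ∀ᶠ t : ℕ in atTop, ∀ N : ℕ, Nat.sqrt N = t →
    0.98 * V (zz A t) * t ≤ (cnt N (zz A t) 1 : ℝ) := by
  obtain ⟨c, hc, hV⟩ := V_log_ge
  have hA0 : (0 : ℝ) < A := by linarith
  have hlo : ∀ᶠ t : ℕ in atTop, log (t : ℝ) ≤ (c / 100) * (t : ℝ) ^ (1 / 2 : ℝ) := by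
    have h := (isLittleO_log_rpow_atTop (r := 1 / 2) (by norm_num)).bound
      (show (0 : ℝ) < c / 100 by positivity)
    have h' := tendsto_natCast_atTop_atTop (R := ℝ) |>.eventually h
    filter_upwards [h', eventually_ge_atTop 1] with t ht ht1
    have h1 : (1 : ℝ) ≤ t := by exact_mod_cast ht1
    rw [Real.norm_of_nonneg (Real.log_nonneg h1),
      Real.norm_of_nonneg (Real.rpow_nonneg (by linarith) _)] at ht
    exact ht
  filter_upwards [hV A hA, zpow_le A hA, err_small A hA, ev_log_ge 1,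
    ev_loglog_ge (1 / A), hlo, eventually_ge_atTop 1] with t h1 h2 h3 h5 h6 h8 h7
  intro N hN
  have ht1 : (1 : ℝ) ≤ t := by exact_mod_cast h7
  have ht0 : (0 : ℝ) < t := by linarith
  have hVpos := V_pos (zz A t)
  have hb := brun_lower N (zz A t) (mm t)
  rw [hN] at hb
  have hz : (t : ℝ) ^ (24 / A) ≤ 0.01 * V (zz A t) * t := by
    have h9 : c ≤ V (zz A t) * log t := by
      refine le_trans ?_ h1.1
      have : 1 / A * A = 1 := by field_simp
      have h10 : 1 / A * A ≤ log (log t) * A := mul_le_mul_of_nonneg_right h6 hA0.le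
      nlinarith
    have h10 : (t : ℝ) ^ (24 / A) ≤ (t : ℝ) ^ (1 / 2 : ℝ) := by
      apply Real.rpow_le_rpow_of_exponent_le ht1
      rw [div_le_iff₀ hA0]
      linarith
    have h11 : (t : ℝ) ^ (1 / 2 : ℝ) * (t : ℝ) ^ (1 / 2 : ℝ) = t := by
      rw [← Real.rpow_add ht0]; norm_num
    have h12 : (0 : ℝ) < (t : ℝ) ^ (1 / 2 : ℝ) := Real.rpow_pos_of_pos ht0 _
    have h13 : 0 < log (t : ℝ) := by linarith
    -- c t^(1/2) <= V log t t^(1/2) <= V (c/100) t
    have h14 : c * (t : ℝ) ^ (1 / 2 : ℝ) ≤ V (zz A t) * ((c / 100) * t) := by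
      calc c * (t : ℝ) ^ (1 / 2 : ℝ) ≤ V (zz A t) * log t * (t : ℝ) ^ (1 / 2 : ℝ) :=
            mul_le_mul_of_nonneg_right h9 h12.le
        _ ≤ V (zz A t) * ((c / 100) * (t : ℝ) ^ (1 / 2 : ℝ)) * (t : ℝ) ^ (1 / 2 : ℝ) := by
            apply mul_le_mul_of_nonneg_right _ h12.le
            exact mul_le_mul_of_nonneg_left h8 hVpos.le
        _ = V (zz A t) * ((c / 100) * ((t : ℝ) ^ (1 / 2 : ℝ) * (t : ℝ) ^ (1 / 2 : ℝ))) := by ring
        _ = V (zz A t) * ((c / 100) * t) := by rw [h11]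
    have h15 : (t : ℝ) ^ (1 / 2 : ℝ) ≤ 0.01 * V (zz A t) * t := by
      have h16 : c * (t : ℝ) ^ (1 / 2 : ℝ) ≤ c * (0.01 * V (zz A t) * t) := by
        refine h14.trans (le_of_eq ?_)
        ring
      exact le_of_mul_le_mul_left h16 hc
    exact h10.trans h15
  have h9 : (t : ℝ) * (0.99 * V (zz A t)) ≤ (t : ℝ) * (V (zz A t) -
      SS (zz A t) ^ (2 * mm t + 2) / (2 * mm t + 2).factorial) := by
    apply mul_le_mul_of_nonneg_left _ ht0.le
    linarith [h3.2]
  linarith

end Pool.Agent.PSQ
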