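import Pool.Agent.PSQ.Good

/-!
# PSQ module MASS: the harmonic mass of the available factors

If `J N` contains no prime, every `n ∈ GG N z` is `m q`, `q ≥ t + 2` prime, `m ∈ AA N z`
(`m < (t+2)²/(t+2)`, `m ≠ 1` because `n` is not prime, `m ∣ n` is rough), and for given `m` at most
`t/m + 1 ≤ 3 t/m` elements of `J N` are divisible by `m` (`m ≤ t + 1 ≤ 2t`).
-/

set_option autoImplicit false

namespace Pool.Agent.PSQ

open Finset Real Filter

theorem card_mult_J_le (N m : ℕ) (hm : 0 < m) :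
    (((J N).filter (fun n => m ∣ n)).card : ℝ) ≤ (Nat.sqrt N : ℝ) / m + 1 := by
  have h1 : ((J N).filter (fun n => m ∣ n)).card ≤
      (Finset.Ioc (N / m) ((N + Nat.sqrt N) / m)).card := by
    apply Finset.card_le_card_of_injOn (fun n => n / m)
    · intro n hn
      have hn' := Finset.mem_filter.1 (Finset.mem_coe.1 hn)
      obtain ⟨hn1, hn2⟩ := hn'
      rw [J, Finset.mem_Ioo] at hn1
      obtain ⟨c, rfl⟩ := hn2
      simp only [Finset.coe_Ioc, Set.mem_Ioc]
      rw [Nat.mul_div_cancel_left c hm]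
      constructor
      · exact (Nat.div_lt_iff_lt_mul hm).2 (by rw [mul_comm]; exact hn1.1)
      · exact (Nat.le_div_iff_mul_le hm).2 (by rw [mul_comm]; exact hn1.2.le)
    · intro a ha b hb hab
      have ha' := (Finset.mem_filter.1 (Finset.mem_coe.1 ha)).2
      have hb' := (Finset.mem_filter.1 (Finset.mem_coe.1 hb)).2
      obtain ⟨c, rfl⟩ := ha'
      obtain ⟨c', rfl⟩ := hb'
      simp only [Nat.mul_div_cancel_left _ hm] at hab
      rw [hab]
  rw [Nat.card_Ioc] at h1
  have h2 : ((((N + Nat.sqrt N) / m - N / m : ℕ)) : ℝ)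
      = (((N + Nat.sqrt N) / m : ℕ) : ℝ) - ((N / m : ℕ) : ℝ) := by
    rw [Nat.cast_sub (Nat.div_le_div_right (Nat.le_add_right _ _))]
  have h3 : (((N + Nat.sqrt N) / m : ℕ) : ℝ) ≤ ((N + Nat.sqrt N : ℕ) : ℝ) / m := Nat.cast_div_le
  have h4 : (N : ℝ) / m ≤ ((N / m : ℕ) : ℝ) + 1 := by
    have := Nat.lt_floor_add_one ((N : ℝ) / m)
    rw [Nat.floor_div_natCast, Nat.floor_natCast] at this
    exact this.le
  have h5 : (((J N).filter (fun n => m ∣ n)).card : ℝ) ≤
      ((((N + Nat.sqrt N) / m - N / m : ℕ)) : ℝ) := by exact_mod_cast h1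
  push_cast at h3
  rw [add_div] at h3
  linarith

theorem mass_ge (N z : ℕ) (hN : 1 ≤ Nat.sqrt N) (hno : ∀ q ∈ J N, ¬ q.Prime) :
    ((GG N z).card : ℝ) ≤ 3 * Nat.sqrt N * ∑ m ∈ AA N z, 1 / (m : ℝ) := by
  classical
  set t := Nat.sqrt N with ht
  have hlt : N < (t + 1) * (t + 1) := Nat.lt_succ_sqrt N
  have hsub : GG N z ⊆ (AA N z).biUnion (fun m => (J N).filter (fun n => m ∣ n)) := by
    intro n hn
    rw [mem_GG] at hn
    obtain ⟨hJ, hR, q, hq, hqt, m, rfl⟩ := hn
    rw [Finset.mem_biUnion]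
    have hJ' := hJ
    rw [J, Finset.mem_Ioo] at hJ'
    have hn0 : 0 < q * m := lt_of_le_of_lt (Nat.zero_le _) hJ'.1
    have hm0 : 0 < m := by
      rcases Nat.eq_zero_or_pos m with h | h
      · subst h; simp at hn0
      · exact h
    have hmt : m < t + 2 := by
      by_contra hcon
      push Not at hcon
      have : (t + 2) * (t + 2) ≤ q * m := Nat.mul_le_mul hqt hcon
      have h2 := hJ'.2
      rw [← ht] at h2
      nlinarith
    have hm1 : 1 < m := by
      rcases Nat.lt_or_ge 1 m with h | h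
      · exact h
      · exfalso
        have : m = 1 := le_antisymm h hm0
        subst this
        exact hno _ hJ (by simpa using hq)
    refine ⟨m, ?_, ?_⟩
    · rw [mem_AA]
      refine ⟨hmt, hm1, ?_, q, hq, hqt, ?_⟩
      · intro p hp hpm
        exact hR p hp (hpm.mul_left q)
      · rw [mul_comm]; exact hJ
    · rw [Finset.mem_filter]
      exact ⟨hJ, dvd_mul_left m q⟩
  have h1 : ((GG N z).card : ℝ) ≤ ∑ m ∈ AA N z, (((J N).filter (fun n => m ∣ n)).card : ℝ) := by
    have := (Finset.card_le_card hsub).trans Finset.card_biUnion_le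
    exact_mod_cast this
  refine h1.trans ?_
  rw [Finset.mul_sum]
  apply Finset.sum_le_sum
  intro m hm
  rw [mem_AA] at hm
  obtain ⟨hmt, hm1, -, -⟩ := hm
  have hm0 : 0 < m := by omega
  have h2 := card_mult_J_le N m hm0
  have hmR : (0 : ℝ) < m := by exact_mod_cast hm0
  refine h2.trans ?_
  rw [← ht]
  have h3 : (m : ℝ) ≤ 2 * t := by
    have : m ≤ 2 * t := by omega
    exact_mod_cast this
  have h4 : (1 : ℝ) ≤ 2 * t / m := by
    rw [le_div_iff₀ hmR]; linarith
  calc (t : ℝ) / m + 1 ≤ t / m + 2 * t / m := by linarith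
    _ = 3 * t * (1 / m) := by ring

end Pool.Agent.PSQ
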