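import Pool.Agent.PSQ.Par
import Pool.Agent.PSQ.Sel

/-!
# PSQ module MIDR: primes between `Y` and `t / z^8`

For a prime `p ≤ t / z^8`, `cnt_le_short` with `R = z`:
`cnt ≤ 2 (t/p + 1)/log(z+1) + z^4 ≤ (t/p) (2 (1 + z^(-8)) / log z + z^(-4)) ≤ 3 (t/p) / log z`
(`z ≥ 3`), and `∑_{Y < p ≤ t/z^8} log p / p ≤ log t + 2 - (log Y - 3) ≤ (25/A) log t + 6`
(`sum_log_div_le`, `sum_log_div_ge`, `YY_bounds`; if `t / z^8 < Y` the sum is empty, but
`zpow8_le` says `Y ≤ t / z^8`).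
-/

set_option autoImplicit false

namespace Pool.Agent.PSQ

open Finset Real Filter

/-- one prime of the middle range -/
lemma mid_one (N z p : ℕ) (hz : 3 ≤ z) (hp : 1 ≤ p) (hpt : p ≤ Nat.sqrt N / z ^ 8) :
    (cnt N z p : ℝ) ≤ 3 * ((Nat.sqrt N : ℝ) / p) / log z := by
  have hz3 : (3 : ℝ) ≤ z := by exact_mod_cast hz
  have hpp : (0 : ℝ) < p := by exact_mod_cast hp
  have hmul : p * z ^ 8 ≤ Nat.sqrt N := by
    have := Nat.mul_le_of_le_div _ _ _ hpt
    simpa using this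
  have hu : (z : ℝ) ^ 8 ≤ (Nat.sqrt N : ℝ) / p := by
    rw [le_div_iff₀ hpp]
    have : ((p * z ^ 8 : ℕ) : ℝ) ≤ (Nat.sqrt N : ℝ) := by exact_mod_cast hmul
    push_cast at this
    linarith
  have h1 := cnt_le_short N z p z (by omega) le_rfl hp
  set u : ℝ := (Nat.sqrt N : ℝ) / p with hudef
  have hl1 : (1 : ℝ) ≤ log z := by
    rw [Real.le_log_iff_exp_le (by linarith)]
    have := Real.exp_one_lt_d9
    linarith
  have hl0 : (0 : ℝ) < log z := by linarith
  have hlz : log z ≤ z := by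
    have := Real.log_le_sub_one_of_pos (show (0 : ℝ) < z by linarith)
    linarith
  have hl2 : log z ≤ log ((z : ℝ) + 1) := Real.log_le_log (by linarith) (by linarith)
  have hz5 : (1 : ℝ) ≤ (z : ℝ) ^ 5 := one_le_pow₀ (by linarith)
  have hz8 : 27 * (z : ℝ) ^ 5 ≤ (z : ℝ) ^ 8 := by
    have h3 : (27 : ℝ) ≤ (z : ℝ) ^ 3 := by
      calc (27 : ℝ) = 3 ^ 3 := by norm_num
        _ ≤ (z : ℝ) ^ 3 := pow_le_pow_left₀ (by norm_num) hz3 3
    calc 27 * (z : ℝ) ^ 5 ≤ (z : ℝ) ^ 3 * (z : ℝ) ^ 5 :=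
          mul_le_mul_of_nonneg_right h3 (by positivity)
      _ = (z : ℝ) ^ 8 := by ring
  have hu0 : 0 ≤ u := le_trans (by positivity) hu
  have h2 : 2 * (u + 1) / log ((z : ℝ) + 1) ≤ 2 * (u + 1) / log z :=
    div_le_div_of_nonneg_left (by linarith) hl0 hl2
  have h3 : 2 * (u + 1) / log z + (z : ℝ) ^ 4 ≤ 3 * u / log z := by
    rw [div_add' _ _ _ hl0.ne', div_le_div_iff_of_pos_right hl0]
    have : (z : ℝ) ^ 4 * log z ≤ (z : ℝ) ^ 5 := by
      calc (z : ℝ) ^ 4 * log z ≤ (z : ℝ) ^ 4 * z := mul_le_mul_of_nonneg_left hlz (by positivity)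
        _ = (z : ℝ) ^ 5 := by ring
    linarith
  linarith

theorem mid_range (A : ℝ) (hA : 100 ≤ A) : ∀ᶠ t : ℕ in atTop, ∀ N : ℕ, Nat.sqrt N = t →
    ∑ p ∈ (PP (t / (zz A t) ^ 8)).filter (fun p => YY A t < p ∧ zz A t < p),
      log p * (cnt N (zz A t) p : ℝ) ≤
      3 * t / log (zz A t) * (25 / A * log t + 6) := by
  filter_upwards [zz_bounds A hA, zpow8_le A hA, YY_bounds A hA, eventually_ge_atTop 1] with
    t hzb h8 hY ht1 N hN
  set z := zz A t with hz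
  set Y := YY A t with hYdef
  set W := t / z ^ 8 with hW
  have hz3 : 3 ≤ z := hzb.1
  have hz3' : (3 : ℝ) ≤ z := by exact_mod_cast hz3
  have hl1 : (1 : ℝ) ≤ log z := by
    rw [Real.le_log_iff_exp_le (by linarith)]
    have := Real.exp_one_lt_d9
    linarith
  have hl0 : (0 : ℝ) < log z := by linarith
  have htr : (1 : ℝ) ≤ t := by exact_mod_cast ht1
  have hWt : (W : ℝ) ≤ t := by exact_mod_cast Nat.div_le_self t (z ^ 8)
  have hY1 : 1 ≤ Y := hY.1
  have hW1 : 1 ≤ W := le_trans hY1 h8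
  -- termwise
  have hterm : ∀ p ∈ (PP W).filter (fun p => Y < p ∧ z < p),
      log p * (cnt N z p : ℝ) ≤ 3 * t / log z * (log p / p) := by
    intro p hp
    rw [Finset.mem_filter, mem_PP] at hp
    have hp1 : 1 ≤ p := hp.1.2.one_lt.le
    have hpp : (1 : ℝ) ≤ p := by exact_mod_cast hp1
    have h := mid_one N z p hz3 hp1 (by rw [hN]; exact hp.1.1)
    rw [hN] at h
    calc log p * (cnt N z p : ℝ) ≤ log p * (3 * ((t : ℝ) / p) / log z) :=
          mul_le_mul_of_nonneg_left h (Real.log_nonneg hpp)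
      _ = 3 * t / log z * (log p / p) := by ring
  have hsum := Finset.sum_le_sum hterm
  rw [← Finset.mul_sum] at hsum
  refine le_trans hsum ?_
  refine mul_le_mul_of_nonneg_left ?_ (by positivity)
  -- the Mertens sum
  have hsub : (PP W).filter (fun p => Y < p ∧ z < p) ⊆ PP W \ PP Y := by
    intro p hp
    rw [Finset.mem_filter] at hp
    rw [Finset.mem_sdiff, mem_PP, mem_PP]
    refine ⟨mem_PP.1 hp.1, fun h => ?_⟩
    omega
  have hPPsub : PP Y ⊆ PP W := by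
    intro p hp
    rw [mem_PP] at hp ⊢
    exact ⟨le_trans hp.1 h8, hp.2⟩
  have hnn : ∀ p ∈ PP W, 0 ≤ log (p : ℝ) / p := by
    intro p hp
    have hpp : (1 : ℝ) ≤ p := by exact_mod_cast (mem_PP.1 hp).2.one_lt.le
    exact div_nonneg (Real.log_nonneg hpp) (by linarith)
  have hle : ∑ p ∈ (PP W).filter (fun p => Y < p ∧ z < p), log (p : ℝ) / p ≤
      ∑ p ∈ PP W \ PP Y, log (p : ℝ) / p :=
    Finset.sum_le_sum_of_subset_of_nonneg hsub
      (fun p hp _ => hnn p (Finset.mem_sdiff.1 hp).1)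
  have hdiff := Finset.sum_sdiff (f := fun p : ℕ => log (p : ℝ) / p) hPPsub
  have hup := sum_log_div_le W hW1
  have hlo := sum_log_div_ge Y hY1
  have hlogW : log (W : ℝ) ≤ log t :=
    Real.log_le_log (by exact_mod_cast hW1) hWt
  have hYl := hY.2.2.1
  have e : (1 - 25 / A) * log (t : ℝ) = log t - 25 / A * log t := by ring
  linarith

end Pool.Agent.PSQ
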