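import Pool.Agent.PSQ.Mer
import Pool.Agent.PSQ.Sel

/-!
# PSQ module NEAR: primes near `t`

For `t / z^8 < p ≤ t/2` put `u = t/p ∈ [2, z^8)`, `R = ⌊u^(1/8)⌋ ∈ [1, z]`, `R + 1 ≥ u^(1/8)`:
`cnt ≤ 2 (u + 1) · 8 / log u + u^(1/2) ≤ 25 u / log u` (`cnt_le_short`; `log u ≤ (2/e) √u`).
With `i = ⌊log_2 u⌋ ≥ 1`, i.e. `t/2^(i+1) < p ≤ t/2^i`:
`∑ log p · 25 u / log u ≤ (log 4 · t / 2^i) · 25 · 2^(i+1) / (i log 2) ≤ 101 t / i` (`sum_log_le`),
and `i ≤ 8 log_2 z`, so the sum over `i` is `≤ 101 t (1 + log (8 log_2 z))`.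
For `t/2 < p ≤ t + 1`: `cnt ≤ t/p + 1 ≤ 3` (`cnt_le_triv`) and `∑ log p ≤ log 4 (t+1)`.
(No parameters here: the statement holds for all `N`, `z ≥ 3`.)
-/

set_option autoImplicit false

namespace Pool.Agent.PSQ

open Finset Real Filter

private lemma near_cnt (N z p k : ℕ) (hp : p.Prime) (h1 : 2 ^ (k + 1) * p ≤ Nat.sqrt N)
    (h2 : Nat.sqrt N < 2 ^ (k + 2) * p) (h3 : Nat.sqrt N < z ^ 8 * p) :
    (cnt N z p : ℝ) ≤ 26 * 2 ^ (k + 2) / ((k + 1) * log 2) := by
  have hp0 : (0 : ℝ) < p := by exact_mod_cast hp.pos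
  set u : ℝ := (Nat.sqrt N : ℝ) / p with hu
  have hu1 : (2 : ℝ) ^ (k + 1) ≤ u := by
    rw [hu, le_div_iff₀ hp0]
    exact_mod_cast h1
  have hu2 : u < (2 : ℝ) ^ (k + 2) := by
    rw [hu, div_lt_iff₀ hp0]
    exact_mod_cast h2
  have hu3 : u < (z : ℝ) ^ 8 := by
    rw [hu, div_lt_iff₀ hp0]
    exact_mod_cast h3
  have h2k : (2 : ℝ) ≤ 2 ^ (k + 1) := by
    rw [pow_succ]
    have : (1 : ℝ) ≤ 2 ^ k := one_le_pow₀ (by norm_num)
    linarith
  have hu22 : 2 ≤ u := h2k.trans hu1
  have hu0 : 0 < u := by linarith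
  have hlu : 0 < log u := Real.log_pos (by linarith)
  set R : ℕ := ⌊u ^ (1 / 8 : ℝ)⌋₊ with hR
  have hR1 : 1 ≤ R := by
    apply Nat.le_floor
    rw [Nat.cast_one]
    exact Real.one_le_rpow (by linarith) (by norm_num)
  have hRz : R ≤ z := by
    apply Nat.floor_le_of_le
    calc u ^ (1 / 8 : ℝ) ≤ ((z : ℝ) ^ 8) ^ (1 / 8 : ℝ) :=
          Real.rpow_le_rpow hu0.le hu3.le (by norm_num)
      _ = z := by
          rw [← Real.rpow_natCast, ← Real.rpow_mul (Nat.cast_nonneg _)]
          norm_num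
  have hRle : (R : ℝ) ≤ u ^ (1 / 8 : ℝ) := Nat.floor_le (by positivity)
  have hRlt : u ^ (1 / 8 : ℝ) < R + 1 := Nat.lt_floor_add_one _
  have hlog : log u / 8 ≤ log (R + 1) := by
    have : log (u ^ (1 / 8 : ℝ)) ≤ log (R + 1) := Real.log_le_log (by positivity) hRlt.le
    rw [Real.log_rpow hu0] at this
    linarith
  have hR4 : (R : ℝ) ^ 4 ≤ √u := by
    calc (R : ℝ) ^ 4 ≤ (u ^ (1 / 8 : ℝ)) ^ 4 := pow_le_pow_left₀ (Nat.cast_nonneg _) hRle 4
      _ = √u := by
          rw [Real.sqrt_eq_rpow, ← Real.rpow_natCast, ← Real.rpow_mul hu0.le]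
          norm_num
  have hc := cnt_le_short N z p R hR1 hRz hp.one_lt.le
  rw [← hu] at hc
  have hc2 : 2 * (u + 1) / log (R + 1) ≤ 2 * (u + 1) / (log u / 8) :=
    div_le_div_of_nonneg_left (by positivity) (by positivity) hlog
  have hsq : log u ≤ 2 * √u := by
    have h4 : log u = 2 * log (√u) := by
      rw [Real.log_sqrt hu0.le]; ring
    have h5 : log (√u) ≤ √u - 1 := Real.log_le_sub_one_of_pos (Real.sqrt_pos.2 hu0)
    rw [h4]; linarith
  have hss : √u * √u = u := Real.mul_self_sqrt hu0.le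
  have h6 : 2 * (u + 1) / (log u / 8) + √u ≤ 26 * u / log u := by
    have h7 : 2 * (u + 1) / (log u / 8) + √u = (16 * (u + 1) + √u * log u) / log u := by
      field_simp
      ring
    rw [h7]
    apply div_le_div_of_nonneg_right _ hlu.le
    have h8 : √u * log u ≤ 2 * u := by
      calc √u * log u ≤ √u * (2 * √u) := mul_le_mul_of_nonneg_left hsq (Real.sqrt_nonneg _)
        _ = 2 * u := by linear_combination 2 * hss
    linarith
  have hlk : ((k : ℝ) + 1) * log 2 ≤ log u := by
    have h9 : log ((2 : ℝ) ^ (k + 1)) ≤ log u := Real.log_le_log (by positivity) hu1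
    rw [Real.log_pow] at h9
    push_cast at h9
    exact h9
  have hl2 : 0 < log 2 := Real.log_pos (by norm_num)
  calc (cnt N z p : ℝ) ≤ 2 * (u + 1) / log (R + 1) + (R : ℝ) ^ 4 := hc
    _ ≤ 2 * (u + 1) / (log u / 8) + √u := add_le_add hc2 hR4
    _ ≤ 26 * u / log u := h6
    _ ≤ 26 * 2 ^ (k + 2) / ((k + 1) * log 2) := by
        apply div_le_div₀ (by positivity) _ (by positivity) hlk
        linarith

theorem near_range : ∃ C : ℝ, 0 < C ∧ ∀ N z : ℕ, 3 ≤ z → 1 ≤ Nat.sqrt N →
    ∑ p ∈ (PP (Nat.sqrt N + 1)).filter (fun p => Nat.sqrt N / z ^ 8 < p),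
      log p * (cnt N z p : ℝ) ≤ C * Nat.sqrt N * (1 + log (log z)) := by
  classical
  refine ⟨500, by norm_num, fun N z hz ht => ?_⟩
  set t := Nat.sqrt N with htdef
  set F := (PP (t + 1)).filter (fun p => t / z ^ 8 < p) with hF
  set I := Nat.log 2 (z ^ 8) with hI
  have ht1 : (1 : ℝ) ≤ t := by exact_mod_cast ht
  have hl2 : 0 < log 2 := Real.log_pos (by norm_num)
  have hl4 : log 4 = 2 * log 2 := by
    rw [show (4 : ℝ) = 2 ^ 2 by norm_num, Real.log_pow]; norm_num
  have hmem : ∀ p ∈ F, p ≤ t + 1 ∧ p.Prime ∧ t < z ^ 8 * p := by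
    intro p hp
    rw [hF, Finset.mem_filter, mem_PP] at hp
    refine ⟨hp.1.1, hp.1.2, ?_⟩
    have h0 : 0 < z ^ 8 := by positivity
    have := (Nat.div_lt_iff_lt_mul h0).1 hp.2
    rwa [mul_comm] at this
  have hmaps : ∀ p ∈ F, Nat.log 2 (t / p) ∈ range (I + 1) := by
    intro p hp
    obtain ⟨_, hpp, h3⟩ := hmem p hp
    rw [Finset.mem_range, Nat.lt_succ_iff]
    apply Nat.log_mono_right
    have := (Nat.div_lt_iff_lt_mul hpp.pos).2 h3
    exact this.le
  rw [← Finset.sum_fiberwise_of_maps_to hmaps, Finset.sum_range_succ']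
  have hblock0 : ∑ p ∈ F with Nat.log 2 (t / p) = 0, log p * (cnt N z p : ℝ) ≤ 12 * log 2 * t := by
    calc ∑ p ∈ F with Nat.log 2 (t / p) = 0, log p * (cnt N z p : ℝ)
        ≤ ∑ p ∈ F with Nat.log 2 (t / p) = 0, log p * 3 := by
          apply Finset.sum_le_sum
          intro p hp
          rw [Finset.mem_filter] at hp
          obtain ⟨_, hpp, _⟩ := hmem p hp.1
          apply mul_le_mul_of_nonneg_left _ (Real.log_nonneg (by exact_mod_cast hpp.one_lt.le))
          refine (cnt_le_triv N z p hpp.one_lt.le).trans ?_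
          have h1 : t / p < 2 := by
            rcases (Nat.log_eq_zero_iff).1 hp.2 with h | h
            · exact h
            · omega
          have h2 : t < 2 * p := (Nat.div_lt_iff_lt_mul hpp.pos).1 h1
          have hp0 : (0 : ℝ) < p := by exact_mod_cast hpp.pos
          have h3 : (t : ℝ) / p ≤ 2 := by
            rw [div_le_iff₀ hp0]; exact_mod_cast h2.le
          rw [← htdef]
          linarith
      _ ≤ ∑ p ∈ PP (t + 1), log p * 3 := by
          apply Finset.sum_le_sum_of_subset_of_nonneg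
          · intro p hp
            rw [Finset.mem_filter, hF, Finset.mem_filter] at hp
            exact hp.1.1
          · intro p hp _
            have := (mem_PP.1 hp).2.one_lt.le
            exact mul_nonneg (Real.log_nonneg (by exact_mod_cast this)) (by norm_num)
      _ = (∑ p ∈ PP (t + 1), log p) * 3 := by rw [Finset.sum_mul]
      _ ≤ log 4 * ((t + 1 : ℕ) : ℝ) * 3 := by
          apply mul_le_mul_of_nonneg_right (sum_log_le (t + 1)) (by norm_num)
      _ ≤ 12 * log 2 * t := by
          rw [hl4]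
          push_cast
          nlinarith
  have hblock : ∀ k ∈ range I, ∑ p ∈ F with Nat.log 2 (t / p) = k + 1, log p * (cnt N z p : ℝ) ≤
      104 * t * ((k : ℝ) + 1)⁻¹ := by
    intro k _
    calc ∑ p ∈ F with Nat.log 2 (t / p) = k + 1, log p * (cnt N z p : ℝ)
        ≤ ∑ p ∈ F with Nat.log 2 (t / p) = k + 1,
          log p * (26 * 2 ^ (k + 2) / ((k + 1) * log 2)) := by
          apply Finset.sum_le_sum
          intro p hp
          rw [Finset.mem_filter] at hp
          obtain ⟨_, hpp, h3⟩ := hmem p hp.1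
          apply mul_le_mul_of_nonneg_left _ (Real.log_nonneg (by exact_mod_cast hpp.one_lt.le))
          have hne : t / p ≠ 0 := by
            intro h0
            rw [h0, Nat.log_zero_right] at hp
            omega
          have h1 : 2 ^ (k + 1) ≤ t / p := by
            rw [← hp.2]; exact Nat.pow_log_le_self 2 hne
          have h2 : t / p < 2 ^ (k + 2) := by
            have := Nat.lt_pow_succ_log_self (b := 2) (by norm_num) (t / p)
            rwa [hp.2] at this
          refine near_cnt N z p k hpp ?_ ?_ h3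
          · exact (Nat.le_div_iff_mul_le hpp.pos).1 h1
          · exact (Nat.div_lt_iff_lt_mul hpp.pos).1 h2
      _ ≤ ∑ p ∈ PP (t / 2 ^ (k + 1)), log p * (26 * 2 ^ (k + 2) / ((k + 1) * log 2)) := by
          apply Finset.sum_le_sum_of_subset_of_nonneg
          · intro p hp
            rw [Finset.mem_filter] at hp
            obtain ⟨_, hpp, _⟩ := hmem p hp.1
            rw [mem_PP]
            refine ⟨?_, hpp⟩
            have hne : t / p ≠ 0 := by
              intro h0
              rw [h0, Nat.log_zero_right] at hp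
              omega
            have h1 : 2 ^ (k + 1) ≤ t / p := by
              rw [← hp.2]; exact Nat.pow_log_le_self 2 hne
            rw [Nat.le_div_iff_mul_le (by positivity)]
            have := (Nat.le_div_iff_mul_le hpp.pos).1 h1
            rwa [mul_comm] at this
          · intro p hp _
            have := (mem_PP.1 hp).2.one_lt.le
            exact mul_nonneg (Real.log_nonneg (by exact_mod_cast this)) (by positivity)
      _ = (∑ p ∈ PP (t / 2 ^ (k + 1)), log p) * (26 * 2 ^ (k + 2) / ((k + 1) * log 2)) := by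
          rw [Finset.sum_mul]
      _ ≤ (log 4 * ((t / 2 ^ (k + 1) : ℕ) : ℝ)) * (26 * 2 ^ (k + 2) / ((k + 1) * log 2)) := by
          apply mul_le_mul_of_nonneg_right (sum_log_le _) (by positivity)
      _ ≤ (log 4 * ((t : ℝ) / 2 ^ (k + 1))) * (26 * 2 ^ (k + 2) / ((k + 1) * log 2)) := by
          apply mul_le_mul_of_nonneg_right _ (by positivity)
          apply mul_le_mul_of_nonneg_left _ (by positivity)
          have := @Nat.cast_div_le ℝ _ _ _ t (2 ^ (k + 1))
          push_cast at this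
          exact this
      _ = 104 * t * ((k : ℝ) + 1)⁻¹ := by
          rw [hl4]
          field_simp
          ring
  have hsum := Finset.sum_le_sum hblock
  have hharm : ∑ k ∈ range I, ((k : ℝ) + 1)⁻¹ ≤ 1 + log I := by
    have := harmonic_le_one_add_log I
    unfold harmonic at this
    push_cast at this
    exact this
  have hz3 : (3 : ℝ) ≤ z := by exact_mod_cast hz
  have hI1 : 1 ≤ I := by
    rw [hI]
    apply Nat.log_pos (by norm_num)
    calc 2 ≤ z := by omega
      _ ≤ z ^ 8 := Nat.le_self_pow (by norm_num) z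
  have hlz : 1 < log z := by
    rw [Real.lt_log_iff_exp_lt (by linarith)]
    have := Real.exp_one_lt_d9
    linarith
  have hllz : 0 < log (log z) := Real.log_pos hlz
  have hlg := Real.log_two_gt_d9
  have hlg' := Real.log_two_lt_d9
  have hIle : (I : ℝ) ≤ 12 * log z := by
    have h1 : 2 ^ I ≤ z ^ 8 := Nat.pow_log_le_self 2 (by positivity)
    have h2 : log ((2 : ℝ) ^ I) ≤ log ((z : ℝ) ^ 8) :=
      Real.log_le_log (by positivity) (by exact_mod_cast h1)
    rw [Real.log_pow, Real.log_pow] at h2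
    push_cast at h2
    nlinarith
  have hlI : log I ≤ 2.8 + log (log z) := by
    have h1 : log (I : ℝ) ≤ log (16 * log z) :=
      Real.log_le_log (by exact_mod_cast hI1) (by linarith)
    rw [Real.log_mul (by norm_num) (by linarith)] at h1
    have h2 : log 16 = 4 * log 2 := by
      rw [show (16 : ℝ) = 2 ^ 4 by norm_num, Real.log_pow]; norm_num
    linarith
  have hsum2 : ∑ k ∈ range I, (104 * t * ((k : ℝ) + 1)⁻¹ : ℝ) =
      104 * t * ∑ k ∈ range I, ((k : ℝ) + 1)⁻¹ := by rw [Finset.mul_sum]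
  rw [hsum2] at hsum
  have h1 : 104 * (t : ℝ) * ∑ k ∈ range I, ((k : ℝ) + 1)⁻¹ ≤
      104 * t * (3.8 + log (log z)) :=
    mul_le_mul_of_nonneg_left (by linarith) (by positivity)
  nlinarith [mul_pos (by linarith : (0 : ℝ) < t) hllz]

end Pool.Agent.PSQ
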