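import Pool.Agent.PSQ.MainR
import Pool.Agent.PSQ.MidR
import Pool.Agent.PSQ.NearR

/-!
# PSQ module PSUM: the sum over all primes up to `t + 1`

Split `z < p ≤ t+1` at `Y` and `t / z^8` (`zpow8_le`: `Y ≤ t / z^8`):
`main_range` (`1.02`) + `mid_range` (`≤ (3/c)(25/A + 6/log t) V t log t ≤ 0.05 V t log t` for
large `A`, by `c / log z ≤ V`) + `near_range` (`C t (1 + loglog z) ≤ 2 C t loglog t`
`≤ 0.05 V t log t`, by `V log t ≥ c A loglog t` (`V_log_ge`), `A` large).
-/

set_option autoImplicit false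

namespace Pool.Agent.PSQ

open Finset Real Filter

theorem prime_sum : ∃ A0 : ℝ, 100 ≤ A0 ∧ ∀ A : ℝ, A0 ≤ A → ∀ᶠ t : ℕ in atTop,
    ∀ N : ℕ, Nat.sqrt N = t →
    ∑ p ∈ (PP (t + 1)).filter (fun p => zz A t < p), log p * (cnt N (zz A t) p : ℝ) ≤
      1.2 * V (zz A t) * t * log t := by
  classical
  obtain ⟨c, hc, hV⟩ := V_log_ge
  obtain ⟨C, hC, hnear⟩ := near_range
  refine ⟨100 + 1875 / c + 40 * C / c, ?_, ?_⟩
  · have : 0 ≤ 1875 / c := by positivity
    have : 0 ≤ 40 * C / c := by positivity
    linarith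
  intro A hA
  have h1875 : 0 ≤ 1875 / c := by positivity
  have h40 : 0 ≤ 40 * C / c := by positivity
  have hA100 : 100 ≤ A := by linarith
  have hA0 : 0 < A := by linarith
  have hA1 : 1875 / c ≤ A := by linarith
  have hA2 : 40 * C / c ≤ A := by linarith
  have hlog : Tendsto (fun t : ℕ => log (t : ℝ)) atTop atTop :=
    tendsto_log_atTop.comp tendsto_natCast_atTop_atTop
  have hloglog : Tendsto (fun t : ℕ => log (log (t : ℝ))) atTop atTop :=
    tendsto_log_atTop.comp hlog
  filter_upwards [hV A hA100, zz_bounds A hA100, zpow8_le A hA100, main_range A hA100,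
    mid_range A hA100, hlog.eventually_ge_atTop (1800 / c), hlog.eventually_ge_atTop 1,
    hloglog.eventually_ge_atTop 1, eventually_ge_atTop 1]
    with t hVt hzt h8 hmain hmid hl1 hl2 hll ht1 N hN
  obtain ⟨hV1, hV2⟩ := hVt
  obtain ⟨hz3, hz1, -⟩ := hzt
  set z := zz A t with hz
  have hmain' := hmain N hN
  have hmid' := hmid N hN
  have hnear' := hnear N z hz3 (by omega)
  rw [hN] at hnear'
  have hVpos : 0 < V z := V_pos z
  have htpos : (0 : ℝ) < t := by exact_mod_cast ht1
  have hzR : (3 : ℝ) ≤ z := by exact_mod_cast hz3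
  have hlogz : 0 < log z := Real.log_pos (by linarith)
  -- the splitting
  set g : ℕ → ℝ := fun p => log p * (cnt N z p : ℝ) with hg
  have hg0 : ∀ p : ℕ, 0 ≤ g p := by
    intro p
    exact mul_nonneg (Real.log_natCast_nonneg p) (Nat.cast_nonneg _)
  set S1 := (PP (YY A t)).filter (fun p => z < p) with hS1
  set S2 := (PP (t / z ^ 8)).filter (fun p => YY A t < p ∧ z < p) with hS2
  set S3 := (PP (t + 1)).filter (fun p => t / z ^ 8 < p) with hS3
  have hsub : (PP (t + 1)).filter (fun p => z < p) ⊆ S1 ∪ (S2 ∪ S3) := by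
    intro p hp
    rw [Finset.mem_filter, mem_PP] at hp
    obtain ⟨⟨hp1, hp2⟩, hp3⟩ := hp
    rw [Finset.mem_union, Finset.mem_union]
    by_cases h1 : p ≤ YY A t
    · left
      rw [hS1, Finset.mem_filter, mem_PP]
      exact ⟨⟨h1, hp2⟩, hp3⟩
    · right
      by_cases h2 : p ≤ t / z ^ 8
      · left
        rw [hS2, Finset.mem_filter, mem_PP]
        exact ⟨⟨h2, hp2⟩, not_le.1 h1, hp3⟩
      · right
        rw [hS3, Finset.mem_filter, mem_PP]
        exact ⟨⟨hp1, hp2⟩, not_le.1 h2⟩
  have hsum : ∑ p ∈ (PP (t + 1)).filter (fun p => z < p), g p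
      ≤ ∑ p ∈ S1, g p + (∑ p ∈ S2, g p + ∑ p ∈ S3, g p) := by
    refine (Finset.sum_le_sum_of_subset_of_nonneg hsub (fun p _ _ => hg0 p)).trans ?_
    have hu : ∀ X Y : Finset ℕ, ∑ p ∈ X ∪ Y, g p ≤ ∑ p ∈ X, g p + ∑ p ∈ Y, g p := by
      intro X Y
      have := Finset.sum_union_inter (s₁ := X) (s₂ := Y) (f := g)
      have h0 : 0 ≤ ∑ p ∈ X ∩ Y, g p := Finset.sum_nonneg (fun p _ => hg0 p)
      linarith
    have := hu S1 (S2 ∪ S3)
    have := hu S2 S3
    linarith
  -- the middle range
  have hVt0 : 0 < V z * t * log t := by positivity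
  have hm2 : 3 * (t : ℝ) / log z * (25 / A * log t + 6) ≤ 0.05 * (V z * t * log t) := by
    have h1 : 1 / log z ≤ V z / c := by
      rw [le_div_iff₀ hc]
      calc 1 / log z * c = c / log z := by ring
        _ ≤ V z := hV2
    have h2 : 25 / A ≤ c / 75 := by
      rw [div_le_div_iff₀ hA0 (by norm_num)]
      rw [div_le_iff₀ hc] at hA1
      linarith
    have h3 : (6 : ℝ) ≤ c / 300 * log t := by
      rw [div_le_iff₀ hc] at hl1
      linarith
    have h4 : 25 / A * log t + 6 ≤ c / 60 * log t := by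
      have : 25 / A * log t ≤ c / 75 * log t := mul_le_mul_of_nonneg_right h2 (by linarith)
      have h5 : c / 60 * log t = c / 75 * log t + c / 300 * log t := by ring
      linarith
    calc 3 * (t : ℝ) / log z * (25 / A * log t + 6)
        = 3 * (t : ℝ) * (1 / log z) * (25 / A * log t + 6) := by ring
      _ ≤ 3 * (t : ℝ) * (V z / c) * (c / 60 * log t) := by
          apply mul_le_mul _ h4 _ _
          · exact mul_le_mul_of_nonneg_left h1 (by positivity)
          · have : 0 ≤ 25 / A * log t := by positivity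
            linarith
          · positivity
      _ = 0.05 * (V z * t * log t) := by
          field_simp
          ring
  have hm3 : C * (t : ℝ) * (1 + log (log z)) ≤ 0.05 * (V z * t * log t) := by
    have h1 : log z ≤ log t := by
      refine hz1.trans ?_
      apply div_le_self (by linarith)
      nlinarith
    have h2 : log (log z) ≤ log (log t) := Real.log_le_log hlogz h1
    have h3 : 1 + log (log z) ≤ 2 * log (log t) := by linarith
    have h4 : 40 * C * log (log t) ≤ V z * log t := by
      refine le_trans ?_ hV1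
      have : 40 * C ≤ c * A := by
        rw [div_le_iff₀ hc] at hA2
        linarith
      exact mul_le_mul_of_nonneg_right this (by linarith)
    calc C * (t : ℝ) * (1 + log (log z)) ≤ C * (t : ℝ) * (2 * log (log t)) :=
          mul_le_mul_of_nonneg_left h3 (by positivity)
      _ = 0.05 * (t * (40 * C * log (log t))) := by ring
      _ ≤ 0.05 * (t * (V z * log t)) := by
          apply mul_le_mul_of_nonneg_left _ (by norm_num)
          exact mul_le_mul_of_nonneg_left h4 htpos.le
      _ = 0.05 * (V z * t * log t) := by ring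
  have e1 : 1.2 * V z * t * log t = 1.2 * (V z * t * log t) := by ring
  have e2 : 1.02 * V z * t * log t = 1.02 * (V z * t * log t) := by ring
  rw [e1]
  rw [e2] at hmain'
  calc ∑ p ∈ (PP (t + 1)).filter (fun p => z < p), g p
      ≤ ∑ p ∈ S1, g p + (∑ p ∈ S2, g p + ∑ p ∈ S3, g p) := hsum
    _ ≤ 1.02 * (V z * t * log t) + (0.05 * (V z * t * log t) + 0.05 * (V z * t * log t)) :=
        add_le_add hmain' (add_le_add (hmid'.trans hm2) (hnear'.trans hm3))
    _ ≤ 1.2 * (V z * t * log t) := by linarith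

end Pool.Agent.PSQ
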