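import Pool.Agent.PSQ.Mer

/-!
# PSQ module PAR: the parameters

`L = log t / (A loglog t) → ∞`, `z = ⌊exp L⌋`, `m = ⌈10 loglog t⌉`, `Y = ⌊t^(1 - 25/A)⌋`.

* `zz_bounds`: `exp L ≥ z > exp L - 1`.
* `zpow_le`: `log (z+1) ≤ 1.05 L`, `2 m + 1 ≤ 20 loglog t + 3 ≤ 22 loglog t`, product
  `≤ 23.1 log t / A`.
* `err_small`: `SS z ≤ log log z + C ≤ 1.1 loglog t`, `k = 2m+1 ≥ 20 loglog t`,
  `k! ≥ (k/e)^k`, so `SS^k / k! ≤ (1.1 e / 20)^k ≤ (0.15)^(20 loglog t) ≤ (log t)^(-37)`, while
  `V z ≥ c / log z ≥ c / log t`.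
-/

set_option autoImplicit false

namespace Pool.Agent.PSQ

open Finset Real Filter

private lemma par_l (M : ℝ) : ∀ᶠ t : ℕ in atTop, M ≤ log t :=
  (Real.tendsto_log_atTop.comp tendsto_natCast_atTop_atTop).eventually_ge_atTop M

private lemma par_ll (M : ℝ) : ∀ᶠ t : ℕ in atTop, M ≤ log (log t) :=
  (Real.tendsto_log_atTop.comp
    (Real.tendsto_log_atTop.comp tendsto_natCast_atTop_atTop)).eventually_ge_atTop M

private lemma par_L {A : ℝ} (hA : 100 ≤ A) (M : ℝ) :
    ∀ᶠ t : ℕ in atTop, M ≤ log t / (A * log (log t)) := by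
  filter_upwards [par_l ((2 * A * |M|) ^ 2 + 1), par_ll 1] with t h1 h2
  have hA0 : 0 < A := by linarith
  have hT : 0 < log (t : ℝ) := by nlinarith [sq_nonneg (2 * A * |M|)]
  have hl : 0 < log (log (t : ℝ)) := by linarith
  have hs : 0 < √(log (t : ℝ)) := Real.sqrt_pos.2 hT
  have h3 : log (log (t : ℝ)) ≤ 2 * √(log (t : ℝ)) := by
    have h4 : log (√(log (t : ℝ))) ≤ √(log (t : ℝ)) - 1 := Real.log_le_sub_one_of_pos hs
    rw [Real.log_sqrt hT.le] at h4
    linarith
  have h5 : 2 * A * |M| ≤ √(log (t : ℝ)) := by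
    apply Real.le_sqrt_of_sq_le
    linarith
  rw [le_div_iff₀ (by positivity)]
  have h6 : M ≤ |M| := le_abs_self M
  have h7 : √(log (t : ℝ)) * √(log (t : ℝ)) = log t := Real.mul_self_sqrt hT.le
  calc M * (A * log (log (t : ℝ))) ≤ |M| * (A * log (log (t : ℝ))) :=
        mul_le_mul_of_nonneg_right h6 (by positivity)
    _ ≤ |M| * (A * (2 * √(log (t : ℝ)))) := by
        apply mul_le_mul_of_nonneg_left _ (abs_nonneg M)
        exact mul_le_mul_of_nonneg_left h3 hA0.le
    _ = (2 * A * |M|) * √(log (t : ℝ)) := by ring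
    _ ≤ √(log (t : ℝ)) * √(log (t : ℝ)) := mul_le_mul_of_nonneg_right h5 hs.le
    _ = log t := h7

theorem zz_bounds (A : ℝ) (hA : 100 ≤ A) : ∀ᶠ t : ℕ in atTop,
    3 ≤ zz A t ∧ log (zz A t) ≤ log t / (A * log (log t)) ∧
    log t / (A * log (log t)) ≤ 2 * log (zz A t) := by
  filter_upwards [par_L hA 2] with t h1
  set L := log (t : ℝ) / (A * log (log t)) with hL
  have he : (4 : ℝ) ≤ Real.exp L := by
    have h2 : Real.exp 2 ≤ Real.exp L := Real.exp_le_exp.2 h1
    have h3 : Real.exp 2 = Real.exp 1 * Real.exp 1 := by rw [← Real.exp_add]; norm_num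
    have h4 := Real.exp_one_gt_d9
    nlinarith
  have h3 : 4 ≤ zz A t := by
    unfold zz
    apply Nat.le_floor
    exact_mod_cast he
  have hz0 : (0 : ℝ) < (zz A t : ℝ) := by
    have : 0 < zz A t := by omega
    exact_mod_cast this
  have hzle : (zz A t : ℝ) ≤ Real.exp L := Nat.floor_le (Real.exp_pos _).le
  have hzgt : Real.exp L < (zz A t : ℝ) + 1 := Nat.lt_floor_add_one _
  refine ⟨by omega, ?_, ?_⟩
  · have := Real.log_le_log hz0 hzle
    rwa [Real.log_exp] at this
  · have h5 : Real.exp (L / 2) ≤ (zz A t : ℝ) := by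
      have h6 : Real.exp L = Real.exp (L / 2) * Real.exp (L / 2) := by
        rw [← Real.exp_add]; congr 1; ring
      have h7 : (2 : ℝ) ≤ Real.exp (L / 2) := by
        have h8 : Real.exp 1 ≤ Real.exp (L / 2) := Real.exp_le_exp.2 (by linarith)
        have h4 := Real.exp_one_gt_d9
        linarith
      nlinarith
    have h8 := Real.log_le_log (Real.exp_pos _) h5
    rw [Real.log_exp] at h8
    linarith

/-- `z → ∞` -/
theorem zz_tendsto (A : ℝ) (hA : 100 ≤ A) : Tendsto (fun t : ℕ => zz A t) atTop atTop := by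
  rw [tendsto_atTop]
  intro b
  filter_upwards [par_L hA (b : ℝ)] with t h1
  unfold zz
  apply Nat.le_floor
  have h2 := Real.add_one_le_exp (log (t : ℝ) / (A * log (log t)))
  linarith

private lemma par_mm {t : ℕ} (h : 1 ≤ log (log (t : ℝ))) :
    10 * log (log (t : ℝ)) ≤ mm t ∧ (mm t : ℝ) ≤ 10 * log (log (t : ℝ)) + 1 := by
  constructor
  · exact Nat.le_ceil _
  · exact (Nat.ceil_lt_add_one (by linarith)).le

private lemma par_t {t : ℕ} (h : 1 ≤ log (t : ℝ)) : (0 : ℝ) < t := by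
  by_contra h0
  have : (t : ℝ) = 0 := le_antisymm (not_lt.1 h0) (Nat.cast_nonneg t)
  rw [this, Real.log_zero] at h
  linarith

theorem zpow_le (A : ℝ) (hA : 100 ≤ A) : ∀ᶠ t : ℕ in atTop,
    2 * ((zz A t : ℝ) + 1) ^ (2 * mm t + 1) ≤ (t : ℝ) ^ (24 / A) := by
  filter_upwards [zz_bounds A hA, par_L hA 10, par_ll 4, par_l A] with t h1 h2 h3 h4
  set L := log (t : ℝ) / (A * log (log t)) with hL
  have hA0 : 0 < A := by linarith
  have hT : 1 ≤ log (t : ℝ) := by linarith
  have ht := par_t hT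
  have hl : 0 < log (log (t : ℝ)) := by linarith
  obtain ⟨hm1, hm2⟩ := par_mm (t := t) (by linarith)
  have hz3 : (3 : ℝ) ≤ (zz A t : ℝ) := by exact_mod_cast h1.1
  have hz0 : (0 : ℝ) < (zz A t : ℝ) + 1 := by linarith
  have hzle : (zz A t : ℝ) ≤ Real.exp L := Nat.floor_le (Real.exp_pos _).le
  -- `log (z + 1) ≤ L + 1/10 ≤ 1.05 L`
  have hlz : log ((zz A t : ℝ) + 1) ≤ 1.05 * L := by
    have h5 : (zz A t : ℝ) + 1 ≤ Real.exp (1.05 * L) := by
      have h6 : Real.exp (1.05 * L) = Real.exp L * Real.exp (0.05 * L) := by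
        rw [← Real.exp_add]; congr 1; ring
      have h7 := Real.add_one_le_exp (0.05 * L)
      have h8 := Real.add_one_le_exp L
      rw [h6]
      nlinarith [Real.exp_pos L]
    have h9 := Real.log_le_log hz0 h5
    rwa [Real.log_exp] at h9
  have hLl : L * log (log (t : ℝ)) = log t / A := by
    rw [hL]
    field_simp
  have hL0 : 0 < L := by linarith
  have hkey : log 2 + ((2 * mm t + 1 : ℕ) : ℝ) * log ((zz A t : ℝ) + 1) ≤ 24 / A * log t := by
    have h5 : ((2 * mm t + 1 : ℕ) : ℝ) ≤ 20 * log (log (t : ℝ)) + 3 := by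
      push_cast
      linarith
    have h6 : 0 ≤ log ((zz A t : ℝ) + 1) := Real.log_nonneg (by linarith)
    have h7 : ((2 * mm t + 1 : ℕ) : ℝ) * log ((zz A t : ℝ) + 1) ≤
        (20 * log (log (t : ℝ)) + 3) * (1.05 * L) :=
      mul_le_mul h5 hlz h6 (by linarith)
    have h8 : (20 * log (log (t : ℝ)) + 3) * (1.05 * L) = 21 * (log t / A) + 3.15 * L := by
      rw [← hLl]; ring
    have h9 : L ≤ (log t / A) / 4 := by
      rw [← hLl]
      nlinarith
    have h10 : log 2 ≤ 1 := by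
      have := Real.log_two_lt_d9
      linarith
    have h11 : 1 ≤ log (t : ℝ) / A := by rw [le_div_iff₀ hA0]; linarith
    have h12 : 24 / A * log (t : ℝ) = 24 * (log t / A) := by ring
    rw [h12]
    linarith
  have h13 : (t : ℝ) ^ (24 / A) = Real.exp (24 / A * log t) := by
    rw [Real.rpow_def_of_pos ht, mul_comm]
  rw [h13]
  calc 2 * ((zz A t : ℝ) + 1) ^ (2 * mm t + 1)
      = Real.exp (log 2 + ((2 * mm t + 1 : ℕ) : ℝ) * log ((zz A t : ℝ) + 1)) := by
        rw [Real.exp_add, Real.exp_log (by norm_num), ← Real.log_pow, Real.exp_log (by positivity)]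
    _ ≤ Real.exp (24 / A * log t) := Real.exp_le_exp.2 hkey

theorem zpow8_le (A : ℝ) (hA : 100 ≤ A) : ∀ᶠ t : ℕ in atTop,
    YY A t ≤ t / (zz A t) ^ 8 := by
  filter_upwards [zz_bounds A hA, par_ll 1, par_l 1] with t h1 h2 h3
  set L := log (t : ℝ) / (A * log (log t)) with hL
  have hA0 : 0 < A := by linarith
  have ht := par_t h3
  have hl : 0 < log (log (t : ℝ)) := by linarith
  have hzle : (zz A t : ℝ) ≤ Real.exp L := Nat.floor_le (Real.exp_pos _).le
  have hz0 : 0 < (zz A t) ^ 8 := pow_pos (by omega) 8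
  rw [Nat.le_div_iff_mul_le hz0]
  have h4 : (YY A t : ℝ) ≤ (t : ℝ) ^ (1 - 25 / A) := Nat.floor_le (by positivity)
  have h5 : ((YY A t * (zz A t) ^ 8 : ℕ) : ℝ) ≤ (t : ℝ) := by
    push_cast
    calc (YY A t : ℝ) * (zz A t : ℝ) ^ 8
        ≤ (t : ℝ) ^ (1 - 25 / A) * (Real.exp L) ^ 8 :=
          mul_le_mul h4 (pow_le_pow_left₀ (Nat.cast_nonneg _) hzle 8) (by positivity)
            (by positivity)
      _ = Real.exp (log t * (1 - 25 / A) + 8 * L) := by
          rw [Real.rpow_def_of_pos ht, ← Real.exp_nat_mul, ← Real.exp_add]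
          norm_num
      _ ≤ Real.exp (log t) := by
          apply Real.exp_le_exp.2
          have hLl : L ≤ log t / A := by
            rw [hL, ← div_div]
            exact div_le_self (by positivity) h2
          have h6 : log (t : ℝ) * (1 - 25 / A) = log t - 25 * (log t / A) := by ring
          have h7 : 0 ≤ log (t : ℝ) / A := by positivity
          rw [h6]
          linarith
      _ = t := Real.exp_log ht
  exact_mod_cast h5

private lemma par_fac {S : ℝ} (hS : 0 ≤ S) {k : ℕ} (hk : 0 < k) (h : S ≤ Real.exp (-2) * k) :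
    S ^ k / k.factorial ≤ Real.exp (-(k : ℝ)) := by
  have hk0 : (0 : ℝ) < k := by exact_mod_cast hk
  have h1 : (k : ℝ) ^ k / k.factorial ≤ Real.exp k := Real.pow_div_factorial_le_exp _ hk0.le _
  have h2 : S ^ k ≤ (Real.exp (-2) * k) ^ k := pow_le_pow_left₀ hS h k
  have hf : (0 : ℝ) < k.factorial := by exact_mod_cast Nat.factorial_pos k
  calc S ^ k / k.factorial ≤ (Real.exp (-2) * k) ^ k / k.factorial :=
        div_le_div_of_nonneg_right h2 hf.le
    _ = Real.exp (-2) ^ k * ((k : ℝ) ^ k / k.factorial) := by rw [mul_pow]; ring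
    _ ≤ Real.exp (-2) ^ k * Real.exp k := mul_le_mul_of_nonneg_left h1 (by positivity)
    _ = Real.exp (-(k : ℝ)) := by
        rw [← Real.exp_nat_mul, ← Real.exp_add]
        congr 1
        ring

private lemma par_exp2 : (1 : ℝ) / 10 ≤ Real.exp (-2) := by
  have h3 : Real.exp 2 = Real.exp 1 * Real.exp 1 := by rw [← Real.exp_add]; norm_num
  have h4 := Real.exp_one_lt_d9
  have h5 := Real.exp_pos 1
  rw [Real.exp_neg, one_div]
  apply inv_anti₀ (Real.exp_pos 2)
  rw [h3]
  nlinarith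

theorem err_small (A : ℝ) (hA : 100 ≤ A) : ∀ᶠ t : ℕ in atTop,
    SS (zz A t) ^ (2 * mm t + 1) / (2 * mm t + 1).factorial ≤ V (zz A t) / 100 ∧
    SS (zz A t) ^ (2 * mm t + 2) / (2 * mm t + 2).factorial ≤ V (zz A t) / 100 := by
  obtain ⟨C, hC0, hC⟩ := sum_inv_le
  obtain ⟨c, hc0, hc1, hc⟩ := V_ge
  filter_upwards [zz_bounds A hA, par_ll 1, par_ll C, par_l 1, par_ll (log (100 / c))] with
    t h1 h2 h3 h4 h5
  set L := log (t : ℝ) / (A * log (log t)) with hL
  set l := log (log (t : ℝ)) with hl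
  have hA0 : 0 < A := by linarith
  have hT : 0 < log (t : ℝ) := by linarith
  have hz3 : (3 : ℝ) ≤ (zz A t : ℝ) := by exact_mod_cast h1.1
  have hlz0 : 0 < log (zz A t : ℝ) := Real.log_pos (by linarith)
  have hlzT : log (zz A t : ℝ) ≤ log t := by
    refine h1.2.1.trans ?_
    rw [hL]
    exact div_le_self hT.le (by nlinarith)
  have hll : log (log (zz A t : ℝ)) ≤ l := Real.log_le_log hlz0 hlzT
  have hSS : SS (zz A t) ≤ 2 * l := by
    have := hC _ h1.1
    unfold SS
    linarith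
  have hSS0 : 0 ≤ SS (zz A t) := by
    unfold SS
    exact Finset.sum_nonneg fun p _ => by positivity
  obtain ⟨hm1, hm2⟩ := par_mm (t := t) h2
  have he := par_exp2
  have hV := hc _ h1.1
  have hVT : c / log t ≤ V (zz A t) :=
    (div_le_div_of_nonneg_left hc0.le hlz0 hlzT).trans hV
  -- the common bound
  have key : ∀ k : ℕ, 20 * l ≤ (k : ℝ) → 0 < k →
      SS (zz A t) ^ k / k.factorial ≤ V (zz A t) / 100 := by
    intro k hk hk0
    have h6 : SS (zz A t) ≤ Real.exp (-2) * k := by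
      have : 2 * l ≤ Real.exp (-2) * k := by
        have h7 : (1 / 10 : ℝ) * (20 * l) ≤ Real.exp (-2) * k :=
          mul_le_mul he hk (by linarith) (Real.exp_pos _).le
        linarith
      linarith
    refine (par_fac hSS0 hk0 h6).trans ?_
    have h7 : Real.exp (-(k : ℝ)) ≤ Real.exp (-(l + log (100 / c))) := by
      apply Real.exp_le_exp.2
      linarith
    refine h7.trans ?_
    have h8 : Real.exp (-(l + log (100 / c))) = (c / log t) / 100 := by
      rw [neg_add, Real.exp_add, Real.exp_neg, Real.exp_neg, hl, Real.exp_log hT,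
        Real.exp_log (by positivity)]
      field_simp
    rw [h8]
    exact div_le_div_of_nonneg_right hVT (by norm_num)
  constructor
  · exact key _ (by push_cast; linarith) (by omega)
  · exact key _ (by push_cast; linarith) (by omega)

/-- `V z log t ≥ c A loglog t` -/
theorem V_log_ge : ∃ c : ℝ, 0 < c ∧ ∀ A : ℝ, 100 ≤ A → ∀ᶠ t : ℕ in atTop,
    c * A * log (log t) ≤ V (zz A t) * log t ∧ c / log (zz A t) ≤ V (zz A t) := by
  obtain ⟨c, hc0, hc1, hc⟩ := V_ge
  refine ⟨c, hc0, fun A hA => ?_⟩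
  filter_upwards [zz_bounds A hA, par_ll 1, par_l 1] with t h1 h2 h3
  have hA0 : 0 < A := by linarith
  have hz3 : (3 : ℝ) ≤ (zz A t : ℝ) := by exact_mod_cast h1.1
  have hlz0 : 0 < log (zz A t : ℝ) := Real.log_pos (by linarith)
  have hV := hc _ h1.1
  refine ⟨?_, hV⟩
  have hT : 0 < log (t : ℝ) := by linarith
  have hl : 0 < log (log (t : ℝ)) := by linarith
  have h4 : c / (log (t : ℝ) / (A * log (log t))) ≤ V (zz A t) :=
    (div_le_div_of_nonneg_left hc0.le hlz0 h1.2.1).trans hV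
  have h5 := mul_le_mul_of_nonneg_right h4 hT.le
  have h6 : c / (log (t : ℝ) / (A * log (log t))) * log t = c * A * log (log t) := by
    field_simp
  linarith

theorem YY_bounds (A : ℝ) (hA : 100 ≤ A) : ∀ᶠ t : ℕ in atTop,
    1 ≤ YY A t ∧ log (YY A t) ≤ (1 - 25 / A) * log t ∧ (1 - 25 / A) * log t - 1 ≤ log (YY A t) ∧
    (t : ℝ) ^ (24 / A) * YY A t ≤ (t : ℝ) ^ (1 - 1 / A) := by
  filter_upwards [par_l 4] with t h1
  have hA0 : 0 < A := by linarith
  have ht := par_t (t := t) (by linarith)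
  have h25 : 25 / A ≤ 1 / 4 := by
    rw [div_le_iff₀ hA0]
    linarith
  set x := (t : ℝ) ^ (1 - 25 / A) with hx
  have hxe : x = Real.exp ((1 - 25 / A) * log t) := by
    rw [hx, Real.rpow_def_of_pos ht, mul_comm]
  have hx4 : 4 ≤ x := by
    rw [hxe]
    have h2 : (3 : ℝ) ≤ (1 - 25 / A) * log t := by nlinarith
    have h3 := Real.add_one_le_exp ((1 - 25 / A) * log (t : ℝ))
    linarith
  have hYle : (YY A t : ℝ) ≤ x := Nat.floor_le (by linarith)
  have hYgt : x < (YY A t : ℝ) + 1 := Nat.lt_floor_add_one _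
  have hY1 : 1 ≤ YY A t := by
    have : (0 : ℝ) < (YY A t : ℝ) := by linarith
    exact_mod_cast this
  have hY0 : (0 : ℝ) < (YY A t : ℝ) := by exact_mod_cast hY1
  refine ⟨hY1, ?_, ?_, ?_⟩
  · have := Real.log_le_log hY0 hYle
    rwa [hxe, Real.log_exp] at this
  · have h4 : Real.exp ((1 - 25 / A) * log t - 1) ≤ (YY A t : ℝ) := by
      rw [Real.exp_sub, ← hxe, div_le_iff₀ (Real.exp_pos 1)]
      have h5 := Real.exp_one_gt_d9
      nlinarith
    have h6 := Real.log_le_log (Real.exp_pos _) h4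
    rwa [Real.log_exp] at h6
  · calc (t : ℝ) ^ (24 / A) * YY A t ≤ (t : ℝ) ^ (24 / A) * x :=
          mul_le_mul_of_nonneg_left hYle (by positivity)
      _ = (t : ℝ) ^ (1 - 1 / A) := by
          rw [hx, ← Real.rpow_add ht]
          congr 1
          ring

end Pool.Agent.PSQ
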