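import Pool.Agent.PSQ.RJ
import Pool.Agent.PSQ.Mass

/-!
# PSQ module WGT: the weights are large enough for the hitting lemma

For `N` large without primes in `J N`, `t = √N`, `z = zz A t`.  By `good_count` and `mass_ge`,
`∑_{m ∈ AA} 1/m ≥ V/9`.  For `m ∈ AA`, `2^j ≤ m < 2^(j+1)`: `j = Nat.log 2 m`, `2^j ≤ t + 1`,
so `zeta A j ≤ z` (`j ≤ 1.5 log t`, `j / log (j+2) ≤ 1.5 log t / log (1.5 log t + 2)`
`≤ 4 log t / loglog t`), hence `m ∈ RR A j`; and `m > z` gives `j + 1 ≥ log z / log 2 ≥ log z`.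
`K_j |AA ∩ RR_j| / |RR_j| ≥ K_j (j+1) / (C 2^j log (j+2)) |AA ∩ RR_j|`
`≥ (j+1)^(5/2) / (C log (j+2)) ∑_{m ∈ AA ∩ RR_j} 1/m`, so the sum over `j < Nat.log 2 (t+1) + 1` is
`≥ (log z)^(5/2) / (C log (log z + 2)) · V / 9 ≥ c (log z)^(3/2) / loglog t`
`≥ c' (log t)^(3/2) / (loglog t)^3 ≥ 4 log (t+1) ≥ 2 log N`.
-/

set_option autoImplicit false

namespace Pool.Agent.PSQ

open Finset Real Filter

theorem log_succ_le {t : ℕ} (ht : 1 ≤ t) : log ((t : ℝ) + 1) ≤ log t + 1 := by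
  have h0 : (0 : ℝ) < t := by exact_mod_cast ht
  have h1 : log ((t : ℝ) + 1) ≤ log (2 * t) := by
    refine log_le_log (by positivity) ?_
    have : (1 : ℝ) ≤ t := by exact_mod_cast ht
    linarith
  rw [log_mul (by norm_num) h0.ne'] at h1
  have := log_two_lt_d9
  linarith

theorem j_le {t j : ℕ} (hl : 10 ≤ log t) (hj : 2 ^ j ≤ t + 1) : (j : ℝ) ≤ 3 / 2 * (log t + 1) := by
  have ht : 1 ≤ t := by
    rcases Nat.eq_zero_or_pos t with h | h
    · subst h
      norm_num at hl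
    · exact h
  have h1 : (j : ℝ) * log 2 ≤ log t + 1 := by
    rw [← log_pow]
    refine (log_le_log (by positivity) ?_).trans (log_succ_le ht)
    exact_mod_cast hj
  have h2 := log_two_gt_d9
  have h3 : (0 : ℝ) ≤ j := Nat.cast_nonneg j
  nlinarith

theorem zeta_le {A : ℝ} (hA : 100 ≤ A) {t j : ℕ} (hl : 10 ≤ log t) (hj : 2 ^ j ≤ t + 1) :
    zeta A j ≤ zz A t := by
  unfold zeta zz
  refine Nat.floor_le_floor (exp_le_exp.2 ?_)
  have hA0 : 0 < A := by linarith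
  set l : ℝ := log t with hldef
  have hjl := j_le hl hj
  rw [← hldef] at hjl
  have hll : 0 < log l := log_pos (by linarith)
  have hj0 : (0 : ℝ) ≤ j := Nat.cast_nonneg j
  have hlj : 0 < log ((j : ℝ) + 2) := log_pos (by linarith)
  have hlj2 : log 2 ≤ log ((j : ℝ) + 2) := log_le_log (by norm_num) (by linarith)
  rw [div_le_div_iff₀ (by positivity) (by positivity)]
  suffices h : (j : ℝ) * log l ≤ l * (4 * log ((j : ℝ) + 2)) by
    calc (j : ℝ) * (A * log l) = A * (j * log l) := by ring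
      _ ≤ A * (l * (4 * log ((j : ℝ) + 2))) := mul_le_mul_of_nonneg_left h hA0.le
      _ = _ := by ring
  have hsl : 0 < √l := sqrt_pos.2 (by linarith)
  have hss : √l * √l = l := mul_self_sqrt (by linarith)
  have hlog : log l = 2 * log (√l) := by
    rw [log_sqrt (by linarith)]
    ring
  rcases le_total (j : ℝ) (√l) with h | h
  · have h1 : log (√l) ≤ √l - 1 := log_le_sub_one_of_pos hsl
    have h2 : log l ≤ 2 * √l := by rw [hlog]; linarith
    have h3 := log_two_gt_d9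
    calc (j : ℝ) * log l ≤ √l * (2 * √l) := mul_le_mul h h2 hll.le hsl.le
      _ = l * 2 := by
          rw [show √l * (2 * √l) = (√l * √l) * 2 by ring, hss]
      _ ≤ l * (4 * log ((j : ℝ) + 2)) := by
          refine mul_le_mul_of_nonneg_left ?_ (by linarith)
          linarith
  · have h1 : log (√l) ≤ log ((j : ℝ) + 2) := log_le_log hsl (by linarith)
    have h2 : (j : ℝ) ≤ 2 * l := by linarith
    calc (j : ℝ) * log l ≤ (2 * l) * log l := mul_le_mul_of_nonneg_right h2 hll.le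
      _ = (4 * l) * log (√l) := by rw [hlog]; ring
      _ ≤ (4 * l) * log ((j : ℝ) + 2) := mul_le_mul_of_nonneg_left h1 (by linarith)
      _ = _ := by ring

/-- One dyadic block. -/
theorem term_ge {A C : ℝ} (hC : 0 < C)
    (hcard : ∀ j : ℕ, ((RR A j).card : ℝ) ≤ C * 2 ^ j * log (j + 2) / (j + 1))
    (hne : ∀ j : ℕ, (RR A j).Nonempty) (AN : Finset ℕ) (j : ℕ) (w Lj : ℝ) (hw0 : 0 ≤ w)
    (hLj : 0 < Lj) (hL : log (j + 2) ≤ Lj)
    (hw : ∀ m ∈ AN ∩ RR A j, w ≤ (j : ℝ) + 1) :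
    w ^ 2 * √w / (C * Lj) * ∑ m ∈ AN ∩ RR A j, 1 / (m : ℝ) ≤
      (KK j : ℝ) * ((AN ∩ RR A j).card : ℝ) / ((RR A j).card : ℝ) := by
  have hR0 : (0 : ℝ) < (RR A j).card := by exact_mod_cast card_pos.2 (hne j)
  rcases (AN ∩ RR A j).eq_empty_or_nonempty with h | ⟨m0, hm0⟩
  · rw [h]
    simp
  have hwj := hw m0 hm0
  have hj1 : (0 : ℝ) < (j : ℝ) + 1 := by positivity
  have h2j : (0 : ℝ) < 2 ^ j := by positivity
  have hsum : ∑ m ∈ AN ∩ RR A j, 1 / (m : ℝ) ≤ ((AN ∩ RR A j).card : ℝ) / 2 ^ j := by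
    rw [div_eq_mul_one_div ((AN ∩ RR A j).card : ℝ), ← nsmul_eq_mul]
    refine sum_le_card_nsmul _ _ _ fun m hm => ?_
    have h1 := (mem_inter.1 hm).2
    unfold RR at h1
    have h2 := (mem_Ico.1 (mem_filter.1 h1).1).1
    refine one_div_le_one_div_of_le h2j ?_
    exact_mod_cast h2
  have hK : ((j : ℝ) + 1) * √((j : ℝ) + 1) ≤ (KK j : ℝ) := by
    unfold KK
    push_cast
    refine mul_le_mul_of_nonneg_left ?_ hj1.le
    rw [sqrt_le_left (by positivity)]
    have h1 := Nat.lt_succ_sqrt (j + 1)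
    have h2 : ((j + 1 : ℕ) : ℝ) < (((Nat.sqrt (j + 1)).succ * (Nat.sqrt (j + 1)).succ : ℕ) : ℝ) := by
      exact_mod_cast h1
    push_cast at h2
    nlinarith
  have hcard' : ((RR A j).card : ℝ) ≤ C * 2 ^ j * Lj / (j + 1) := by
    refine (hcard j).trans ?_
    gcongr
  have hn0 : (0 : ℝ) ≤ ((AN ∩ RR A j).card : ℝ) := Nat.cast_nonneg _
  have hww : w ^ 2 * √w ≤ ((j : ℝ) + 1) ^ 2 * √((j : ℝ) + 1) := by
    gcongr
  calc w ^ 2 * √w / (C * Lj) * ∑ m ∈ AN ∩ RR A j, 1 / (m : ℝ)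
      ≤ (((j : ℝ) + 1) ^ 2 * √((j : ℝ) + 1)) / (C * Lj) * (((AN ∩ RR A j).card : ℝ) / 2 ^ j) := by
        gcongr
    _ = (((j : ℝ) + 1) * √((j : ℝ) + 1)) * ((AN ∩ RR A j).card : ℝ) /
          (C * 2 ^ j * Lj / (j + 1)) := by
        field_simp
    _ ≤ (KK j : ℝ) * ((AN ∩ RR A j).card : ℝ) / ((RR A j).card : ℝ) := by
        gcongr

theorem weights_core {A C c : ℝ} (hA : 100 ≤ A) (hC : 0 < C) (hc : 0 < c)
    (hcard : ∀ j : ℕ, ((RR A j).card : ℝ) ≤ C * 2 ^ j * log (j + 2) / (j + 1)) {N t : ℕ}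
    (ht : Nat.sqrt N = t) (hl : 10 ≤ log t) (hz3 : 3 ≤ zz A t)
    (hz : log t / (A * log (log t)) ≤ 2 * log (zz A t))
    (hmass : V (zz A t) / 9 ≤ ∑ m ∈ AA N (zz A t), 1 / (m : ℝ))
    (hV : c / log (zz A t) ≤ V (zz A t))
    (hbig : 2 * A * (288 * A * C / c) ^ 2 * log (log t) ^ 5 ≤ log t) :
    2 * log N ≤ ∑ j ∈ range (Nat.log 2 (t + 1) + 1),
      (KK j : ℝ) * ((AA N (zz A t) ∩ RR A j).card : ℝ) / ((RR A j).card : ℝ) := by
  set l : ℝ := log t with hldef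
  set z : ℕ := zz A t with hzdef
  have hA0 : 0 < A := by linarith
  have ht1 : 1 ≤ t := by
    rcases Nat.eq_zero_or_pos t with h | h
    · rw [h] at hldef
      norm_num at hldef
      linarith
    · exact h
  have hll : 0 < log l := log_pos (by linarith)
  have hzr : (3 : ℝ) ≤ (z : ℝ) := by exact_mod_cast hz3
  have hlz : 0 < log (z : ℝ) := log_pos (by linarith)
  -- the membership of `m`
  have hmem : ∀ m ∈ AA N z, ∃ j ∈ range (Nat.log 2 (t + 1) + 1), m ∈ RR A j := by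
    intro m hm
    rw [mem_AA] at hm
    obtain ⟨h1, h2, h3, -⟩ := hm
    rw [ht] at h1
    refine ⟨Nat.log 2 m, mem_range.2 ?_, ?_⟩
    · have := Nat.log_mono_right (b := 2) (show m ≤ t + 1 by omega)
      omega
    · unfold RR
      refine mem_filter.2 ⟨mem_Ico.2 ⟨Nat.pow_log_le_self 2 (by omega),
        Nat.lt_pow_succ_log_self (by norm_num) m⟩, ?_⟩
      intro p hp hpm
      refine lt_of_le_of_lt ?_ (h3 p hp hpm)
      refine zeta_le hA (by rw [← hldef]; exact hl) ?_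
      exact (Nat.pow_log_le_self 2 (by omega)).trans (by omega)
  have hsum : ∑ m ∈ AA N z, 1 / (m : ℝ) ≤
      ∑ j ∈ range (Nat.log 2 (t + 1) + 1), ∑ m ∈ AA N z ∩ RR A j, 1 / (m : ℝ) := by
    have h1 : ∀ j, ∑ m ∈ AA N z ∩ RR A j, 1 / (m : ℝ)
        = ∑ m ∈ AA N z, if m ∈ RR A j then 1 / (m : ℝ) else 0 := by
      intro j
      rw [← sum_filter, filter_mem_eq_inter]
    rw [sum_congr rfl fun j _ => h1 j, sum_comm]
    refine sum_le_sum fun m hm => ?_
    obtain ⟨j, hj, hmj⟩ := hmem m hm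
    have h2 : (1 : ℝ) / m = if m ∈ RR A j then 1 / (m : ℝ) else 0 := by rw [if_pos hmj]
    refine h2.le.trans ?_
    refine single_le_sum (f := fun j => if m ∈ RR A j then 1 / (m : ℝ) else 0)
      (fun i _ => ?_) hj
    split_ifs
    · positivity
    · exact le_rfl
  -- the terms
  set w : ℝ := l / (2 * A * log l) with hw
  have hw0 : 0 < w := by positivity
  have hwz : w ≤ log z := by
    have h1 : w = (l / (A * log l)) / 2 := by
      rw [hw]
      field_simp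
    rw [h1]
    linarith
  have hterm : ∀ j ∈ range (Nat.log 2 (t + 1) + 1),
      (log z) ^ 2 * √(log z) / (C * (2 * log l)) * ∑ m ∈ AA N z ∩ RR A j, 1 / (m : ℝ) ≤
      (KK j : ℝ) * ((AA N z ∩ RR A j).card : ℝ) / ((RR A j).card : ℝ) := by
    intro j hj
    have hj' : 2 ^ j ≤ t + 1 := by
      have := mem_range.1 hj
      exact (Nat.pow_le_pow_right (by norm_num) (by omega)).trans
        (Nat.pow_log_le_self 2 (by omega))
    refine term_ge hC hcard (RR_nonempty A hA) _ j _ _ hlz.le (by positivity) ?_ ?_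
    · have h1 := j_le (by rw [← hldef]; exact hl) hj'
      rw [← hldef] at h1
      have h2 : (j : ℝ) + 2 ≤ l ^ 2 := by nlinarith
      calc log ((j : ℝ) + 2) ≤ log (l ^ 2) := log_le_log (by positivity) h2
        _ = 2 * log l := by rw [log_pow]; push_cast; ring
    · intro m hm
      rw [mem_inter, mem_AA] at hm
      obtain ⟨⟨h1, h2, h3, -⟩, h4⟩ := hm
      have h5 : z < m := by
        have hp := Nat.minFac_prime (show m ≠ 1 by omega)
        exact (h3 _ hp (Nat.minFac_dvd m)).trans_le (Nat.minFac_le (by omega))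
      unfold RR at h4
      have h6 := (mem_Ico.1 (mem_filter.1 h4).1).2
      have h7 : (z : ℝ) ≤ 2 ^ (j + 1) := by exact_mod_cast (h5.trans h6).le
      have h8 : log (z : ℝ) ≤ log (2 ^ (j + 1)) := log_le_log (by linarith) h7
      rw [log_pow] at h8
      have h9 := log_two_lt_d9
      have h10 : (0 : ℝ) ≤ ((j + 1 : ℕ) : ℝ) := Nat.cast_nonneg _
      have h11 : ((j + 1 : ℕ) : ℝ) * log 2 ≤ ((j + 1 : ℕ) : ℝ) * 1 :=
        mul_le_mul_of_nonneg_left (by linarith) h10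
      push_cast at *
      linarith
  have hlower : (log z) ^ 2 * √(log z) / (C * (2 * log l)) * (V z / 9) ≤
      ∑ j ∈ range (Nat.log 2 (t + 1) + 1),
      (KK j : ℝ) * ((AA N z ∩ RR A j).card : ℝ) / ((RR A j).card : ℝ) := by
    calc (log z) ^ 2 * √(log z) / (C * (2 * log l)) * (V z / 9)
        ≤ (log z) ^ 2 * √(log z) / (C * (2 * log l)) *
          ∑ j ∈ range (Nat.log 2 (t + 1) + 1), ∑ m ∈ AA N z ∩ RR A j, 1 / (m : ℝ) :=
          mul_le_mul_of_nonneg_left (hmass.trans hsum) (by positivity)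
      _ = ∑ j ∈ range (Nat.log 2 (t + 1) + 1), (log z) ^ 2 * √(log z) / (C * (2 * log l)) *
          ∑ m ∈ AA N z ∩ RR A j, 1 / (m : ℝ) := by rw [mul_sum]
      _ ≤ _ := sum_le_sum hterm
  refine le_trans ?_ hlower
  -- numbers
  have hN : log (N : ℝ) ≤ 4 * l := by
    rcases Nat.eq_zero_or_pos N with h0 | h0
    · rw [h0]
      simp
      linarith
    have h1 : N ≤ (t + 1) ^ 2 := by
      have := Nat.lt_succ_sqrt N
      rw [ht, Nat.succ_eq_add_one] at this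
      nlinarith
    have h2 : (N : ℝ) ≤ ((t : ℝ) + 1) ^ 2 := by exact_mod_cast h1
    have h3 : log (N : ℝ) ≤ log (((t : ℝ) + 1) ^ 2) :=
      log_le_log (by exact_mod_cast h0) h2
    rw [log_pow] at h3
    have h4 := log_succ_le ht1
    rw [← hldef] at h4
    push_cast at h3
    linarith
  have hV9 : (log z) ^ 2 * √(log z) / (C * (2 * log l)) * (V z / 9) ≥
      c * w * √w / (18 * C * log l) := by
    calc c * w * √w / (18 * C * log l) ≤ c * log z * √(log z) / (18 * C * log l) := by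
          gcongr
      _ = (log z) ^ 2 * √(log z) / (C * (2 * log l)) * ((c / log z) / 9) := by
          field_simp
          ring
      _ ≤ _ := by gcongr
  refine le_trans ?_ hV9
  set K : ℝ := 288 * A * C / c with hK
  have hK0 : 0 < K := by positivity
  have hsq : K * (log l) ^ 2 ≤ √w := by
    refine le_sqrt_of_sq_le ?_
    rw [hw, le_div_iff₀ (by positivity)]
    calc (K * log l ^ 2) ^ 2 * (2 * A * log l) = 2 * A * K ^ 2 * log l ^ 5 := by ring
      _ ≤ l := hbig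
  have h8 : 8 * l = c * w * (K * (log l) ^ 2) / (18 * C * log l) := by
    rw [hw, hK]
    field_simp
    ring
  calc 2 * log (N : ℝ) ≤ 8 * l := by linarith
    _ = c * w * (K * (log l) ^ 2) / (18 * C * log l) := h8
    _ ≤ c * w * √w / (18 * C * log l) := by gcongr

theorem weights_ge : ∃ A : ℝ, 100 ≤ A ∧ ∃ N0 : ℕ, 2 ≤ N0 ∧ ∀ N : ℕ, N0 ≤ N →
    (∀ q ∈ J N, ¬ q.Prime) →
    2 * log N ≤ ∑ j ∈ range (Nat.log 2 (Nat.sqrt N + 1) + 1),
      (KK j : ℝ) * ((AA N (zz A (Nat.sqrt N)) ∩ RR A j).card : ℝ) / ((RR A j).card : ℝ) := by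
  obtain ⟨A, hA, hgood⟩ := good_count
  refine ⟨A, hA, ?_⟩
  obtain ⟨C, hC, hcard⟩ := card_RR_le A hA
  obtain ⟨c, hc, hV⟩ := V_log_ge
  have tl : Tendsto (fun t : ℕ => log (t : ℝ)) atTop atTop :=
    tendsto_log_atTop.comp tendsto_natCast_atTop_atTop
  have e1 : ∀ᶠ t : ℕ in atTop, 10 ≤ log (t : ℝ) := tl.eventually_ge_atTop 10
  have e2 : ∀ᶠ t : ℕ in atTop,
      2 * A * (288 * A * C / c) ^ 2 * log (log (t : ℝ)) ^ 5 ≤ log (t : ℝ) := by
    have hM : (0 : ℝ) < 2 * A * (288 * A * C / c) ^ 2 := by positivity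
    have h1 := (isLittleO_pow_log_id_atTop (n := 5)).bound (inv_pos.2 hM)
    have h2 := tl.eventually (h1.and (eventually_ge_atTop 1))
    filter_upwards [h2] with t ht
    obtain ⟨h3, h4⟩ := ht
    rw [norm_eq_abs, norm_eq_abs, id, abs_of_nonneg (pow_nonneg (log_nonneg h4) 5),
      abs_of_nonneg (by linarith : (0 : ℝ) ≤ log (t : ℝ))] at h3
    rwa [inv_mul_eq_div, le_div_iff₀ hM, mul_comm] at h3
  have hall := ((hgood A le_rfl).and (zz_bounds A hA)).and (((hV A hA).and e1).and e2)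
  obtain ⟨t0, ht0⟩ := eventually_atTop.1 hall
  refine ⟨max 2 (t0 * t0), le_max_left _ _, fun N hN hno => ?_⟩
  have hst : t0 ≤ Nat.sqrt N := Nat.le_sqrt.2 ((le_max_right _ _).trans hN)
  obtain ⟨⟨h1, h2, -, h4⟩, ⟨⟨-, h5⟩, h6⟩, h7⟩ := ht0 _ hst
  refine weights_core hA hC hc hcard rfl h6 h2 h4 ?_ h5 h7
  have hs1 : 1 ≤ Nat.sqrt N := Nat.le_sqrt.2 (by
    have := (le_max_left 2 (t0 * t0)).trans hN
    omega)
  have h8 := mass_ge N (zz A (Nat.sqrt N)) hs1 hno
  have h9 := h1 N rfl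
  have hs0 : (0 : ℝ) < Nat.sqrt N := by exact_mod_cast hs1
  have h10 : V (zz A (Nat.sqrt N)) * Nat.sqrt N / 3 ≤
      3 * Nat.sqrt N * ∑ m ∈ AA N (zz A (Nat.sqrt N)), 1 / (m : ℝ) := h9.trans h8
  have h11 : (V (zz A (Nat.sqrt N)) / 9) * (3 * Nat.sqrt N) ≤
      (∑ m ∈ AA N (zz A (Nat.sqrt N)), 1 / (m : ℝ)) * (3 * Nat.sqrt N) := by
    linarith
  exact le_of_mul_le_mul_right h11 (by positivity)

end Pool.Agent.PSQ
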